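import Pool.Agent.W602.GT.SpDefs
import Pool.Agent.W602.GT.MordDefs
import Mathlib

/-!
Projective manifolds, holomorphic maps to elliptic curves, entire curves, and positivity of the
2-forms.
-/

set_option autoImplicit false

open Filter Topology FF LinearAlgebra.Projectivization Pool.Agent.W602.GT

namespace Pool.Agent.N154.GG

variable {n : ℕ} {ι : Type}

/-- Near the point `x`, the cone `X` in `ℂⁿ⁺¹` is the cone over the graph of a holomorphic map `Ψ`
in `d` of the affine coordinates `u j / u i` (with `x i ≠ 0`): the projective set given by `X` is,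
near the point `x`, a closed complex submanifold of dimension `d` of projective space. -/
def GraphAt (X : Set (Fin (n + 1) → ℂ)) (d : ℕ) (x : Fin (n + 1) → ℂ) : Prop :=
  ∃ (i : Fin (n + 1)) (J : Fin d → Fin (n + 1)) (U : Set (Fin d → ℂ))
    (Ψ : (Fin d → ℂ) → Fin (n + 1) → ℂ), x i ≠ 0 ∧ IsOpen U ∧ (fun k => x (J k) / x i) ∈ U ∧
    AnalyticOnNhd ℂ Ψ U ∧ (∀ z ∈ U, Ψ z ∈ X ∧ Ψ z i = 1 ∧ ∀ k, Ψ z (J k) = z k) ∧
    ∀ᶠ u in 𝓝 x, u ∈ X → u = u i • Ψ (fun k => u (J k) / u i)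

/-- The projective variety `X = {F = 0}` in `ℙⁿ(ℂ)` is a smooth irreducible variety of dimension `d`
with function field `K` and generic point `y`: `K` is a field of transcendence degree `d` generated
by the ratios of the coordinates of `y`, the points of `X` are the common zeros of the forms which
vanish at `y`, and `X` is a complex submanifold of dimension `d` of projective space. -/
structure SmoothVariety (F : ι → MvPolynomial (Fin (n + 1)) ℂ) (d : ℕ) {K : Type} [Field K]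
    [Algebra ℂ K] (y : Fin (n + 1) → K) : Prop where
  form : ∀ i, IsForm (F i)
  sub : SubVar F K d y
  irred : Cone F ⊆ VarPts ℂ y
  smooth : ∀ x ∈ Cone F, GraphAt (Cone F) d x

/-- Positivity of the 2-forms on the projective manifold of dimension `d` with the cone `X`: the
`η q x v w`, for `x` in `X` and for tangent vectors `v`, `w` of `X` at `x`, are holomorphic and
satisfy `η (c x) (c (v + e x)) (c (w + f x)) = c⁻¹ η x v w` (`c`, `e`, `f` numbers); thus they are
twisted by `O (-1)` and depend only on the point of projective space and on the two tangent vectors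
there which are given by `v`, `w`. Whenever `v` and `w` give linearly independent tangent vectors of
the manifold, some `η q x v w` is not zero.

For example, `η q x v w` may be the value at `(v ∧ w) ^ ν` of a holomorphic section of
`Sym ^ ν (Λ² Ω) ⊗ O (-1)`; the condition holds for suitable `ν`, `η` if the vector bundle `Λ² Ω` is
ample. If `d = 2`, then `Λ² Ω` is the canonical bundle. -/
structure PositiveTwoForms (X : Set (Fin (n + 1) → ℂ)) (d : ℕ) {κ : Type}
    (η : κ → (Fin (n + 1) → ℂ) → (Fin (n + 1) → ℂ) → (Fin (n + 1) → ℂ) → ℂ) : Prop where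
  twist : ∀ (q : κ), ∀ x ∈ X, ∀ (v w : Fin (n + 1) → ℂ) (c e f : ℂ), c ≠ 0 →
    η q (c • x) (c • (v + e • x)) (c • (w + f • x)) = c⁻¹ * η q x v w
  hol : ∀ (q : κ) (U : Set (Fin d → ℂ)) (Ψ : (Fin d → ℂ) → Fin (n + 1) → ℂ), IsOpen U →
    AnalyticOnNhd ℂ Ψ U → (∀ z ∈ U, Ψ z ∈ X) →
    AnalyticOnNhd ℂ (fun p : (Fin d → ℂ) × (Fin d → ℂ) × (Fin d → ℂ) =>
      η q (Ψ p.1) (fderiv ℂ Ψ p.1 p.2.1) (fderiv ℂ Ψ p.1 p.2.2)) (U ×ˢ Set.univ)
  pos : ∀ (U : Set (Fin d → ℂ)) (Ψ : (Fin d → ℂ) → Fin (n + 1) → ℂ), IsOpen U →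
    AnalyticOnNhd ℂ Ψ U → (∀ z ∈ U, Ψ z ∈ X) → ∀ z ∈ U, ∀ a b : Fin d → ℂ,
    LinearIndependent ℂ ![Ψ z, fderiv ℂ Ψ z a, fderiv ℂ Ψ z b] →
    ∃ q, η q (Ψ z) (fderiv ℂ Ψ z a) (fderiv ℂ Ψ z b) ≠ 0

/-- `α` is a holomorphic map from the projective set with the cone `X` to the elliptic curve
`ℂ / L`. -/
structure HolToTorus (X : Set (Fin (n + 1) → ℂ)) (L : PeriodPair)
    (α : (Fin (n + 1) → ℂ) → ℂ ⧸ L.lattice) : Prop where
  homog : ∀ x ∈ X, ∀ c : ℂ, c ≠ 0 → α (c • x) = α x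
  hol : ∀ x ∈ X, ∃ w : (Fin (n + 1) → ℂ) → ℂ, AnalyticAt ℂ w x ∧
    ∀ᶠ u in 𝓝 x, u ∈ X → α u = Submodule.Quotient.mk (w u)

/-- The map `f` from the complex plane to projective space is holomorphic. -/
def HolMap (f : ℂ → ℙ ℂ (Fin (n + 1) → ℂ)) : Prop :=
  ∀ z : ℂ, ∃ (V : Set ℂ) (g : ℂ → Fin (n + 1) → ℂ), IsOpen V ∧ z ∈ V ∧ DifferentiableOn ℂ g V ∧
    ∀ w ∈ V, ∃ h : g w ≠ 0, f w = Projectivization.mk ℂ (g w) h

/-- `f` is a holomorphic map from the complex plane to the projective set `X = {F = 0}`. -/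
def HolIn (F : ι → MvPolynomial (Fin (n + 1)) ℂ) (f : ℂ → ℙ ℂ (Fin (n + 1) → ℂ)) : Prop :=
  HolMap f ∧ ∀ z, (f z).rep ∈ Cone F

/-- The fibres of the map `α` on `X = {F = 0}` are Brody hyperbolic: every holomorphic map from the
complex plane to a fibre is constant. -/
def HyperbolicFibres (F : ι → MvPolynomial (Fin (n + 1)) ℂ) {E : Type}
    (α : (Fin (n + 1) → ℂ) → E) : Prop :=
  ∀ f : ℂ → ℙ ℂ (Fin (n + 1) → ℂ), HolIn F f → (∀ z w, α (f z).rep = α (f w).rep) →
    ∀ z w, f z = f w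

end Pool.Agent.N154.GG
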