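import Pool.Agent.N154.GG.Main2

/-! The main theorem, for compact sets of projection matrices. -/

set_option autoImplicit false

open Filter Topology Metric Set

namespace Pool.Agent.N154.GG

open Pool.Agent.Y190.OP Pool.Agent.N155

variable {N : ℕ} {T : Set (Mat N)} {Λ : AddSubgroup ℂ} {a : Mat N → ℂ} {κ : Type}
    {η : κ → (Fin N → ℂ) → (Fin N → ℂ) → (Fin N → ℂ) → ℂ}
    {r : ℕ} {e : Fin r → ℂ → Mat N}

theorem sg_locbdd {φ : ℂ → ℂ} (hφ : Differentiable ℂ φ) (z : ℂ) :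
    ∀ᶠ w in 𝓝 z, sg φ w ≤ 4 * sg φ z := by
  have h1 : Tendsto (fun w : ℂ => 4 * ‖w - z‖ * sg φ z) (𝓝 z) (𝓝 0) := by
    have : Continuous fun w : ℂ => 4 * ‖w - z‖ * sg φ z := by fun_prop
    have h2 := this.tendsto z
    simpa using h2
  filter_upwards [h1.eventually_le_const (u := 1) one_pos] with w hw
  exact sg_harnack hφ hw

/-- **Rescaling** -/
theorem exists_SQ (hT : TD T Λ a) (he : ∀ j, e j ∈ S0 T Λ a)
    (hperm : ∀ l ∈ Λ, ∃ σ : Equiv.Perm (Fin r), ∀ j z, e (σ j) z = e j (z + l))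
    {h : ℂ → Mat N} {φ : ℂ → ℂ} (hh : HolP univ h) (hhT : ∀ z, h z ∈ T)
    (hφ : Differentiable ℂ φ) (ho : Over Λ a h φ) (hne : ∀ j, ∃ z, h z ≠ e j (φ z))
    (hnc : ∃ z, φ z ≠ φ 0) : ∃ D h' φ', SQ T Λ a e D h' φ' := by
  set Pr : ℂ → ℝ := fun z => ∏ j, ‖h z - e j (φ z)‖ with hPr
  have hPr0 : ∀ z, 0 ≤ Pr z := fun z => Finset.prod_nonneg fun _ _ => norm_nonneg _
  have hPr1 : ∀ z, Pr z ≤ 2 ^ r := fun z => prod_dist_le (hh.mem_PM (mem_univ z)) fun j =>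
    (he j).1.mem_PM (mem_univ _)
  have h2r : (0 : ℝ) < 2 ^ r := by positivity
  have hx0 : ∀ z, 0 ≤ Pr z / 2 ^ r := fun z => div_nonneg (hPr0 z) h2r.le
  have hx1 : ∀ z, Pr z / 2 ^ r ≤ 1 := fun z => (div_le_one h2r).2 (hPr1 z)
  have hqpos : ∀ k, qk k ≠ 0 := fun k => by
    unfold qk
    positivity
  have hq0 : ∀ k, 0 < ((qk k : ℕ) : ℝ)⁻¹ := fun k => by
    have := Nat.pos_of_ne_zero (hqpos k)
    positivity
  have hsgpos : ∀ z, 0 < sg φ z := by
    intro z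
    rcases (sg_nonneg hφ z).eq_or_lt with h0 | h0
    · exfalso
      obtain ⟨w, hw⟩ := hnc
      apply hw
      rw [const_of_sg_zero hφ h0.symm w, const_of_sg_zero hφ h0.symm 0]
    · exact h0
  obtain ⟨z0, hz0⟩ : ∃ z0, Pr z0 ≠ 0 := by
    have h1 : ∀ᶠ z in codiscrete ℂ, ∀ j, h z ≠ e j (φ z) := by
      rw [eventually_all]
      intro j
      refine (holP_dich hh (holP_comp (he j).1 hφ)).resolve_left fun h2 => ?_
      obtain ⟨z, hz⟩ := hne j
      exact hz (h2 z)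
    obtain ⟨z0, hz0⟩ := codis_ne h1
    exact ⟨z0, Finset.prod_ne_zero_iff.2 fun j _ => norm_ne_zero_iff.2 (sub_ne_zero.2 (hz0 j))⟩
  have hPz0 : 0 < Pr z0 := lt_of_le_of_ne (hPr0 z0) (Ne.symm hz0)
  set f : ℕ → ℂ → ℝ := fun k z => sg φ z * (Pr z / 2 ^ r) ^ (((qk k : ℕ) : ℝ)⁻¹) with hf
  have hfpow : ∀ k z, f k z ^ qk k = sg φ z ^ qk k * (Pr z / 2 ^ r) := by
    intro k z
    rw [hf]
    simp only
    rw [mul_pow, Real.rpow_inv_natCast_pow (hx0 z) (hqpos k)]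
  have hf0 : ∀ k z, 0 ≤ f k z := fun k z =>
    mul_nonneg (hsgpos z).le (Real.rpow_nonneg (hx0 z) _)
  have hfs : ∀ k z, f k z ≤ sg φ z := fun k z =>
    mul_le_of_le_one_right (hsgpos z).le (Real.rpow_le_one (hx0 z) (hx1 z) (hq0 k).le)
  have hdb : ∀ k : ℕ, ∃ z, f k z0 ≤ f k z ∧ ∀ w, ‖w - z‖ * sg φ z ≤ k →
      f k w ≤ 2 ^ (((qk k : ℕ) : ℝ)⁻¹) * f k z := by
    intro k
    obtain ⟨z, e1, -, e3⟩ := doubling (f := f k) (s := sg φ) (hfs k) (by
        intro z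
        refine ⟨{w | sg φ w ≤ 4 * sg φ z}, sg_locbdd hφ z, 4 * sg φ z, ?_⟩
        rintro _ ⟨w, hw, rfl⟩
        exact (hfs k w).trans hw)
      (κ := 2 ^ (((qk k : ℕ) : ℝ)⁻¹)) (A := k) (Real.one_lt_rpow (by norm_num) (hq0 k))
      (Nat.cast_nonneg k) (z0 := z0)
      (mul_pos (hsgpos z0) (Real.rpow_pos_of_pos (div_pos hPz0 h2r) _))
    exact ⟨z, e1, e3⟩
  choose z1 h1 h3 using hdb
  have hf1 : ∀ k, 0 < f k (z1 k) := fun k =>
    lt_of_lt_of_le (mul_pos (hsgpos z0) (Real.rpow_pos_of_pos (div_pos hPz0 h2r) _)) (h1 k)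
  have hPz1 : ∀ k, 0 < Pr (z1 k) := by
    intro k
    rcases (hPr0 (z1 k)).eq_or_lt with h0 | h0
    · exfalso
      have h2 := pow_pos (hf1 k) (qk k)
      rw [hfpow, ← h0, zero_div, mul_zero] at h2
      exact lt_irrefl _ h2
    · exact h0
  choose l hlΛ hl using fun k => hT.coc.choose_spec (φ (z1 k))
  set c : ℕ → ℝ := fun k => (sg φ (z1 k))⁻¹ with hc
  have hc0 : ∀ k, 0 < c k := fun k => inv_pos.2 (hsgpos _)
  have hcn : ∀ k, ‖((c k : ℝ) : ℂ)‖ = c k := fun k => by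
    rw [Complex.norm_real, Real.norm_of_nonneg (hc0 k).le]
  have hcs : ∀ k, c k * sg φ (z1 k) = 1 := fun k => inv_mul_cancel₀ (hsgpos _).ne'
  set φ' : ℕ → ℂ → ℂ := fun k t => φ (z1 k + (c k : ℂ) * t) - l k with hφ'
  set h' : ℕ → ℂ → Mat N := fun k t => h (z1 k + (c k : ℂ) * t) with hh'
  have hsg : ∀ k t, sg (φ' k) t = c k * sg φ (z1 k + (c k : ℂ) * t) := by
    intro k t
    rw [hφ']
    simp only
    rw [sg_comp hφ (z1 k) (c k : ℂ) (l k) t, hcn]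
  have hprod : ∀ k t, ∏ j, ‖h' k t - e j (φ' k t)‖ = Pr (z1 k + (c k : ℂ) * t) := by
    intro k t
    obtain ⟨σ, hσ⟩ := hperm (-(l k)) (Λ.neg_mem (hlΛ k))
    rw [hPr]
    simp only
    rw [← Equiv.prod_comp σ (fun j => ‖h (z1 k + (c k : ℂ) * t) -
      e j (φ (z1 k + (c k : ℂ) * t))‖)]
    refine Finset.prod_congr rfl fun j _ => ?_
    rw [hσ, ← sub_eq_add_neg]
  refine ⟨hT.coc.choose, h', φ', ⟨fun k => holP_comp hh (by fun_prop), fun k z => hhT _,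
    fun k => ?_, fun k t => ?_, fun k => ?_, fun k => ?_, fun k => ?_, fun k t ht => ?_⟩⟩
  · exact (hφ.comp (by fun_prop)).sub_const _
  · have e1 := Λ.sub_mem (ho (z1 k + (c k : ℂ) * t)) (hlΛ k)
    have e2 : φ' k t - a (h' k t) = φ (z1 k + (c k : ℂ) * t) - a (h (z1 k + (c k : ℂ) * t)) -
        l k := by
      rw [hφ', hh']
      ring
    rw [e2]
    exact e1
  · have : φ' k 0 = φ (z1 k) - l k := by
      rw [hφ']
      simp
    rw [this]
    exact hl k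
  · rw [hsg, mul_zero, add_zero, hcs]
  · rw [hprod, mul_zero, add_zero]
    exact hPz1 k
  · rw [hprod, hprod, hsg, mul_zero, add_zero]
    set w := z1 k + (c k : ℂ) * t with hw
    have e1 := h3 k w (by
      rw [hw, add_sub_cancel_left, norm_mul, hcn]
      calc c k * ‖t‖ * sg φ (z1 k) = ‖t‖ * (c k * sg φ (z1 k)) := by ring
        _ = ‖t‖ := by rw [hcs, mul_one]
        _ ≤ k := ht)
    have e2 := pow_le_pow_left₀ (hf0 k w) e1 (qk k)
    rw [hfpow k w, mul_pow, Real.rpow_inv_natCast_pow (by norm_num) (hqpos k),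
      hfpow k (z1 k)] at e2
    have e3 : sg φ w ^ qk k * Pr w ≤ 2 * (sg φ (z1 k) ^ qk k * Pr (z1 k)) := by
      have e4 := mul_le_mul_of_nonneg_right e2 h2r.le
      have e5 : sg φ w ^ qk k * (Pr w / 2 ^ r) * 2 ^ r = sg φ w ^ qk k * Pr w := by
        field_simp
      have e6 : 2 * (sg φ (z1 k) ^ qk k * (Pr (z1 k) / 2 ^ r)) * 2 ^ r =
          2 * (sg φ (z1 k) ^ qk k * Pr (z1 k)) := by
        field_simp
      rwa [e5, e6] at e4
    calc (c k * sg φ w) ^ qk k * Pr w = c k ^ qk k * (sg φ w ^ qk k * Pr w) := by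
          rw [mul_pow]
          ring
      _ ≤ c k ^ qk k * (2 * (sg φ (z1 k) ^ qk k * Pr (z1 k))) :=
          mul_le_mul_of_nonneg_left e3 (pow_nonneg (hc0 k).le _)
      _ = 2 * ((c k * sg φ (z1 k)) ^ qk k * Pr (z1 k)) := by
          rw [mul_pow]
          ring
      _ = 2 * Pr (z1 k) := by rw [hcs, one_pow, one_mul]

/-- **Main theorem** for compact sets of projection matrices -/
theorem ggl_mat (hT : TD T Λ a) (hf : Fib T Λ a) (hG : GD T Λ a η) {h : ℂ → Mat N}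
    (hh : HolP univ h) (hhT : ∀ z, h z ∈ T) :
    (∀ z, h z = h 0) ∨ ∃ g ∈ S0 T Λ a, ∃ φ : ℂ → ℂ, Differentiable ℂ φ ∧ ∀ z, h z = g (φ z) := by
  classical
  have hfin := S0_finite hT hf hG
  have : Fintype (S0 T Λ a) := hfin.fintype
  obtain ⟨C, hC0, hC⟩ := gradient hT hf
  obtain ⟨κ, hκ, hper⟩ := S0_period hfin
  obtain ⟨φ, hφ, ho⟩ := hT.exists_lift hh hhT
  by_cases hnc : ∃ z, φ z ≠ φ 0
  · right
    set E := (Fintype.equivFin (S0 T Λ a)).symm with hE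
    set e : Fin (Fintype.card (S0 T Λ a)) → ℂ → Mat N := fun j => (E j : ℂ → Mat N) with he
    have heS : ∀ j, e j ∈ S0 T Λ a := fun j => (E j).2
    by_contra hcon
    push Not at hcon
    obtain ⟨D, h', φ', hs⟩ := exists_SQ (e := e) hT heS (by
      intro l hl
      obtain ⟨σ, hσ⟩ := S0_perm hl (T := T) (a := a)
      refine ⟨(E.trans σ).trans E.symm, fun j z => ?_⟩
      rw [he]
      simp only [Equiv.trans_apply, Equiv.apply_symm_apply]
      exact hσ _ _) hh hhT hφ ho (fun j => hcon (e j) (heS j) φ hφ) hnc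
    refine hs.false hT hG heS ?_ ?_ hκ (fun j l hl z => hper _ (heS j) l hl z) hC0 hC
    · intro i j hij
      exact E.injective (Subtype.ext hij)
    · intro g hg
      refine ⟨E.symm ⟨g, hg⟩, ?_⟩
      rw [he]
      simp only [Equiv.apply_symm_apply]
  · left
    push Not at hnc
    have : φ = fun _ => φ 0 := funext hnc
    rw [this] at ho
    exact hf h (φ 0) hh hhT ho

end Pool.Agent.N154.GG
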