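import Pool.Agent.N155.EvK
import Pool.Agent.N155.Ell
import Pool.Agent.N155.Clo

/-! Doubly periodic curves are not Zariski dense. -/

set_option autoImplicit false

open Filter Topology Metric Set MvPolynomial

namespace Pool.Agent.N154.GG

open FF Pool.Agent.Y190.OP Pool.Agent.N155 Pool.Agent.W602.GT

variable {n : ℕ} {K : Type} [Field K] [Algebra ℂ K] {y : Fin (n + 1) → K}

theorem pair_indep {d : ℕ} (hK : Algebra.trdeg ℂ K = (d : ℕ)) (hd : 2 ≤ d) :
    ∃ a b : K, AlgebraicIndependent ℂ ![a, b] := by
  obtain ⟨s, hs⟩ := exists_isTranscendenceBasis ℂ K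
  have hcard := hs.cardinalMk_eq_trdeg
  rw [hK] at hcard
  have h2 : Cardinal.mk (Fin 2) ≤ Cardinal.mk s := by
    rw [hcard, Cardinal.mk_fin]
    exact_mod_cast hd
  obtain ⟨e⟩ := Cardinal.le_def _ _ |>.1 h2
  refine ⟨e 0, e 1, ?_⟩
  have h3 := hs.1.comp e e.injective
  have h4 : (![(e 0 : K), (e 1 : K)] : Fin 2 → K) = (Subtype.val ∘ e) := by
    funext i
    fin_cases i <;> rfl
  rw [h4]
  exact h3

theorem doubly_periodic_not_dense (hgen : coords ℂ y = ⊤) {d : ℕ}
    (hK : Algebra.trdeg ℂ K = (d : ℕ)) (hd : 2 ≤ d) {φ : ℂ → Mat (n + 1)} (hol : HolP univ φ)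
    (hmem : ∀ z, φ z ∈ TX y) {p q : ℂ} (hind : LinearIndependent ℝ ![p, q])
    (hp : ∀ z, φ (z + p) = φ z) (hq : ∀ z, φ (z + q) = φ z) :
    ∃ G : MvPolynomial (Fin (n + 1)) ℂ, IsForm G ∧ val y G ≠ 0 ∧ ∀ z, ¬ nz G (φ z) := by
  by_contra hcon
  push Not at hcon
  have hcv : Cv y φ := ⟨hol, hmem, hcon⟩
  let R : ∀ h : K, Frac y h := fr hgen
  obtain ⟨a, x2, hax⟩ := pair_indep hK hd
  have hell : ∀ f : K, (fun z => ev R f (φ z)) ∈ Ell p q := fun f =>
    ⟨hcv.mero R f, fun z => by simp only [hp], fun z => by simp only [hq]⟩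
  obtain ⟨F, hF0, hF⟩ := ell_dep hind (hell a) (hell x2)
  apply hF0
  have h1 : aeval ![a, x2] F = (0 : K) := by
    apply (hcv.emb R).toRingHom.injective
    change hcv.emb R _ = hcv.emb R _
    rw [map_zero]
    have h2 : hcv.emb R (aeval ![a, x2] F) = aeval (fun i => hcv.emb R (![a, x2] i)) F :=
      (MvPolynomial.comp_aeval_apply (f := ![a, x2]) (hcv.emb R) F)
    rw [h2]
    have h3 : ∀ G : MvPolynomial (Fin 2) ℂ, ∃ hm : Meromorphic (fun z =>
        eval ![ev R a (φ z), ev R x2 (φ z)] G),
        aeval (fun i => hcv.emb R (![a, x2] i)) G = cl _ hm := by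
      intro G
      have hmm : ∀ G : MvPolynomial (Fin 2) ℂ, Meromorphic (fun z =>
          eval ![ev R a (φ z), ev R x2 (φ z)] G) := by
        intro G
        have h4 := mero_eval (σ := Fin 2) (v := ![fun z => ev R a (φ z), fun z => ev R x2 (φ z)])
          (by
            intro j
            fin_cases j
            · exact hcv.mero R a
            · exact hcv.mero R x2) G
        have h5 : (fun z => eval (fun j => (![fun z => ev R a (φ z), fun z => ev R x2 (φ z)] :
            Fin 2 → ℂ → ℂ) j z) G) = fun z => eval ![ev R a (φ z), ev R x2 (φ z)] G := by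
          funext z
          congr 1
          congr 1
          funext j
          fin_cases j <;> rfl
        rwa [h5] at h4
      refine ⟨hmm G, ?_⟩
      induction G using MvPolynomial.induction_on with
      | C r =>
        rw [aeval_C, ← cl_const, cl_eq]
        exact Eventually.of_forall fun z => by rw [eval_C]
      | add f g hf hg =>
        rw [map_add, hf, hg, cl_add, cl_eq]
        exact Eventually.of_forall fun z => by simp only [map_add, Pi.add_apply]
      | mul_X f i hf =>
        rw [map_mul, hf, aeval_X]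
        fin_cases i
        · change cl _ _ * hcv.emb R a = _
          rw [Cv.emb_apply, cl_mul, cl_eq]
          exact Eventually.of_forall fun z => by simp
        · change cl _ _ * hcv.emb R x2 = _
          rw [Cv.emb_apply, cl_mul, cl_eq]
          exact Eventually.of_forall fun z => by simp
    obtain ⟨hm, h4⟩ := h3 F
    rw [h4, cl_eq_zero]
    exact hF
  exact (injective_iff_map_eq_zero _).1 hax F h1

end Pool.Agent.N154.GG
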