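import Pool.Agent.N154.GG.Geo2
import Pool.Agent.N154.GG.Fin2
import Pool.Agent.N154.GG.Nd

/-! Entire curves in projective manifolds over elliptic curves: the geometric theorem. -/

set_option autoImplicit false

open Filter Topology Metric Set LinearAlgebra.Projectivization

namespace Pool.Agent.N154.GG

open FF Pool.Agent.Y190.OP Pool.Agent.W602.GT
open Pool.Agent.N155 (TX isCompact_TX TX_PM exists_shift nz nz_Phi val_eval)

variable {n : ℕ} {ι : Type} {F : ι → MvPolynomial (Fin (n + 1)) ℂ} {d : ℕ} {K : Type} [Field K]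
  [Algebra ℂ K] {y : Fin (n + 1) → K} {L : PeriodPair} {α : (Fin (n + 1) → ℂ) → ℂ ⧸ L.lattice}
  {κ : Type} {η : κ → (Fin (n + 1) → ℂ) → (Fin (n + 1) → ℂ) → (Fin (n + 1) → ℂ) → ℂ}

theorem isForm_prod {σ : Type*} (s : Finset σ) (G : σ → MvPolynomial (Fin (n + 1)) ℂ)
    (hG : ∀ i ∈ s, IsForm (G i)) : IsForm (∏ i ∈ s, G i) := by
  classical
  induction s using Finset.induction_on with
  | empty => exact ⟨0, by simpa using MvPolynomial.isHomogeneous_one _ _⟩
  | insert i s hi ih =>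
    rw [Finset.prod_insert hi]
    obtain ⟨a, ha⟩ := hG i (Finset.mem_insert_self _ _)
    obtain ⟨b, hb⟩ := ih fun j hj => hG j (Finset.mem_insert_of_mem hj)
    exact ⟨a + b, ha.mul hb⟩

theorem val_prod {R : Type} [Field R] [Algebra ℂ R] {σ : Type*} (s : Finset σ)
    (G : σ → MvPolynomial (Fin (n + 1)) ℂ) (x : Fin (n + 1) → R) :
    val x (∏ i ∈ s, G i) = ∏ i ∈ s, val x (G i) := by
  unfold val
  rw [map_prod]

/-- **Entire curves in projective manifolds fibred over elliptic curves.** -/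
theorem ggl_geo (hX : SmoothVariety F d y) (hd : 2 ≤ d) (hη : PositiveTwoForms (Cone F) d η)
    (hα : HolToTorus (Cone F) L α) (hfib : HyperbolicFibres F α) :
    ∃ (S : Set (ℂ → ℙ ℂ (Fin (n + 1) → ℂ))) (k : ℕ), S.Finite ∧ 0 < k ∧
      (∀ g ∈ S, HolIn F g ∧ (∀ z, α (g z).rep = Submodule.Quotient.mk z) ∧
        ∀ l ∈ L.lattice, ∀ z, g (z + k * l) = g z) ∧
      (∀ f, HolIn F f → (∀ z w, f z = f w) ∨
        ∃ g ∈ S, ∃ φ : ℂ → ℂ, Differentiable ℂ φ ∧ ∀ z, f z = g (φ z)) ∧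
      ∃ G : MvPolynomial (Fin (n + 1)) ℂ, IsForm G ∧ val y G ≠ 0 ∧
        ∀ f, HolIn F f → (∀ z w, f z = f w) ∨ ∀ z, val (f z).rep G = 0 := by
  classical
  have hT := td_of hX hα
  have hf := fib_of hX hα hfib
  have hG := gd_of hX hα hη
  have hfin := S0_finite hT hf hG
  obtain ⟨k, hk, hper⟩ := S0_period hfin
  have hmain : ∀ f, HolIn F f → (∀ z w, f z = f w) ∨
      ∃ g ∈ S0 (TX y) (La L) (aM L α F), ∃ φ : ℂ → ℂ, Differentiable ℂ φ ∧
        ∀ z, f z = toProj (g (φ z)) := by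
    intro f hf'
    have h1 : ∀ z, Phi (f z).rep ∈ TX y := fun z => mem_TX hX (hf'.2 z)
    rcases ggl_mat hT hf hG (holP_of hf'.1) h1 with h2 | ⟨g, hg, φ, hφ, h2⟩
    · left
      intro z w
      exact proj_ext ((h2 z).trans (h2 w).symm)
    · right
      refine ⟨g, hg, φ, hφ, fun z => proj_ext ?_⟩
      rw [Phi_rep_toProj (TX_PM (hg.2.1 _))]
      exact h2 z
  -- the equations
  have hperiod : ∀ g ∈ S0 (TX y) (La L) (aM L α F), ∃ G : MvPolynomial (Fin (n + 1)) ℂ,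
      IsForm G ∧ val y G ≠ 0 ∧ ∀ z, ¬ nz G (g z) := by
    intro g hg
    have hk' : (k : ℝ) ≠ 0 := by exact_mod_cast hk.ne'
    have hind : LinearIndependent ℝ ![(k : ℂ) * L.ω₁, (k : ℂ) * L.ω₂] := by
      have h1 := L.indep
      rw [LinearIndependent.pair_iff] at h1 ⊢
      intro s t hst
      have h2 : (s * k) • L.ω₁ + (t * k) • L.ω₂ = 0 := by
        rw [← hst]
        simp only [Complex.real_smul]
        push_cast
        ring
      obtain ⟨h3, h4⟩ := h1 _ _ h2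
      exact ⟨(mul_eq_zero.1 h3).resolve_right hk', (mul_eq_zero.1 h4).resolve_right hk'⟩
    exact doubly_periodic_not_dense hX.sub.gen hX.sub.dim hd hg.1 hg.2.1 hind
      (fun z => hper g hg _ L.ω₁_mem_lattice z) (fun z => hper g hg _ L.ω₂_mem_lattice z)
  choose! G hG1 hG2 hG3 using hperiod
  refine ⟨(fun P z => toProj (P z)) '' S0 (TX y) (La L) (aM L α F), k, hfin.image _, hk, ?_, ?_,
    ∏ g ∈ hfin.toFinset, G g, ?_, ?_, ?_⟩
  · rintro _ ⟨P, hP, rfl⟩
    obtain ⟨h1, h2⟩ := S0_iff hX hα hP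
    refine ⟨h1, h2, fun l hl z => ?_⟩
    change toProj (P (z + k * l)) = toProj (P z)
    rw [hper P hP l hl]
  · intro f hf'
    rcases hmain f hf' with h1 | ⟨g, hg, φ, hφ, h1⟩
    · exact Or.inl h1
    · exact Or.inr ⟨_, ⟨g, hg, rfl⟩, φ, hφ, h1⟩
  · exact isForm_prod _ _ fun g hg => hG1 g (hfin.mem_toFinset.1 hg)
  · rw [val_prod, Finset.prod_ne_zero_iff]
    exact fun g hg => hG2 g (hfin.mem_toFinset.1 hg)
  · intro f hf'
    rcases hmain f hf' with h1 | ⟨g, hg, φ, hφ, h1⟩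
    · exact Or.inl h1
    · right
      intro z
      rw [val_prod, Finset.prod_eq_zero_iff]
      refine ⟨g, hfin.mem_toFinset.2 hg, ?_⟩
      have h2 := hG3 g hg (φ z)
      obtain ⟨e, he⟩ := hG1 g hg
      rw [← Phi_rep_toProj (TX_PM (hg.2.1 (φ z))), nz_Phi he (toProj (g (φ z))).rep_nonzero,
        not_not] at h2
      rw [h1 z, val_eval]
      exact h2

end Pool.Agent.N154.GG
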