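import Pool.Agent.N154.GG.Rig2
import Pool.Agent.N155.Sep

/-! The entire curves over the identity are finite in number, and doubly periodic. -/

set_option autoImplicit false

open Filter Topology Metric Set

namespace Pool.Agent.N154.GG

open Pool.Agent.Y190.OP Pool.Agent.N155

variable {N : ℕ} {T : Set (Mat N)} {Λ : AddSubgroup ℂ} {a : Mat N → ℂ} {κ : Type}
    {η : κ → (Fin N → ℂ) → (Fin N → ℂ) → (Fin N → ℂ) → ℂ}

theorem sg_add_le (c z : ℂ) : sg (fun z => z + c) z ≤ 1 := by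
  apply sg_le zero_le_one
  intro m
  rw [one_pow]
  unfold cf
  rw [iteratedDeriv_succ']
  have h1 : deriv (fun z : ℂ => z + c) = fun _ => 1 := by
    funext z
    rw [deriv_add_const, deriv_id'']
  rw [h1, iteratedDeriv_const]
  split_ifs with h
  · rw [h]
    simp
  · rw [norm_zero, zero_div]
    exact zero_le_one

/-- the curves over the identity -/
def S0 (T : Set (Mat N)) (Λ : AddSubgroup ℂ) (a : Mat N → ℂ) : Set (ℂ → Mat N) :=
  {g | HolP univ g ∧ (∀ z, g z ∈ T) ∧ Over Λ a g (fun z => z)}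

/-- a curve over a translation of the identity -/
theorem over_shift {P : ℂ → Mat N} {c : ℂ} (hP : HolP univ P) (hT : ∀ z, P z ∈ T)
    (ho : Over Λ a P (fun z => z + c)) : (fun z => P (z - c)) ∈ S0 T Λ a := by
  refine ⟨holP_comp hP (by fun_prop), fun z => hT _, fun z => ?_⟩
  have := ho (z - c)
  simpa using this

/-- **Contraction.** -/
theorem contr (hT : TD T Λ a) (hG : GD T Λ a η) {C : ℝ} (hC0 : 0 < C)
    (hC : ∀ (P : ℂ → Mat N) (φ : ℂ → ℂ), HolP univ P → (∀ z, P z ∈ T) → Differentiable ℂ φ →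
      Over Λ a P φ → ∀ z, ‖fderiv ℝ P z‖ ≤ C * sg φ z) :
    ∃ R δ : ℝ, 0 < R ∧ 0 < δ ∧ ∀ (P Q : ℂ → Mat N) (c : ℂ), HolP univ P → (∀ z, P z ∈ T) →
      Over Λ a P (fun z => z + c) → HolP univ Q → (∀ z, Q z ∈ T) → Over Λ a Q (fun z => z + c) →
      Contr R δ (1 / 2) (fun z => ‖P z - Q z‖) := by
  by_contra hcon
  push Not at hcon
  have hcon' : ∀ m : ℕ, ∃ (P Q : ℂ → Mat N) (c : ℂ), HolP univ P ∧ (∀ z, P z ∈ T) ∧
      Over Λ a P (fun z => z + c) ∧ HolP univ Q ∧ (∀ z, Q z ∈ T) ∧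
      Over Λ a Q (fun z => z + c) ∧ ∃ z0 : ℂ,
      (∀ z ∈ closedBall z0 ((m : ℝ) + 1), ‖P z - Q z‖ ≤ 1 / ((m : ℝ) + 1)) ∧ ∃ b : ℂ,
      ∀ z ∈ closedBall z0 ((m : ℝ) + 1),
        1 / 2 * (‖P z - Q z‖ * ‖Complex.exp (b * (z - z0))‖) < ‖P z0 - Q z0‖ := by
    intro m
    obtain ⟨P, Q, c, h1, h2, h3, h4, h5, h6, h7⟩ := hcon ((m : ℝ) + 1) (1 / ((m : ℝ) + 1))
      (by positivity) (by positivity)
    unfold Contr at h7
    push Not at h7
    obtain ⟨z0, h8, b, h9⟩ := h7
    exact ⟨P, Q, c, h1, h2, h3, h4, h5, h6, z0, h8, b, h9⟩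
  choose P Q c hP PT Po hQ QT Qo z0 hz0 b hb using hcon'
  have hd0 : ∀ m, 0 < ‖P m (z0 m) - Q m (z0 m)‖ := by
    intro m
    have h1 := hb m (z0 m) (mem_closedBall_self (by positivity))
    rw [sub_self, mul_zero, Complex.exp_zero, norm_one, mul_one] at h1
    by_contra h2
    push Not at h2
    have h3 : ‖P m (z0 m) - Q m (z0 m)‖ = 0 := le_antisymm h2 (norm_nonneg _)
    rw [h3] at h1
    norm_num at h1
  choose l hlΛ hl using fun m => hT.coc.choose_spec (z0 m + c m)
  set D := hT.coc.choose with hD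
  set c' : ℕ → ℂ := fun m => z0 m + c m - l m with hc'
  set P' : ℕ → ℂ → Mat N := fun m t => P m (z0 m + t) with hP'
  set Q' : ℕ → ℂ → Mat N := fun m t => Q m (z0 m + t) with hQ'
  have hshift : ∀ {X : ℕ → ℂ → Mat N}, (∀ m, Over Λ a (X m) (fun z => z + c m)) →
      ∀ m, Over Λ a (fun t => X m (z0 m + t)) (fun t => t + c' m) := by
    intro X hX m t
    have h1 := Λ.sub_mem (hX m (z0 m + t)) (hlΛ m)
    have h2 : t + c' m - a (X m (z0 m + t)) = z0 m + t + c m - a (X m (z0 m + t)) - l m := by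
      rw [hc']
      ring
    rw [h2]
    exact h1
  have hPo' := hshift Po
  have hQo' := hshift Qo
  have hPh : ∀ m, HolP univ (P' m) := fun m => holP_shift (hP m) _
  have hQh : ∀ m, HolP univ (Q' m) := fun m => holP_shift (hQ m) _
  have hgrad : ∀ {X : ℕ → ℂ → Mat N}, (∀ m, HolP univ (X m)) → (∀ m t, X m t ∈ T) →
      (∀ m, Over Λ a (X m) (fun t => t + c' m)) → ∀ m z, ‖fderiv ℝ (X m) z‖ ≤ C := by
    intro X h1 h2 h3 m z
    refine (hC (X m) _ (h1 m) (h2 m) (by fun_prop) (h3 m) z).trans ?_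
    have := mul_le_mul_of_nonneg_left (sg_add_le (c' m) z) hC0.le
    rwa [mul_one] at this
  set 𝓤 : Ultrafilter ℕ := hyperfilter ℕ with h𝓤
  obtain ⟨H, hH, hHT, hHc, -⟩ := exists_limit hT.comp hT.sub (𝓤 := 𝓤) (K := C) hPh
    (fun m t => PT m _) (hgrad hPh (fun m t => PT m _) hPo')
  obtain ⟨H', hH', hHT', hHc', -⟩ := exists_limit hT.comp hT.sub (𝓤 := 𝓤) (K := C) hQh
    (fun m t => QT m _) (hgrad hQh (fun m t => QT m _) hQo')
  obtain ⟨c0, hc0⟩ := exists_lim (𝓤 := 𝓤) (h := c') (C := D) (Eventually.of_forall hl)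
  have hHH : H' = H := by
    funext t
    have h1 : Tendsto (fun m => ‖P' m t - Q' m t‖) 𝓤 (𝓝 ‖H t - H' t‖) :=
      ((hHc.pointwise (mem_univ t)).sub (hHc'.pointwise (mem_univ t))).norm
    have h2 : Tendsto (fun m => ‖P' m t - Q' m t‖) 𝓤 (𝓝 0) := by
      rw [Metric.tendsto_nhds]
      intro ε hε
      filter_upwards [hyper_ge (‖t‖ + 1 / ε)] with m hm
      have hm0 : (0 : ℝ) < (m : ℝ) + 1 := by positivity
      have hε' : 0 < 1 / ε := by positivity
      have h3 := hz0 m (z0 m + t) (by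
        rw [mem_closedBall, dist_eq_norm, add_sub_cancel_left]
        linarith)
      rw [dist_zero_right, norm_norm]
      refine lt_of_le_of_lt h3 ?_
      rw [div_lt_comm₀ hm0 hε]
      have := norm_nonneg t
      linarith
    have h3 := tendsto_nhds_unique h1 h2
    exact (sub_eq_zero.1 (norm_eq_zero.1 h3)).symm
  rw [hHH] at hHc'
  have hHo : Over Λ a H (fun t => t + c0) := by
    intro t
    exact hT.lim (l := (𝓤 : Filter ℕ)) (Eventually.of_forall fun m => PT m _)
      (hHc.pointwise (mem_univ t)) (hHT t) (Eventually.of_forall fun m => hPo' m t)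
      (hc0.const_add t)
  have hg := over_shift hH hHT hHo
  have hRD : RD T Λ a 𝓤 (fun z => H (z - c0)) (fun t => t + c0) (C * 1) 2 P' Q'
      (fun m t => t + c' m) (fun m t => Complex.exp (b m * t) / (‖P m (z0 m) - Q m (z0 m)‖ : ℝ)) :=
    { hg := hg.1
      gT := hg.2.1
      gov := hg.2.2
      gB := fun z => by
        refine (hC _ _ hg.1 hg.2.1 differentiable_fun_id hg.2.2 z).trans ?_
        have h1 := sg_add_le 0 z
        simp only [add_zero] at h1
        exact mul_le_mul_of_nonneg_left h1 hC0.le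
      Φd := by fun_prop
      hP := hPh
      PT := fun m t => PT m _
      hQ := hQh
      QT := fun m t => QT m _
      Pov := hPo'
      Qov := hQo'
      wtd := fun m => by fun_prop
      cP := by
        have : (fun z => H (z + c0 - c0)) = H := by
          funext z
          rw [add_sub_cancel_right]
        change CConv (𝓤 : Filter ℕ) univ P' (fun z => H (z + c0 - c0))
        rw [this]
        exact hHc
      cQ := by
        have : (fun z => H (z + c0 - c0)) = H := by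
          funext z
          rw [add_sub_cancel_right]
        change CConv (𝓤 : Filter ℕ) univ Q' (fun z => H (z + c0 - c0))
        rw [this]
        exact hHc'
      bd := fun L => by
        filter_upwards [hyper_ge L] with m hm t ht
        rw [mem_closedBall_zero_iff] at ht
        have h1 := hb m (z0 m + t) (by
          rw [mem_closedBall, dist_eq_norm, add_sub_cancel_left]
          linarith)
        rw [add_sub_cancel_left] at h1
        rw [norm_div, Complex.norm_real, norm_norm, ← mul_div_assoc, div_le_iff₀ (hd0 m),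
          norm_sub_rev]
        change ‖P m (z0 m + t) - Q m (z0 m + t)‖ * _ ≤ _
        linarith }
  have h1 := rigid hT hG hRD (by
    refine Eventually.of_forall fun m => ?_
    rw [mul_zero, Complex.exp_zero, norm_div, Complex.norm_real, norm_norm, norm_one,
      norm_sub_rev]
    change 1 ≤ ‖P m (z0 m + 0) - Q m (z0 m + 0)‖ * _
    rw [add_zero, mul_one_div, div_self (hd0 m).ne']) 1
  simp at h1

/-- **Finiteness** -/
theorem S0_finite (hT : TD T Λ a) (hf : Fib T Λ a) (hG : GD T Λ a η) : (S0 T Λ a).Finite := by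
  obtain ⟨C, hC0, hC⟩ := gradient hT hf
  obtain ⟨R, δ, hR, hδ, hc⟩ := contr hT hG hC0 hC
  have hgB : ∀ g ∈ S0 T Λ a, ∀ z, ‖fderiv ℝ g z‖ ≤ C := by
    intro g hg z
    refine (hC _ _ hg.1 hg.2.1 differentiable_fun_id hg.2.2 z).trans ?_
    have h1 := sg_add_le 0 z
    simp only [add_zero] at h1
    have := mul_le_mul_of_nonneg_left h1 hC0.le
    rwa [mul_one] at this
  by_contra hinf
  have hinf' : (S0 T Λ a).Infinite := hinf
  set g : ℕ → ℂ → Mat N := fun n => (hinf'.natEmbedding (S0 T Λ a) n : ℂ → Mat N) with hg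
  have hgm : ∀ n, g n ∈ S0 T Λ a := fun n => (hinf'.natEmbedding (S0 T Λ a) n).2
  have hinj : Function.Injective g := fun m n h =>
    (hinf'.natEmbedding (S0 T Λ a)).injective (Subtype.ext h)
  set 𝓤 : Ultrafilter ℕ := hyperfilter ℕ with h𝓤
  obtain ⟨H, hH, hHT, hHc, -⟩ := exists_limit hT.comp hT.sub (𝓤 := 𝓤) (K := C)
    (fun n => (hgm n).1) (fun n => (hgm n).2.1) (fun n => hgB _ (hgm n))
  have hHo : Over Λ a H (fun t => t) := by
    intro t
    exact hT.lim (l := (𝓤 : Filter ℕ)) (Eventually.of_forall fun n => (hgm n).2.1 t)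
      (hHc.pointwise (mem_univ t)) (hHT t) (Eventually.of_forall fun n => (hgm n).2.2 t)
      tendsto_const_nhds
  have hHS : H ∈ S0 T Λ a := ⟨hH, hHT, hHo⟩
  have h0 : ∀ {X : ℂ → Mat N}, X ∈ S0 T Λ a → Over Λ a X (fun z => z + 0) := by
    intro X hX z
    have := hX.2.2 z
    change z + 0 - a (X z) ∈ Λ
    rw [add_zero]
    exact this
  have h1 := separation hT.comp hT.sub (K := C) (R := R) (δ := δ) (θ := 1 / 2) hR hδ
    (by norm_num) (by norm_num) (φ := g) (ψ := fun _ => H) (𝓤 := 𝓤)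
    (fun n => (hgm n).1) (fun n => (hgm n).2.1) (fun n => hgB _ (hgm n))
    (fun _ => hH) (fun _ => hHT) (fun _ => hgB _ hHS)
    (fun n => hc (g n) H 0 (hgm n).1 (hgm n).2.1 (h0 (hgm n)) hH hHT (h0 hHS))
    (H := H) hHc (fun z _ => by
      have h2 : ContinuousAt H z := hH.continuousAt (mem_univ z)
      exact h2.tendsto.comp tendsto_snd)
  have h2 : {n | ∀ z, g n z = H z}.Subsingleton := by
    intro m hm n hn
    apply hinj
    funext z
    rw [hm z, hn z]
  have h3 : {n | ∀ z, g n z = H z} ∉ (𝓤 : Filter ℕ) := notMem_hyperfilter_of_finite h2.finite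
  exact h3 h1

theorem S0_shift {g : ℂ → Mat N} (hg : g ∈ S0 T Λ a) {l : ℂ} (hl : l ∈ Λ) :
    (fun z => g (z + l)) ∈ S0 T Λ a := by
  refine ⟨holP_comp hg.1 (by fun_prop), fun z => hg.2.1 _, fun z => ?_⟩
  have := Λ.sub_mem (hg.2.2 (z + l)) hl
  have e : z - a (g (z + l)) = z + l - a (g (z + l)) - l := by ring
  rw [e]
  exact this

/-- translations permute the curves over the identity -/
theorem S0_perm {l : ℂ} (hl : l ∈ Λ) :
    ∃ σ : Equiv.Perm (S0 T Λ a), ∀ g z, (σ g : ℂ → Mat N) z = (g : ℂ → Mat N) (z + l) := by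
  refine ⟨⟨fun g => ⟨fun z => (g : ℂ → Mat N) (z + l), S0_shift g.2 hl⟩,
    fun g => ⟨fun z => (g : ℂ → Mat N) (z + -l), S0_shift g.2 (Λ.neg_mem hl)⟩,
    fun g => ?_, fun g => ?_⟩, fun g z => rfl⟩
  · apply Subtype.ext
    funext z
    simp
  · apply Subtype.ext
    funext z
    simp

/-- a common period -/
theorem S0_period (hfin : (S0 T Λ a).Finite) : ∃ k : ℕ, 0 < k ∧ ∀ g ∈ S0 T Λ a, ∀ l ∈ Λ, ∀ z,
    g (z + k * l) = g z := by
  classical
  have : Fintype (S0 T Λ a) := hfin.fintype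
  refine ⟨Fintype.card (Equiv.Perm (S0 T Λ a)), Fintype.card_pos, fun g hg l hl z => ?_⟩
  obtain ⟨σ, hσ⟩ := S0_perm hl
  have h1 : ∀ (n : ℕ) (g : S0 T Λ a) (z : ℂ), ((σ ^ n) g : ℂ → Mat N) z =
      (g : ℂ → Mat N) (z + n * l) := by
    intro n
    induction n with
    | zero => intro g z; simp
    | succ n ih =>
      intro g z
      rw [pow_succ, Equiv.Perm.mul_apply, ih, hσ]
      have e : z + n * l + l = z + ((n + 1 : ℕ) : ℂ) * l := by
        push_cast
        ring
      rw [e]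
  have h2 := h1 (Fintype.card (Equiv.Perm (S0 T Λ a))) ⟨g, hg⟩ z
  rw [pow_card_eq_one] at h2
  exact h2.symm

end Pool.Agent.N154.GG
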