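import Pool.Agent.N154.GG.Geo
import Pool.Agent.N154.GG.Fi

/-! Holomorphic maps to projective space and to matrices. -/

set_option autoImplicit false

open Filter Topology Metric Set LinearAlgebra.Projectivization

namespace Pool.Agent.N154.GG

open FF Pool.Agent.Y190.OP Pool.Agent.W602.GT
open Pool.Agent.N155 (TX isCompact_TX TX_PM exists_shift)

variable {n : ℕ} {ι : Type} {F : ι → MvPolynomial (Fin (n + 1)) ℂ} {d : ℕ} {K : Type} [Field K]
  [Algebra ℂ K] {y : Fin (n + 1) → K} {L : PeriodPair} {α : (Fin (n + 1) → ℂ) → ℂ ⧸ L.lattice}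
  {κ : Type} {η : κ → (Fin (n + 1) → ℂ) → (Fin (n + 1) → ℂ) → (Fin (n + 1) → ℂ) → ℂ}

theorem ones_ne : (fun _ : Fin (n + 1) => (1 : ℂ)) ≠ 0 := fun h =>
  one_ne_zero (congrFun h 0)

/-- the point of projective space -/
noncomputable def toProj (M : Mat (n + 1)) : ℙ ℂ (Fin (n + 1) → ℂ) := by
  classical
  exact if h : ∃ u : Fin (n + 1) → ℂ, u ≠ 0 ∧ M = Phi u then
    Projectivization.mk ℂ h.choose h.choose_spec.1 else Projectivization.mk ℂ _ ones_ne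

theorem toProj_Phi {u : Fin (n + 1) → ℂ} (hu : u ≠ 0) :
    toProj (Phi u) = Projectivization.mk ℂ u hu := by
  classical
  have h : ∃ v : Fin (n + 1) → ℂ, v ≠ 0 ∧ Phi u = Phi v := ⟨u, hu, rfl⟩
  unfold toProj
  rw [dif_pos h, Projectivization.mk_eq_mk_iff']
  obtain ⟨c, hc, hc'⟩ := Phi_inj hu h.choose_spec.1 h.choose_spec.2
  exact ⟨c, hc'.symm⟩

theorem Phi_rep_mk {u : Fin (n + 1) → ℂ} (hu : u ≠ 0) :
    Phi (Projectivization.mk ℂ u hu).rep = Phi u := by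
  obtain ⟨c, hc⟩ := Projectivization.exists_smul_eq_mk_rep ℂ u hu
  rw [← hc]
  exact Phi_smul c.ne_zero u

theorem Phi_rep_toProj {M : Mat (n + 1)} (hM : M ∈ PM) : Phi (toProj M).rep = M := by
  obtain ⟨u, hu, rfl⟩ := hM
  rw [toProj_Phi hu, Phi_rep_mk]

theorem proj_ext {p q : ℙ ℂ (Fin (n + 1) → ℂ)} (h : Phi p.rep = Phi q.rep) : p = q := by
  obtain ⟨c, hc, hc'⟩ := Phi_inj p.rep_nonzero q.rep_nonzero h
  rw [← p.mk_rep, ← q.mk_rep, Projectivization.mk_eq_mk_iff']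
  exact ⟨c⁻¹, by rw [hc', smul_smul, inv_mul_cancel₀ hc, one_smul]⟩

theorem holMap_of {P : ℂ → Mat (n + 1)} (hP : HolP univ P) : HolMap fun z => toProj (P z) := by
  intro z
  obtain ⟨V, G, hV, hzV, hd, hF⟩ := hP z (mem_univ z)
  refine ⟨V, G, hV, hzV, hd, fun w hw => ?_⟩
  obtain ⟨h1, h2⟩ := hF w hw
  exact ⟨h1, by
    change toProj (P w) = _
    rw [h2, toProj_Phi h1]⟩

theorem holP_of {f : ℂ → ℙ ℂ (Fin (n + 1) → ℂ)} (hf : HolMap f) :
    HolP univ fun z => Phi (f z).rep := by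
  intro z _
  obtain ⟨V, g, hV, hzV, hg, hfg⟩ := hf z
  refine ⟨V, g, hV, hzV, hg, fun w hw => ?_⟩
  obtain ⟨h0, he⟩ := hfg w hw
  refine ⟨h0, ?_⟩
  change Phi (f w).rep = Phi (g w)
  rw [he, Phi_rep_mk]

theorem mem_TX (hX : SmoothVariety F d y) {p : ℙ ℂ (Fin (n + 1) → ℂ)} (hp : p.rep ∈ Cone F) :
    Phi p.rep ∈ TX y := by
  rw [TX_cone hX]
  exact ⟨_, hp, rfl⟩

theorem rep_toProj (hX : SmoothVariety F d y) {M : Mat (n + 1)} (hM : M ∈ TX y) :
    (toProj M).rep ∈ Cone F := by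
  rw [TX_cone hX] at hM
  obtain ⟨u, hu, rfl⟩ := hM
  rw [toProj_Phi hu.1]
  obtain ⟨c, hc⟩ := Projectivization.exists_smul_eq_mk_rep ℂ u hu.1
  rw [← hc]
  exact cone_smul hX hu c.ne_zero

theorem aM_rep (hX : SmoothVariety F d y) (hα : HolToTorus (Cone F) L α) {M : Mat (n + 1)}
    (hM : M ∈ TX y) :
    (Submodule.Quotient.mk (aM L α F M) : ℂ ⧸ L.lattice) = α (toProj M).rep := by
  have h1 := aM_Phi hα (rep_toProj hX hM)
  rwa [Phi_rep_toProj (TX_PM hM)] at h1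

theorem fib_of (hX : SmoothVariety F d y) (hα : HolToTorus (Cone F) L α)
    (hfib : HyperbolicFibres F α) : Fib (TX y) (La L) (aM L α F) := by
  intro P c hP hPT ho z
  have h1 := hfib (fun z => toProj (P z)) ⟨holMap_of hP, fun z => rep_toProj hX (hPT z)⟩ (by
    intro z w
    rw [← aM_rep hX hα (hPT z), ← aM_rep hX hα (hPT w)]
    rw [← mem_La_iff.1 (ho z), ← mem_La_iff.1 (ho w)]) z 0
  have h2 := congrArg (fun p : ℙ ℂ (Fin (n + 1) → ℂ) => Phi p.rep) h1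
  change Phi (toProj (P z)).rep = Phi (toProj (P 0)).rep at h2
  rwa [Phi_rep_toProj (TX_PM (hPT z)), Phi_rep_toProj (TX_PM (hPT 0))] at h2

/-- the curves over the identity, as maps to projective space -/
theorem S0_iff (hX : SmoothVariety F d y) (hα : HolToTorus (Cone F) L α) {P : ℂ → Mat (n + 1)}
    (hP : P ∈ S0 (TX y) (La L) (aM L α F)) : HolIn F (fun z => toProj (P z)) ∧
      ∀ z, α (toProj (P z)).rep = Submodule.Quotient.mk z :=
  ⟨⟨holMap_of hP.1, fun z => rep_toProj hX (hP.2.1 z)⟩, fun z => by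
    rw [← aM_rep hX hα (hP.2.1 z)]
    exact (mem_La_iff.1 (hP.2.2 z)).symm⟩

end Pool.Agent.N154.GG
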