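import Pool.Agent.N154.GG.Lim

/-! The derivatives of the curves are bounded by the scale of the functions below. -/

set_option autoImplicit false

open Filter Topology Metric Set

namespace Pool.Agent.N154.GG

open Pool.Agent.Y190.OP Pool.Agent.N155

variable {N : ℕ} {T : Set (Mat N)} {Λ : AddSubgroup ℂ} {a : Mat N → ℂ}

theorem aff_eq (z0 : ℂ) (μ : ℝ) (t : ℂ) : aff z0 μ t = z0 + (μ : ℂ) * t := rfl

theorem deriv_aff {φ : ℂ → ℂ} (hφ : Differentiable ℂ φ) (z0 : ℂ) (μ : ℝ) (l t : ℂ) :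
    deriv (fun t => φ (aff z0 μ t) - l) t = μ * deriv φ (aff z0 μ t) := by
  have h1 : HasDerivAt (aff z0 μ) (μ : ℂ) t := by
    have := ((hasDerivAt_id t).const_mul (μ : ℂ)).const_add z0
    rw [mul_one] at this
    exact this
  have h2 := ((hφ (aff z0 μ t)).hasDerivAt.comp t h1).sub_const l
  have h3 : deriv (fun t => φ (aff z0 μ t) - l) t = deriv φ (aff z0 μ t) * μ := h2.deriv
  rw [h3, mul_comm]

theorem fderiv_cont {P : ℂ → Mat N} (hP : HolP univ P) : Continuous (fderiv ℝ P) :=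
  continuous_iff_continuousAt.2 fun _ => hP.continuousAt_fderiv (mem_univ _)

/-- **Gradient estimate** -/
theorem gradient (h : TD T Λ a) (hf : Fib T Λ a) : ∃ C : ℝ, 0 < C ∧ ∀ (P : ℂ → Mat N) (φ : ℂ → ℂ),
    HolP univ P → (∀ z, P z ∈ T) → Differentiable ℂ φ → Over Λ a P φ →
    ∀ z, ‖fderiv ℝ P z‖ ≤ C * sg φ z := by
  by_contra hcon
  push Not at hcon
  have hcon' : ∀ n : ℕ, ∃ (P : ℂ → Mat N) (φ : ℂ → ℂ), HolP univ P ∧ (∀ z, P z ∈ T) ∧
      Differentiable ℂ φ ∧ Over Λ a P φ ∧ ∃ z, ((n : ℝ) + 1) * sg φ z < ‖fderiv ℝ P z‖ := by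
    intro n
    obtain ⟨P, φ, h1, h2, h3, h4, h5⟩ := hcon ((n : ℝ) + 1) (by positivity)
    exact ⟨P, φ, h1, h2, h3, h4, h5⟩
  choose P φ hP hPT hφ hov z0 hz0 using hcon'
  have hpos : ∀ n, 0 < ‖fderiv ℝ (P n) (z0 n)‖ := fun n =>
    (mul_nonneg (by positivity) (sg_nonneg (hφ n) _)).trans_lt (hz0 n)
  have hdb : ∀ n : ℕ, ∃ z, ‖fderiv ℝ (P n) (z0 n)‖ ≤ ‖fderiv ℝ (P n) z‖ ∧
      ‖z - z0 n‖ * ‖fderiv ℝ (P n) (z0 n)‖ ≤ ((n : ℝ) + 1) / 12 * 2 ∧
      ∀ w, ‖w - z‖ * ‖fderiv ℝ (P n) z‖ ≤ ((n : ℝ) + 1) / 12 →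
        ‖fderiv ℝ (P n) w‖ ≤ 2 * ‖fderiv ℝ (P n) z‖ := by
    intro n
    have hc := (fderiv_cont (hP n)).norm
    obtain ⟨z, e1, e2, e3⟩ := doubling (f := fun z => ‖fderiv ℝ (P n) z‖)
      (s := fun z => ‖fderiv ℝ (P n) z‖) (fun _ => le_rfl) (by
        intro z
        refine ⟨closedBall z 1, closedBall_mem_nhds z one_pos, ?_⟩
        exact (isCompact_closedBall z 1).bddAbove_image hc.continuousOn)
      (κ := 2) (A := ((n : ℝ) + 1) / 12) (by norm_num) (by positivity) (hpos n)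
    refine ⟨z, e1, ?_, e3⟩
    norm_num at e2 ⊢
    exact e2
  choose z1 h1 h2 h3 using hdb
  set μ : ℕ → ℝ := fun n => ‖fderiv ℝ (P n) (z1 n)‖ with hμ
  have hμpos : ∀ n, 0 < μ n := fun n => (hpos n).trans_le (h1 n)
  choose l hlΛ hl using fun n => h.coc.choose_spec (φ n (z1 n))
  set H : ℕ → ℂ → Mat N := fun n t => P n (aff (z1 n) (μ n)⁻¹ t) with hH
  set Φ : ℕ → ℂ → ℂ := fun n t => φ n (aff (z1 n) (μ n)⁻¹ t) - l n with hΦ
  have hHol : ∀ n, HolP univ (H n) := fun n => holP_comp (hP n) (aff_diff _ _)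
  have hnorm : ∀ n t, ‖fderiv ℝ (H n) t‖ = (μ n)⁻¹ * ‖fderiv ℝ (P n) (aff (z1 n) (μ n)⁻¹ t)‖ :=
    fun n t => norm_fderiv_aff (inv_nonneg.2 (hμpos n).le) ((hP n).differentiableAt (mem_univ _))
  have hdist : ∀ n t, ‖aff (z1 n) (μ n)⁻¹ t - z1 n‖ * μ n = ‖t‖ := by
    intro n t
    rw [aff_eq, add_sub_cancel_left, norm_mul, Complex.norm_real,
      Real.norm_of_nonneg (inv_nonneg.2 (hμpos n).le)]
    have := (hμpos n).ne'
    field_simp
  have hball : ∀ (n : ℕ) (t : ℂ), ‖t‖ ≤ ((n : ℝ) + 1) / 12 → ‖fderiv ℝ (H n) t‖ ≤ 2 ∧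
      ‖deriv (Φ n) t‖ ≤ 4 / ((n : ℝ) + 1) := by
    intro n t ht
    have hn : (0 : ℝ) < (n : ℝ) + 1 := by positivity
    have hd := hdist n t
    constructor
    · rw [hnorm]
      have e1 := h3 n (aff (z1 n) (μ n)⁻¹ t) (by
        change ‖aff (z1 n) (μ n)⁻¹ t - z1 n‖ * μ n ≤ _
        rw [hd]
        exact ht)
      calc (μ n)⁻¹ * ‖fderiv ℝ (P n) (aff (z1 n) (μ n)⁻¹ t)‖ ≤ (μ n)⁻¹ * (2 * μ n) :=
            mul_le_mul_of_nonneg_left e1 (inv_nonneg.2 (hμpos n).le)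
        _ = 2 := by
            have := (hμpos n).ne'
            field_simp
    · change ‖deriv (fun t => φ n (aff (z1 n) (μ n)⁻¹ t) - l n) t‖ ≤ _
      rw [deriv_aff (hφ n), norm_mul, Complex.norm_real,
        Real.norm_of_nonneg (inv_nonneg.2 (hμpos n).le)]
      have hs0 := sg_nonneg (hφ n) (z0 n)
      set ζ := aff (z1 n) (μ n)⁻¹ t with hζ
      have e1 : ‖ζ - z0 n‖ * ‖fderiv ℝ (P n) (z0 n)‖ ≤ ((n : ℝ) + 1) / 4 := by
        have e2 : ‖ζ - z0 n‖ ≤ ‖ζ - z1 n‖ + ‖z1 n - z0 n‖ := by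
          have := norm_add_le (ζ - z1 n) (z1 n - z0 n)
          rwa [sub_add_sub_cancel] at this
        have e3 : ‖ζ - z1 n‖ * ‖fderiv ℝ (P n) (z0 n)‖ ≤ ((n : ℝ) + 1) / 12 := by
          refine (mul_le_mul_of_nonneg_left (h1 n) (norm_nonneg _)).trans ?_
          change ‖ζ - z1 n‖ * μ n ≤ _
          rw [hd]
          exact ht
        calc ‖ζ - z0 n‖ * ‖fderiv ℝ (P n) (z0 n)‖ ≤
              (‖ζ - z1 n‖ + ‖z1 n - z0 n‖) * ‖fderiv ℝ (P n) (z0 n)‖ :=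
              mul_le_mul_of_nonneg_right e2 (hpos n).le
          _ = ‖ζ - z1 n‖ * ‖fderiv ℝ (P n) (z0 n)‖ + ‖z1 n - z0 n‖ * ‖fderiv ℝ (P n) (z0 n)‖ := by
              ring
          _ ≤ ((n : ℝ) + 1) / 12 + ((n : ℝ) + 1) / 12 * 2 := add_le_add e3 (h2 n)
          _ = ((n : ℝ) + 1) / 4 := by ring
      have e2 : 4 * ‖ζ - z0 n‖ * sg (φ n) (z0 n) ≤ 1 := by
        have e3 : ‖ζ - z0 n‖ * (((n : ℝ) + 1) * sg (φ n) (z0 n)) ≤ ((n : ℝ) + 1) / 4 :=
          (mul_le_mul_of_nonneg_left (hz0 n).le (norm_nonneg _)).trans e1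
        have e4 : ((n : ℝ) + 1) * (4 * ‖ζ - z0 n‖ * sg (φ n) (z0 n)) ≤ ((n : ℝ) + 1) * 1 := by
          linarith
        exact le_of_mul_le_mul_left e4 hn
      have e3 := (deriv_le_sg (hφ n) ζ).trans (sg_harnack (hφ n) e2)
      have e4 : ((n : ℝ) + 1) * sg (φ n) (z0 n) ≤ μ n := (hz0 n).le.trans (h1 n)
      calc (μ n)⁻¹ * ‖deriv (φ n) ζ‖ ≤ (μ n)⁻¹ * (4 * sg (φ n) (z0 n)) :=
            mul_le_mul_of_nonneg_left e3 (inv_nonneg.2 (hμpos n).le)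
        _ ≤ 4 / ((n : ℝ) + 1) := by
            rw [inv_mul_le_iff₀ (hμpos n), mul_div_assoc', le_div_iff₀ hn]
            nlinarith
  set 𝓤 : Ultrafilter ℕ := hyperfilter ℕ with h𝓤
  have hge : ∀ L : ℝ, ∀ᶠ n : ℕ in (𝓤 : Filter ℕ), L ≤ ((n : ℝ) + 1) / 12 := by
    intro L
    filter_upwards [hyper_ge (12 * L)] with n hn
    linarith
  obtain ⟨G, hG, hGT, hGc, hGd⟩ := exists_limit_loc h.comp h.sub (𝓤 := 𝓤) hHol
    (fun n t => hPT n _) (by
      intro L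
      refine ⟨2, ?_⟩
      filter_upwards [hge L] with n hn z hz
      exact (hball n z ((mem_ball_zero_iff.1 hz).le.trans hn)).1)
  have hΦd : ∀ n, Differentiable ℂ (Φ n) := fun n =>
    ((hφ n).comp (aff_diff _ _)).sub_const _
  obtain ⟨Ψ, hΨ, hΨc, hΨd⟩ := exists_limit_fun (𝓤 := 𝓤) hΦd (by
      refine ⟨h.coc.choose, Eventually.of_forall fun n => ?_⟩
      have : Φ n 0 = φ n (z1 n) - l n := by
        rw [hΦ]
        simp [aff]
      rw [this]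
      exact hl n) (by
      intro L
      refine ⟨4, ?_⟩
      filter_upwards [hge L] with n hn z hz
      refine (hball n z ((mem_ball_zero_iff.1 hz).le.trans hn)).2.trans ?_
      rw [div_le_iff₀ (by positivity)]
      have : (0 : ℝ) ≤ n := Nat.cast_nonneg n
      linarith)
  have hΨ0 : ∀ z, deriv Ψ z = 0 := by
    intro z
    have e1 : Tendsto (fun n : ℕ => ‖deriv (Φ n) z‖) 𝓤 (𝓝 0) := by
      have e2 : Tendsto (fun n : ℕ => 4 / ((n : ℝ) + 1)) 𝓤 (𝓝 0) := by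
        have e3 : Tendsto (fun n : ℕ => 4 / ((n : ℝ) + 1)) atTop (𝓝 0) := by
          have := (tendsto_one_div_add_atTop_nhds_zero_nat (𝕜 := ℝ)).const_mul 4
          rw [mul_zero] at this
          refine this.congr fun n => ?_
          rw [mul_one_div]
        refine e3.mono_left ?_
        rw [← Nat.cofinite_eq_atTop]
        exact hyperfilter_le_cofinite
      refine squeeze_zero' (Eventually.of_forall fun _ => norm_nonneg _) ?_ e2
      filter_upwards [hge ‖z‖] with n hn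
      exact (hball n z hn).2
    exact norm_eq_zero.1 (tendsto_nhds_unique (hΨd z).norm e1)
  have hΨc' : ∀ z, Ψ z = Ψ 0 := fun z => is_const_of_deriv_eq_zero hΨ hΨ0 z 0
  have hover : Over Λ a G (fun _ => Ψ 0) := by
    intro z
    rw [← hΨc' z]
    refine h.lim (l := (𝓤 : Filter ℕ)) (Eventually.of_forall fun n => hPT n _)
      (hGc.pointwise (mem_univ z)) (hGT z) (Eventually.of_forall fun n => ?_)
      (hΨc.pointwise (mem_univ z))
    have e1 := hov n (aff (z1 n) (μ n)⁻¹ z)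
    have e2 := Λ.sub_mem e1 (hlΛ n)
    have e3 : Φ n z - a (H n z) = φ n (aff (z1 n) (μ n)⁻¹ z) -
        a (P n (aff (z1 n) (μ n)⁻¹ z)) - l n := by
      rw [hΦ, hH]
      ring
    rw [e3]
    exact e2
  have hconst := hf G (Ψ 0) hG hGT hover
  have e1 : fderiv ℝ G 0 = 0 := by
    have : G = fun _ => G 0 := funext hconst
    rw [this]
    simp
  have e2 := (hGd 0).norm
  rw [e1, norm_zero] at e2
  have e3 : ∀ n, ‖fderiv ℝ (H n) 0‖ = 1 := by
    intro n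
    rw [hnorm]
    have : aff (z1 n) (μ n)⁻¹ 0 = z1 n := by simp [aff]
    rw [this]
    exact inv_mul_cancel₀ (hμpos n).ne'
  simp only [e3] at e2
  exact zero_ne_one (tendsto_nhds_unique e2 tendsto_const_nhds)

end Pool.Agent.N154.GG
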