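import Mathlib

/-! The doubling lemma. -/

set_option autoImplicit false

open Filter Topology Metric Set

namespace Pool.Agent.N154.GG

/-- **Doubling lemma** -/
theorem doubling {f s : ℂ → ℝ} (hfs : ∀ z, f z ≤ s z) (hloc : ∀ z, ∃ V ∈ 𝓝 z, BddAbove (f '' V))
    {κ A : ℝ} (hκ : 1 < κ) (hA : 0 ≤ A) {z0 : ℂ} (h0 : 0 < f z0) :
    ∃ z, f z0 ≤ f z ∧ ‖z - z0‖ * f z0 ≤ A * (κ / (κ - 1)) ∧
      ∀ w, ‖w - z‖ * s z ≤ A → f w ≤ κ * f z := by
  classical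
  by_contra hcon
  push Not at hcon
  have hκ0 : 0 < κ := by linarith
  have hκ1 : 0 < κ - 1 := by linarith
  have hstep : ∀ z, ∃ w, (f z0 ≤ f z → ‖z - z0‖ * f z0 ≤ A * (κ / (κ - 1)) →
      ‖w - z‖ * s z ≤ A ∧ κ * f z < f w) := by
    intro z
    by_cases h1 : f z0 ≤ f z ∧ ‖z - z0‖ * f z0 ≤ A * (κ / (κ - 1))
    · obtain ⟨w, hw⟩ := hcon z h1.1 h1.2
      exact ⟨w, fun _ _ => hw⟩
    · exact ⟨0, fun h2 h3 => absurd ⟨h2, h3⟩ h1⟩
  choose g hg using hstep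
  set Z : ℕ → ℂ := fun n => g^[n] z0 with hZ
  have hZs : ∀ n, Z (n + 1) = g (Z n) := fun n => Function.iterate_succ_apply' g n z0
  have hinv : ∀ n, κ ^ n * f z0 ≤ f (Z n) ∧
      ‖Z n - z0‖ * f z0 ≤ A * (κ / (κ - 1)) * (1 - (κ⁻¹) ^ n) := by
    intro n
    induction n with
    | zero =>
      constructor
      · simp [hZ]
      · simp [hZ]
    | succ n ih =>
      obtain ⟨ih1, ih2⟩ := ih
      have hp : 1 ≤ κ ^ n := one_le_pow₀ hκ.le
      have e1 : f z0 ≤ f (Z n) := le_trans (by nlinarith) ih1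
      have hq : 0 ≤ (κ⁻¹) ^ n := by positivity
      have e2 : ‖Z n - z0‖ * f z0 ≤ A * (κ / (κ - 1)) := by
        refine ih2.trans ?_
        have : 0 ≤ A * (κ / (κ - 1)) := by positivity
        nlinarith
      obtain ⟨h1, h2⟩ := hg (Z n) e1 e2
      rw [hZs]
      constructor
      · have : κ * (κ ^ n * f z0) ≤ κ * f (Z n) := mul_le_mul_of_nonneg_left ih1 hκ0.le
        calc κ ^ (n + 1) * f z0 = κ * (κ ^ n * f z0) := by ring
          _ ≤ κ * f (Z n) := this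
          _ ≤ _ := h2.le
      · have h3 : ‖g (Z n) - Z n‖ * f z0 ≤ A * (κ⁻¹) ^ n := by
          have h4 : ‖g (Z n) - Z n‖ * (κ ^ n * f z0) ≤ A :=
            (mul_le_mul_of_nonneg_left (ih1.trans (hfs _)) (norm_nonneg _)).trans h1
          have h5 : ‖g (Z n) - Z n‖ * f z0 = ‖g (Z n) - Z n‖ * (κ ^ n * f z0) * (κ⁻¹) ^ n := by
            rw [inv_pow]
            field_simp
          rw [h5]
          exact mul_le_mul_of_nonneg_right h4 hq
        have h4 : ‖g (Z n) - z0‖ ≤ ‖g (Z n) - Z n‖ + ‖Z n - z0‖ := by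
          have := norm_add_le (g (Z n) - Z n) (Z n - z0)
          rwa [sub_add_sub_cancel] at this
        calc ‖g (Z n) - z0‖ * f z0 ≤ (‖g (Z n) - Z n‖ + ‖Z n - z0‖) * f z0 :=
              mul_le_mul_of_nonneg_right h4 h0.le
          _ = ‖g (Z n) - Z n‖ * f z0 + ‖Z n - z0‖ * f z0 := by ring
          _ ≤ A * (κ⁻¹) ^ n + A * (κ / (κ - 1)) * (1 - (κ⁻¹) ^ n) := add_le_add h3 ih2
          _ = A * (κ / (κ - 1)) * (1 - (κ⁻¹) ^ (n + 1)) := by
            rw [pow_succ]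
            field_simp
            ring
  have hgood : ∀ n, f z0 ≤ f (Z n) ∧ ‖Z n - z0‖ * f z0 ≤ A * (κ / (κ - 1)) := by
    intro n
    obtain ⟨h1, h2⟩ := hinv n
    have hp : 1 ≤ κ ^ n := one_le_pow₀ hκ.le
    have hq : 0 ≤ (κ⁻¹) ^ n := by positivity
    refine ⟨le_trans (by nlinarith) h1, h2.trans ?_⟩
    have : 0 ≤ A * (κ / (κ - 1)) := by positivity
    nlinarith
  have hdist : ∀ n, dist (Z n) (Z (n + 1)) ≤ A / f z0 * (κ⁻¹) ^ n := by
    intro n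
    obtain ⟨h1, -⟩ := hg (Z n) (hgood n).1 (hgood n).2
    have ih1 := (hinv n).1
    rw [dist_comm, dist_eq_norm, hZs]
    have h4 : ‖g (Z n) - Z n‖ * (κ ^ n * f z0) ≤ A :=
      (mul_le_mul_of_nonneg_left (ih1.trans (hfs _)) (norm_nonneg _)).trans h1
    rw [inv_pow, ← div_eq_mul_inv, div_div, le_div_iff₀ (by positivity)]
    calc ‖g (Z n) - Z n‖ * (f z0 * κ ^ n) = ‖g (Z n) - Z n‖ * (κ ^ n * f z0) := by ring
      _ ≤ A := h4
  have hκi : κ⁻¹ < 1 := inv_lt_one_of_one_lt₀ hκ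
  obtain ⟨z, hz⟩ := cauchySeq_tendsto_of_complete (cauchySeq_of_le_geometric (κ⁻¹) (A / f z0) hκi
    hdist)
  obtain ⟨V, hV, C, hC⟩ := hloc z
  have h1 : ∀ᶠ n in atTop, Z n ∈ V := hz.eventually hV
  have h2 : Tendsto (fun n => κ ^ n * f z0) atTop atTop :=
    (tendsto_pow_atTop_atTop_of_one_lt hκ).atTop_mul_const h0
  obtain ⟨n, hn1, hn2⟩ := (h1.and (h2.eventually_gt_atTop C)).exists
  have h3 := hC ⟨Z n, hn1, rfl⟩
  linarith [(hinv n).1]

end Pool.Agent.N154.GG
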