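import Mathlib

/-! The scale of an entire function: the supremum of the roots of its Taylor coefficients. -/

set_option autoImplicit false

open Filter Topology Metric Set

namespace Pool.Agent.N154.GG

/-- the absolute values of the Taylor coefficients -/
noncomputable def cf (φ : ℂ → ℂ) (m : ℕ) (z : ℂ) : ℝ := ‖iteratedDeriv m φ z‖ / m.factorial

/-- the scale -/
noncomputable def sg (φ : ℂ → ℂ) (z : ℂ) : ℝ :=
  ⨆ m : ℕ, (cf φ (m + 1) z) ^ (((m + 1 : ℕ) : ℝ)⁻¹)

variable {φ : ℂ → ℂ}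

theorem cf_nonneg (m : ℕ) (z : ℂ) : 0 ≤ cf φ m z := by
  unfold cf
  positivity

theorem cf_le (hφ : Differentiable ℂ φ) {z c : ℂ} {R C : ℝ} (hR : 0 < R)
    (h : ∀ w ∈ sphere z R, ‖φ w - c‖ ≤ C) (m : ℕ) : cf φ (m + 1) z ≤ C / R ^ (m + 1) := by
  have h1 : iteratedDeriv (m + 1) φ z = iteratedDeriv (m + 1) (fun w => φ w - c) z := by
    rw [iteratedDeriv_succ', iteratedDeriv_succ']
    congr 1
    funext w
    rw [deriv_sub_const]
  have h2 := Complex.norm_iteratedDeriv_le_of_forall_mem_sphere_norm_le (m + 1) hR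
    ((hφ.sub_const c).diffContOnCl (s := ball z R)) h
  rw [← h1] at h2
  unfold cf
  rw [div_le_iff₀ (by positivity)]
  refine h2.trans (le_of_eq ?_)
  ring

theorem root_le {c s : ℝ} (hc : 0 ≤ c) (hs : 0 ≤ s) {m : ℕ} (h : c ≤ s ^ (m + 1)) :
    c ^ (((m + 1 : ℕ) : ℝ)⁻¹) ≤ s := by
  have h1 := Real.rpow_le_rpow hc h (show (0 : ℝ) ≤ ((m + 1 : ℕ) : ℝ)⁻¹ by positivity)
  rwa [Real.pow_rpow_inv_natCast hs (Nat.succ_ne_zero m)] at h1

theorem bddAbove_sg (hφ : Differentiable ℂ φ) (z : ℂ) :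
    BddAbove (range fun m : ℕ => (cf φ (m + 1) z) ^ (((m + 1 : ℕ) : ℝ)⁻¹)) := by
  have hc : ContinuousOn (fun w => ‖φ w - 0‖) (sphere z 1) :=
    ((hφ.continuous.sub continuous_const).norm).continuousOn
  obtain ⟨C, hC⟩ := (isCompact_sphere z 1).bddAbove_image hc
  have hC' : ∀ w ∈ sphere z 1, ‖φ w - 0‖ ≤ max C 1 := fun w hw =>
    (hC ⟨w, hw, rfl⟩).trans (le_max_left _ _)
  refine ⟨max C 1, ?_⟩
  rintro _ ⟨m, rfl⟩
  refine root_le (cf_nonneg _ _) (by positivity) ?_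
  have h1 := cf_le hφ one_pos hC' m
  rw [one_pow, div_one] at h1
  exact h1.trans (le_self_pow₀ (le_max_right _ _) (Nat.succ_ne_zero m))

theorem cf_le_sg (hφ : Differentiable ℂ φ) (z : ℂ) (m : ℕ) : cf φ (m + 1) z ≤ sg φ z ^ (m + 1) := by
  have h1 : (cf φ (m + 1) z) ^ (((m + 1 : ℕ) : ℝ)⁻¹) ≤ sg φ z := le_ciSup (bddAbove_sg hφ z) m
  have h2 := pow_le_pow_left₀ (Real.rpow_nonneg (cf_nonneg (φ := φ) (m + 1) z) _) h1 (m + 1)
  rwa [Real.rpow_inv_natCast_pow (cf_nonneg _ _) (Nat.succ_ne_zero m)] at h2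

theorem sg_nonneg (hφ : Differentiable ℂ φ) (z : ℂ) : 0 ≤ sg φ z :=
  (Real.rpow_nonneg (cf_nonneg (φ := φ) _ _) _).trans (le_ciSup (bddAbove_sg hφ z) 0)

theorem sg_le {z : ℂ} {s : ℝ} (hs : 0 ≤ s) (h : ∀ m : ℕ, cf φ (m + 1) z ≤ s ^ (m + 1)) :
    sg φ z ≤ s := ciSup_le fun m => root_le (cf_nonneg _ _) hs (h m)

theorem deriv_le_sg (hφ : Differentiable ℂ φ) (z : ℂ) : ‖deriv φ z‖ ≤ sg φ z := by
  have := cf_le_sg hφ z 0
  unfold cf at this
  rw [zero_add, iteratedDeriv_one, Nat.factorial_one, pow_one] at this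
  simpa using this

/-- the bound given by Cauchy's estimates -/
theorem sg_le_of_bound (hφ : Differentiable ℂ φ) {z c : ℂ} {R : ℝ} (hR : 0 < R)
    (h : ∀ w ∈ sphere z R, ‖φ w - c‖ ≤ 1) : sg φ z ≤ 1 / R := by
  apply sg_le (by positivity)
  intro m
  rw [div_pow, one_pow]
  exact cf_le hφ hR h m

/-- Taylor's formula -/
theorem taylor_bound (hφ : Differentiable ℂ φ) {z w : ℂ} (h : ‖w - z‖ * sg φ z ≤ 1 / 2) :
    ‖φ w - φ z‖ ≤ 1 := by
  have h1 := Complex.hasSum_taylorSeries_of_entire hφ z w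
  have h2 := (hasSum_nat_add_iff' 1).2 h1
  rw [Finset.sum_range_one, Nat.factorial_zero, pow_zero, iteratedDeriv_zero, Nat.cast_one,
    inv_one, one_smul, one_smul] at h2
  refine HasSum.norm_le_of_bounded h2 (hasSum_geometric_two' 1) fun m => ?_
  rw [norm_smul, norm_smul, norm_inv, norm_pow, Complex.norm_natCast]
  have h4 : ((m + 1).factorial : ℝ)⁻¹ * (‖w - z‖ ^ (m + 1) * ‖iteratedDeriv (m + 1) φ z‖) =
      ‖w - z‖ ^ (m + 1) * cf φ (m + 1) z := by
    unfold cf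
    field_simp
  rw [h4]
  calc ‖w - z‖ ^ (m + 1) * cf φ (m + 1) z ≤ ‖w - z‖ ^ (m + 1) * sg φ z ^ (m + 1) :=
        mul_le_mul_of_nonneg_left (cf_le_sg hφ z m) (by positivity)
    _ = (‖w - z‖ * sg φ z) ^ (m + 1) := by rw [mul_pow]
    _ ≤ (1 / 2) ^ (m + 1) :=
        pow_le_pow_left₀ (mul_nonneg (norm_nonneg _) (sg_nonneg hφ z)) h _
    _ = 1 / 2 / 2 ^ m := by
        rw [pow_succ, div_pow, one_pow]
        ring

theorem const_of_sg_zero (hφ : Differentiable ℂ φ) {z : ℂ} (h : sg φ z = 0) (w : ℂ) :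
    φ w = φ z := by
  have h1 := Complex.hasSum_taylorSeries_of_entire hφ z w
  have h2 : ∀ m : ℕ, m ≠ 0 → ((m.factorial : ℂ)⁻¹ • (w - z) ^ m • iteratedDeriv m φ z) = 0 := by
    intro m hm
    obtain ⟨k, rfl⟩ := Nat.exists_eq_succ_of_ne_zero hm
    have h3 := cf_le_sg hφ z k
    rw [h, zero_pow (Nat.succ_ne_zero k)] at h3
    have h4 : cf φ (k + 1) z = 0 := le_antisymm h3 (cf_nonneg _ _)
    unfold cf at h4
    have h5 : iteratedDeriv (k + 1) φ z = 0 := by
      rw [div_eq_zero_iff] at h4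
      rcases h4 with h4 | h4
      · exact norm_eq_zero.1 h4
      · exact absurd h4 (by positivity)
    change (((k + 1).factorial : ℂ)⁻¹ • (w - z) ^ (k + 1) • iteratedDeriv (k + 1) φ z) = 0
    rw [h5, smul_zero, smul_zero]
  have h3 := h1.unique (hasSum_single 0 h2)
  rw [h3, Nat.factorial_zero, pow_zero, iteratedDeriv_zero, Nat.cast_one, inv_one, one_smul,
    one_smul]

theorem sg_of_const (h : ∀ w z : ℂ, φ w = φ z) (z : ℂ) : sg φ z = 0 := by
  have h1 : φ = fun _ => φ 0 := funext fun w => h w 0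
  have h2 : ∀ m : ℕ, cf φ (m + 1) z = 0 := by
    intro m
    unfold cf
    rw [h1, iteratedDeriv_const, if_neg (Nat.succ_ne_zero m), norm_zero, zero_div]
  unfold sg
  have h3 : (fun m : ℕ => (cf φ (m + 1) z) ^ (((m + 1 : ℕ) : ℝ)⁻¹)) = fun _ => 0 := by
    funext m
    rw [h2 m, Real.zero_rpow]
    positivity
  rw [h3, ciSup_const]

/-- a Harnack inequality for the scale -/
theorem sg_harnack (hφ : Differentiable ℂ φ) {z w : ℂ} (h : 4 * ‖w - z‖ * sg φ z ≤ 1) :
    sg φ w ≤ 4 * sg φ z := by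
  rcases (sg_nonneg hφ z).eq_or_lt with h0 | h0
  · have h1 := const_of_sg_zero hφ h0.symm
    rw [sg_of_const (fun x y => (h1 x).trans (h1 y).symm), ← h0]
    norm_num
  · have hR : 0 < 1 / (4 * sg φ z) := by positivity
    have h1 := sg_le_of_bound hφ (z := w) (c := φ z) hR (by
      intro x hx
      apply taylor_bound hφ
      rw [mem_sphere, dist_eq_norm] at hx
      have h2 : ‖x - z‖ ≤ ‖x - w‖ + ‖w - z‖ := by
        have := norm_add_le (x - w) (w - z)
        rwa [sub_add_sub_cancel] at this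
      calc ‖x - z‖ * sg φ z ≤ (‖x - w‖ + ‖w - z‖) * sg φ z :=
            mul_le_mul_of_nonneg_right h2 h0.le
        _ = 1 / 4 + ‖w - z‖ * sg φ z := by
            rw [hx, add_mul]
            congr 1
            field_simp
        _ ≤ 1 / 2 := by linarith)
    rwa [one_div_one_div] at h1

/-- the lower bound of the scale near a point -/
theorem sg_lower (hφ : Differentiable ℂ φ) (z w : ℂ) :
    1 < 4 * ‖w - z‖ * sg φ z ∨ sg φ w ≤ 4 * sg φ z := by
  rcases lt_or_ge 1 (4 * ‖w - z‖ * sg φ z) with h | h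
  · exact Or.inl h
  · exact Or.inr (sg_harnack hφ h)

/-- affine changes of variables -/
theorem cf_comp (hφ : Differentiable ℂ φ) (z0 c l : ℂ) (m : ℕ) (t : ℂ) :
    cf (fun t => φ (z0 + c * t) - l) (m + 1) t = ‖c‖ ^ (m + 1) * cf φ (m + 1) (z0 + c * t) := by
  have h1 : iteratedDeriv (m + 1) (fun t => φ (z0 + c * t) - l) t =
      iteratedDeriv (m + 1) (fun t => φ (z0 + c * t)) t := by
    rw [iteratedDeriv_succ', iteratedDeriv_succ']
    congr 1
    funext w
    rw [deriv_sub_const]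
  have hsh : Differentiable ℂ fun w => φ (z0 + w) := hφ.comp (by fun_prop)
  have h2 := iteratedDeriv_comp_const_mul (n := m + 1) (f := fun w => φ (z0 + w))
    hsh.contDiff c
  have h3 := congrFun h2 t
  have h4 := congrFun (iteratedDeriv_comp_const_add (m + 1) φ z0) (c * t)
  have h5 : iteratedDeriv (m + 1) (fun t => φ (z0 + c * t)) t =
      c ^ (m + 1) * iteratedDeriv (m + 1) φ (z0 + c * t) := by
    rw [← h4]
    exact h3
  unfold cf
  rw [h1, h5, norm_mul, norm_pow, mul_div_assoc]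

theorem sg_comp (hφ : Differentiable ℂ φ) (z0 c l : ℂ) (t : ℂ) :
    sg (fun t => φ (z0 + c * t) - l) t = ‖c‖ * sg φ (z0 + c * t) := by
  unfold sg
  rw [Real.mul_iSup_of_nonneg (norm_nonneg c)]
  congr 1
  funext m
  rw [cf_comp hφ, Real.mul_rpow (by positivity) (cf_nonneg _ _),
    Real.pow_rpow_inv_natCast (norm_nonneg c) (Nat.succ_ne_zero m)]

/-- the supremum is almost attained -/
theorem exists_cf (hφ : Differentiable ℂ φ) {z : ℂ} {s : ℝ} (hs : 0 ≤ s) (h : s < sg φ z) :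
    ∃ m : ℕ, s ^ (m + 1) < cf φ (m + 1) z := by
  by_contra hcon
  push Not at hcon
  exact absurd (sg_le hs hcon) (not_le.2 h)

/-- the maximum principle -/
theorem sg_max (hφ : Differentiable ℂ φ) {z : ℂ} {s r : ℝ} (hs : 0 ≤ s) (h : s < sg φ z)
    (hz : ‖z‖ < r) : ∃ w : ℂ, ‖w‖ = r ∧ s < sg φ w := by
  obtain ⟨m, hm⟩ := exists_cf hφ hs h
  by_contra hcon
  push Not at hcon
  have hdiff : Differentiable ℂ (iteratedDeriv (m + 1) φ) := by
    have : ContDiff ℂ ⊤ φ := hφ.contDiff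
    exact this.differentiable_iteratedDeriv (m + 1) (by exact_mod_cast WithTop.coe_lt_top _)
  have hr : 0 < r := (norm_nonneg z).trans_lt hz
  have h1 := Complex.norm_le_of_forall_mem_frontier_norm_le (f := iteratedDeriv (m + 1) φ)
    (U := ball 0 r) (C := s ^ (m + 1) * (m + 1).factorial) isBounded_ball
    hdiff.diffContOnCl (by
      intro w hw
      rw [frontier_ball (0 : ℂ) hr.ne', mem_sphere_zero_iff_norm] at hw
      have h2 := (cf_le_sg hφ w m).trans
        (pow_le_pow_left₀ (sg_nonneg hφ w) (hcon w hw) (m + 1))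
      unfold cf at h2
      rwa [div_le_iff₀ (by positivity)] at h2)
    (subset_closure (mem_ball_zero_iff.2 hz))
  apply absurd hm
  push Not
  unfold cf
  rwa [div_le_iff₀ (by positivity)]

end Pool.Agent.N154.GG
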