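import Pool.Agent.N154.GG.Basic
import Pool.Agent.N154.GG.Sig
import Pool.Agent.N154.GG.Hof

/-! Limits of curves whose derivatives are locally bounded. -/

set_option autoImplicit false

open Filter Topology Metric Set

namespace Pool.Agent.N154.GG

open Pool.Agent.Y190.OP Pool.Agent.N155

variable {N : ℕ} {T : Set (Mat N)} {Λ : AddSubgroup ℂ} {a : Mat N → ℂ}

/-- limits of curves -/
theorem exists_limit_loc (hT : IsCompact T) (hTP : T ⊆ PM) {𝓤 : Ultrafilter ℕ}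
    {h : ℕ → ℂ → Mat N} (hH : ∀ n, HolP univ (h n)) (hm : ∀ n z, h n z ∈ T)
    (hb : ∀ L : ℝ, ∃ K : ℝ, ∀ᶠ n in (𝓤 : Filter ℕ), ∀ z ∈ ball (0 : ℂ) L,
      ‖fderiv ℝ (h n) z‖ ≤ K) :
    ∃ H : ℂ → Mat N, HolP univ H ∧ (∀ z, H z ∈ T) ∧ CConv (𝓤 : Filter ℕ) univ h H ∧
      ∀ z, Tendsto (fun n => fderiv ℝ (h n) z) 𝓤 (𝓝 (fderiv ℝ H z)) := by
  have hlim : ∀ z : ℂ, ∃ y ∈ T, Tendsto (fun n => h n z) 𝓤 (𝓝 y) := by
    intro z
    have h1 : (𝓤.map (fun n => h n z) : Filter (Mat N)) ≤ 𝓟 T := by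
      rw [Ultrafilter.coe_map, le_principal_iff, mem_map]
      exact Eventually.of_forall fun n => hm n z
    obtain ⟨y, hy, hy'⟩ := hT.ultrafilter_le_nhds (𝓤.map (fun n => h n z)) h1
    exact ⟨y, hy, hy'⟩
  choose H hHmem hHt using hlim
  have hCC : CConv (𝓤 : Filter ℕ) univ h H := by
    intro z _
    obtain ⟨K0, hK0⟩ := hb (‖z‖ + 1)
    set K := max K0 0 with hKdef
    have hK0' : 0 ≤ K := le_max_right _ _
    have hK : ∀ᶠ n in (𝓤 : Filter ℕ), ∀ x ∈ ball (0 : ℂ) (‖z‖ + 1), ‖fderiv ℝ (h n) x‖ ≤ K := by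
      filter_upwards [hK0] with n hn x hx
      exact (hn x hx).trans (le_max_left _ _)
    rw [Metric.tendsto_nhds]
    intro ε hε
    have h2 := Metric.tendsto_nhds.1 (hHt z) (ε / 2) (by positivity)
    rw [eventually_prod_iff]
    refine ⟨_, h2.and hK, fun w => w ∈ ball z 1 ∧ K * ‖w - z‖ < ε / 2, ?_, ?_⟩
    · have h5 : Tendsto (fun w => K * ‖w - z‖) (𝓝 z) (𝓝 0) := by
        have : Continuous fun w : ℂ => K * ‖w - z‖ := by fun_prop
        have h6 := this.tendsto z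
        simpa using h6
      have h7 : ∀ᶠ w in 𝓝 z, w ∈ ball z 1 := ball_mem_nhds z one_pos
      exact h7.and (h5.eventually_lt_const (by positivity))
    · rintro n ⟨hn1, hn2⟩ w ⟨hw1, hw2⟩
      have hsub : ball z 1 ⊆ ball (0 : ℂ) (‖z‖ + 1) := by
        intro x hx
        rw [mem_ball, dist_eq_norm] at hx
        rw [mem_ball_zero_iff]
        have := norm_add_le (x - z) z
        rw [sub_add_cancel] at this
        linarith
      have h6 : ‖h n w - h n z‖ ≤ K * ‖w - z‖ :=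
        (convex_ball z 1).norm_image_sub_le_of_norm_fderiv_le
          (fun x _ => (hH n).differentiableAt (mem_univ x))
          (fun x hx => hn2 x (hsub hx)) (mem_ball_self one_pos) hw1
      calc dist (h n w) (H z) ≤ dist (h n w) (h n z) + dist (h n z) (H z) := dist_triangle _ _ _
        _ < ε / 2 + ε / 2 := by
            refine add_lt_add ?_ hn1
            rw [dist_eq_norm]
            exact h6.trans_lt hw2
        _ = ε := by ring
  have hl := holP_limit isOpen_univ hCC (Eventually.of_forall hH) (fun z _ => hTP (hHmem z))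
  exact ⟨H, hl.1, hHmem, hCC, fun z => hl.2 z (mem_univ z)⟩

/-- limits of entire functions -/
theorem exists_limit_fun {𝓤 : Ultrafilter ℕ} {φ : ℕ → ℂ → ℂ} (hφ : ∀ n, Differentiable ℂ (φ n))
    (h0 : ∃ C : ℝ, ∀ᶠ n in (𝓤 : Filter ℕ), ‖φ n 0‖ ≤ C)
    (hb : ∀ L : ℝ, ∃ K : ℝ, ∀ᶠ n in (𝓤 : Filter ℕ), ∀ z ∈ ball (0 : ℂ) L, ‖deriv (φ n) z‖ ≤ K) :
    ∃ Φ : ℂ → ℂ, Differentiable ℂ Φ ∧ CConv (𝓤 : Filter ℕ) univ φ Φ ∧
      ∀ z, Tendsto (fun n => deriv (φ n) z) 𝓤 (𝓝 (deriv Φ z)) := by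
  obtain ⟨C, hC⟩ := h0
  obtain ⟨Φ, hΦ⟩ := ultra_montel (𝓤 := 𝓤) (U := univ) (h := φ) (by
    intro z _
    obtain ⟨K, hK⟩ := hb (‖z‖ + 1)
    refine ⟨ball 0 (‖z‖ + 1), isOpen_ball.mem_nhds (by rw [mem_ball_zero_iff]; linarith),
      C + |K| * (‖z‖ + 1), ?_⟩
    filter_upwards [hC, hK] with n hn1 hn2
    refine ⟨(hφ n).differentiableOn, fun w hw => ?_⟩
    have h6 : ‖φ n w - φ n 0‖ ≤ |K| * ‖w - 0‖ :=
      (convex_ball (0 : ℂ) (‖z‖ + 1)).norm_image_sub_le_of_norm_deriv_le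
        (fun x _ => (hφ n) x) (fun x hx => (hn2 x hx).trans (le_abs_self K))
        (mem_ball_self (by positivity)) hw
    rw [sub_zero] at h6
    have h7 : ‖φ n w‖ ≤ ‖φ n w - φ n 0‖ + ‖φ n 0‖ := by
      have := norm_add_le (φ n w - φ n 0) (φ n 0)
      rwa [sub_add_cancel] at this
    have h8 : |K| * ‖w‖ ≤ |K| * (‖z‖ + 1) :=
      mul_le_mul_of_nonneg_left (mem_ball_zero_iff.1 hw).le (abs_nonneg K)
    linarith)
  have h1 : ∀ z, AnalyticAt ℂ Φ z ∧ Tendsto (fun n => deriv (φ n) z) 𝓤 (𝓝 (deriv Φ z)) :=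
    fun z => CConv.an hΦ isOpen_univ (mem_univ z)
      ⟨univ, univ_mem, Eventually.of_forall fun n => (hφ n).differentiableOn⟩
  exact ⟨Φ, fun z => (h1 z).1.differentiableAt, hΦ, fun z => (h1 z).2⟩

/-- along the hyperfilter every bound is passed -/
theorem hyper_ge (R : ℝ) : ∀ᶠ n : ℕ in ((hyperfilter ℕ : Ultrafilter ℕ) : Filter ℕ), R ≤ n := by
  have h2 : ∀ᶠ n : ℕ in atTop, R ≤ n := by
    filter_upwards [eventually_ge_atTop ⌈R⌉₊] with n hn
    exact (Nat.le_ceil R).trans (by exact_mod_cast hn)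
  have h3 : ((hyperfilter ℕ : Ultrafilter ℕ) : Filter ℕ) ≤ atTop := by
    rw [← Nat.cofinite_eq_atTop]
    exact hyperfilter_le_cofinite
  exact h3 h2

/-- affine changes of variables -/
theorem holP_comp {P : ℂ → Mat N} (hP : HolP univ P) {f : ℂ → ℂ} (hf : Differentiable ℂ f) :
    HolP univ (fun z => P (f z)) := by
  intro z _
  obtain ⟨V, F, hV, hzV, hd, hF⟩ := hP (f z) (mem_univ _)
  exact ⟨f ⁻¹' V, fun w => F (f w), hV.preimage hf.continuous, hzV,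
    hd.comp hf.differentiableOn (fun w hw => hw), fun w hw => hF _ hw⟩

theorem norm_fderiv_comp {P : ℂ → Mat N} (hP : HolP univ P) {f : ℂ → ℂ} (hf : Differentiable ℂ f)
    (z : ℂ) : ‖fderiv ℝ (fun z => P (f z)) z‖ ≤ ‖fderiv ℝ P (f z)‖ * ‖deriv f z‖ := by
  have h1 : HasFDerivAt f ((fderiv ℂ f z).restrictScalars ℝ) z :=
    (hf z).hasFDerivAt.restrictScalars ℝ
  have h2 := ((hP.differentiableAt (mem_univ (f z))).hasFDerivAt.comp z h1).fderiv
  have h3 : fderiv ℝ (fun z => P (f z)) z = (fderiv ℝ P (f z)).comp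
      ((fderiv ℂ f z).restrictScalars ℝ) := h2
  rw [h3]
  refine (ContinuousLinearMap.opNorm_comp_le _ _).trans ?_
  rw [ContinuousLinearMap.norm_restrictScalars, norm_deriv_eq_norm_fderiv]

/-- the curves in `T` over constants are constant -/
def Fib (T : Set (Mat N)) (Λ : AddSubgroup ℂ) (a : Mat N → ℂ) : Prop :=
  ∀ (P : ℂ → Mat N) (c : ℂ), HolP univ P → (∀ z, P z ∈ T) → Over Λ a P (fun _ => c) →
    ∀ z, P z = P 0

end Pool.Agent.N154.GG
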