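import Pool.Agent.N154.GG.Main

/-! There are no rescaled sequences. -/

set_option autoImplicit false

open Filter Topology Metric Set

namespace Pool.Agent.N154.GG

open Pool.Agent.Y190.OP Pool.Agent.N155

variable {N : ℕ} {T : Set (Mat N)} {Λ : AddSubgroup ℂ} {a : Mat N → ℂ} {κ : Type}
    {η : κ → (Fin N → ℂ) → (Fin N → ℂ) → (Fin N → ℂ) → ℂ}
    {r : ℕ} {e : Fin r → ℂ → Mat N} {D C : ℝ} {h : ℕ → ℂ → Mat N} {φ : ℕ → ℂ → ℂ}

theorem S0_grad (hC0 : 0 < C) (hC : GE T Λ a C) {g : ℂ → Mat N} (hg : g ∈ S0 T Λ a) (z : ℂ) :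
    ‖fderiv ℝ g z‖ ≤ C := by
  refine (hC _ _ hg.1 hg.2.1 differentiable_fun_id hg.2.2 z).trans ?_
  have h1 := sg_add_le 0 z
  simp only [add_zero] at h1
  have := mul_le_mul_of_nonneg_left h1 hC0.le
  rwa [mul_one] at this

theorem S0_lip (hC0 : 0 < C) (hC : GE T Λ a C) {g : ℂ → Mat N} (hg : g ∈ S0 T Λ a) (z w : ℂ) :
    ‖g z - g w‖ ≤ C * ‖z - w‖ :=
  convex_univ.norm_image_sub_le_of_norm_fderiv_le
    (fun x _ => hg.1.differentiableAt (mem_univ x)) (fun x _ => S0_grad hC0 hC hg x)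
    (mem_univ w) (mem_univ z)

/-- the product of the distances to the other curves, along the sequence -/
noncomputable def Ek (e : Fin r → ℂ → Mat N) (h : ℕ → ℂ → Mat N) (φ : ℕ → ℂ → ℂ) (i : Fin r)
    (k : ℕ) (t : ℂ) : ℝ := ∏ j ∈ Finset.univ.erase i, ‖h k t - e j (φ k t)‖

theorem Ek_conv (he : ∀ j, e j ∈ S0 T Λ a) {Φ : ℂ → ℂ} {H : ℂ → Mat N} {i : Fin r}
    (hΦc : CConv (UU : Filter ℕ) univ φ Φ) (hHc : CConv (UU : Filter ℕ) univ h H)
    (hH : ∀ z, H z = e i (Φ z)) :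
    CConv (UU : Filter ℕ) univ (Ek e h φ i) (fun t => Er e i (Φ t)) := by
  intro z _
  unfold Ek Er
  refine tendsto_finsetProd _ fun j _ => ?_
  have h1 := hHc z (mem_univ z)
  rw [hH z] at h1
  exact (h1.sub (e_conv he hΦc j z (mem_univ z))).norm

theorem Ek_le (hT : TD T Λ a) (hs : SQ T Λ a e D h φ) (he : ∀ j, e j ∈ S0 T Λ a) (i : Fin r)
    (k : ℕ) (t : ℂ) : Ek e h φ i k t ≤ 2 ^ r := by
  unfold Ek
  calc ∏ j ∈ Finset.univ.erase i, ‖h k t - e j (φ k t)‖ ≤
        ∏ _j ∈ Finset.univ.erase i, (2 : ℝ) := by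
        refine Finset.prod_le_prod (fun _ _ => norm_nonneg _) fun j _ => ?_
        have := (norm_sub_le (h k t) (e j (φ k t))).trans (add_le_add
          (norm_phi_le (hT.sub (hs.mem k t))) (norm_phi_le (hT.sub ((he j).2.1 (φ k t)))))
        linarith
    _ = 2 ^ (Finset.univ.erase i).card := by rw [Finset.prod_const]
    _ ≤ 2 ^ r := by
        apply pow_le_pow_right₀ (by norm_num)
        refine (Finset.card_le_univ _).trans ?_
        rw [Fintype.card_fin]

/-- **No rescaled sequences** -/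
theorem SQ.false (hT : TD T Λ a) (hG : GD T Λ a η) (hs : SQ T Λ a e D h φ)
    (he : ∀ j, e j ∈ S0 T Λ a) (hinj : Function.Injective e)
    (hsurj : ∀ g ∈ S0 T Λ a, ∃ j, e j = g) {κ0 : ℕ} (hκ : 0 < κ0)
    (hper : ∀ j, ∀ l ∈ Λ, ∀ z, e j (z + κ0 * l) = e j z) (hC0 : 0 < C) (hC : GE T Λ a C) :
    False := by
  obtain ⟨m, hm⟩ := hs.coef he hC0 hC
  obtain ⟨Φ, H, hΦ, hΦc, hH, hHT, hHc, hHo⟩ := hs.lim hT he hC0 hC
  obtain ⟨α, β, hα, hΦa⟩ := hs.aff hT he hm hΦ hΦc hHT hHc
  -- the limit is one of the curves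
  have hPS : (fun s => H ((s - β) / α)) ∈ S0 T Λ a := by
    refine ⟨holP_comp hH (by fun_prop), fun z => hHT _, fun z => ?_⟩
    have h1 := hHo ((z - β) / α)
    rw [hΦa, mul_div_cancel₀ _ hα, sub_add_cancel] at h1
    exact h1
  obtain ⟨i, hi⟩ := hsurj _ hPS
  have hHe : ∀ t, H t = e i (Φ t) := by
    intro t
    rw [hi]
    simp only
    rw [hΦa, add_sub_cancel_right, mul_div_cancel_left₀ _ hα]
  set ρ0 : ℝ := 1 / (8 * (N + 1) * (C + 1)) with hρ0
  have hρ0pos : 0 < ρ0 := by positivity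
  set η0 : ℝ := 1 / (8 * (N + 1)) with hη0
  have hη0pos : 0 < η0 := by positivity
  obtain ⟨ε, hε, hcirc⟩ := circles hT (fun j => (he j).1) hinj hκ hper i hρ0pos
  have hkm : ∀ᶠ k : ℕ in (UU : Filter ℕ), m ≤ k := by
    filter_upwards [uu_ge (m : ℝ)] with k hk
    exact_mod_cast hk
  have hprod : ∀ k t, ∏ j, ‖h k t - e j (φ k t)‖ = ‖h k t - e i (φ k t)‖ * Ek e h φ i k t := by
    intro k t
    exact (Finset.mul_prod_erase Finset.univ (fun j => ‖h k t - e j (φ k t)‖)
      (Finset.mem_univ i)).symm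
  have hx0 : ∀ k, 0 < ‖h k 0 - e i (φ k 0)‖ := by
    intro k
    have h1 := hs.d0 k
    rw [hprod] at h1
    rcases (norm_nonneg (h k 0 - e i (φ k 0))).eq_or_lt with h2 | h2
    · rw [← h2, zero_mul] at h1
      exact absurd h1 (lt_irrefl _)
    · exact h2
  set wt : ℕ → ℂ → ℂ := fun k t => 2 * Wk φ m k t / (‖h k 0 - e i (φ k 0)‖ : ℝ) with hwt
  have hwtn : ∀ k t, ‖wt k t‖ = 2 * ‖Wk φ m k t‖ / ‖h k 0 - e i (φ k 0)‖ := by
    intro k t
    rw [hwt]
    simp only
    rw [norm_div, norm_mul, Complex.norm_real, norm_norm]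
    norm_num
  have hwtd : ∀ k, Differentiable ℂ (wt k) := by
    intro k
    have := diff_Wk hs.dif m k
    rw [hwt]
    fun_prop
  have hosc : 2 * N * (C * ρ0 + 2 * η0) ≤ 1 := by
    rw [hρ0, hη0]
    have h1 : C * (1 / (8 * (N + 1) * (C + 1))) ≤ 1 / (8 * ((N : ℝ) + 1)) := by
      rw [mul_one_div, div_le_div_iff₀ (by positivity) (by positivity)]
      have : (0 : ℝ) ≤ N := Nat.cast_nonneg N
      nlinarith
    have h2 : 2 * (N : ℝ) * (1 / (8 * ((N : ℝ) + 1)) + 2 * (1 / (8 * ((N : ℝ) + 1)))) ≤ 1 := by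
      have : 2 * (N : ℝ) * (1 / (8 * ((N : ℝ) + 1)) + 2 * (1 / (8 * ((N : ℝ) + 1)))) =
          6 * N / (8 * (N + 1)) := by
        field_simp
        ring
      rw [this, div_le_one (by positivity)]
      have : (0 : ℝ) ≤ N := Nat.cast_nonneg N
      linarith
    refine le_trans ?_ h2
    gcongr
  -- the uniform bound
  have hbound : ∀ L : ℝ, ∀ᶠ k in (UU : Filter ℕ), ∀ z ∈ closedBall (0 : ℂ) L,
      ‖h k z - e i (φ k z)‖ * ‖wt k z‖ ≤ KN N ^ 1 * (KN N ^ 1 * (8 * 2 ^ r / ε)) := by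
    intro L
    set L' : ℝ := |L| + ρ0 / ‖α‖ with hL'
    have hαn : 0 < ‖α‖ := norm_pos_iff.2 hα
    filter_upwards [hkm, uu_ge L',
      CConv.unif (Ek_conv he hΦc hHc hHe) (isCompact_closedBall (0 : ℂ) L') (half_pos hε),
      CConv.unif hHc (isCompact_closedBall (0 : ℂ) L') hη0pos,
      CConv.unif (e_conv he hΦc i) (isCompact_closedBall (0 : ℂ) L') hη0pos]
      with k hk hkL hEk hHk hek z hz
    obtain ⟨ρ, hρ, hρρ, hcir⟩ := hcirc (Φ z)
    have hz' : ‖z‖ ≤ |L| := (mem_closedBall_zero_iff.1 hz).trans (le_abs_self L)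
    have hρ' : 0 < ρ / ‖α‖ := by positivity
    have hsub : ∀ t ∈ closedBall z (ρ / ‖α‖), t ∈ closedBall (0 : ℂ) L' := by
      intro t ht
      rw [mem_closedBall, dist_eq_norm] at ht
      rw [mem_closedBall_zero_iff, hL']
      have h1 := norm_add_le (t - z) z
      rw [sub_add_cancel] at h1
      have h2 : ρ / ‖α‖ ≤ ρ0 / ‖α‖ := by gcongr
      linarith
    have hz'' : z ∈ closedBall (0 : ℂ) L' := hsub z (mem_closedBall_self hρ'.le)
    have hΦd : ∀ t, ‖Φ t - Φ z‖ = ‖α‖ * ‖t - z‖ := by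
      intro t
      rw [hΦa t, hΦa z, ← norm_mul]
      congr 1
      ring
    have hlip : ∀ t ∈ closedBall z (ρ / ‖α‖), ‖e i (Φ t) - e i (Φ z)‖ ≤ C * ρ0 := by
      intro t ht
      rw [mem_closedBall, dist_eq_norm] at ht
      refine (S0_lip hC0 hC (he i) _ _).trans (mul_le_mul_of_nonneg_left ?_ hC0.le)
      rw [hΦd]
      rw [le_div_iff₀ hαn] at ht
      linarith
    have hoscX : ∀ {X : ℂ → Mat N}, (∀ t ∈ closedBall (0 : ℂ) L', ‖X t - e i (Φ t)‖ < η0) →
        ∀ t ∈ closedBall z (ρ / ‖α‖), 2 * N * ‖X t - X z‖ ≤ 1 := by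
      intro X hX t ht
      have h1 := hX t (hsub t ht)
      have h2 := hX z hz''
      have h3 := hlip t ht
      have h4 : ‖X t - X z‖ ≤ C * ρ0 + 2 * η0 := by
        have e1 : X t - X z = (X t - e i (Φ t)) + (e i (Φ t) - e i (Φ z)) - (X z - e i (Φ z)) := by
          abel
        rw [e1]
        refine (norm_sub_le _ _).trans ?_
        have := norm_add_le (X t - e i (Φ t)) (e i (Φ t) - e i (Φ z))
        linarith
      exact (mul_le_mul_of_nonneg_left h4 (by positivity)).trans hosc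
    have h1 := locmax (r := 1) (P := h k) (Q := fun _ t => e i (φ k t)) (hs.hol k)
      (fun _ => holP_comp (he i).1 (hs.dif k)) hρ' (hoscX (X := h k) (fun t ht => by
        rw [← hHe]
        exact hHk t ht)) (fun _ => hoscX (X := fun t => e i (φ k t)) hek) (G := wt k)
      (fun t _ => hwtd k t) (B := 8 * 2 ^ r / ε) (by
        intro t ht
        have ht' := hsub t (sphere_subset_closedBall ht)
        have hEt : ε / 2 ≤ Ek e h φ i k t := by
          have h2 := hEk t ht'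
          have h3 := hcir (Φ t) (by
            rw [mem_sphere, dist_eq_norm, hΦd]
            rw [mem_sphere, dist_eq_norm] at ht
            rw [ht]
            field_simp)
          rw [Real.norm_eq_abs, abs_lt] at h2
          linarith [h2.1]
        have hb := hs.bW (qk_dvd hk) ((mem_closedBall_zero_iff.1 ht').trans hkL)
        rw [← norm_Wk, hprod, hprod] at hb
        have hE0 := Ek_le hT hs he i k 0
        simp only [Finset.univ_unique, Finset.prod_singleton]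
        rw [hwtn, ← mul_div_assoc, div_le_div_iff₀ (hx0 k) hε]
        set x := ‖h k t - e i (φ k t)‖ with hx
        set x0 := ‖h k 0 - e i (φ k 0)‖ with hx0def
        have hxn : 0 ≤ x := norm_nonneg _
        have hWn : 0 ≤ ‖Wk φ m k t‖ := norm_nonneg _
        have h2 : ‖Wk φ m k t‖ * (x * (ε / 2)) ≤ 2 * (x0 * 2 ^ r) := by
          calc ‖Wk φ m k t‖ * (x * (ε / 2)) ≤ ‖Wk φ m k t‖ * (x * Ek e h φ i k t) := by gcongr
            _ ≤ 2 * (x0 * Ek e h φ i k 0) := hb
            _ ≤ 2 * (x0 * 2 ^ r) := by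
              have := (hx0 k).le
              gcongr
        linarith)
    simp only [Finset.univ_unique, Finset.prod_singleton] at h1
    exact h1
  have hRD : RD T Λ a UU (e i) Φ C (KN N ^ 1 * (KN N ^ 1 * (8 * 2 ^ r / ε)))
      (fun k t => e i (φ k t)) h φ wt :=
    { hg := (he i).1
      gT := (he i).2.1
      gov := (he i).2.2
      gB := S0_grad hC0 hC (he i)
      Φd := hΦ
      hP := fun k => holP_comp (he i).1 (hs.dif k)
      PT := fun k z => (he i).2.1 _
      hQ := hs.hol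
      QT := hs.mem
      Pov := fun k => (he i).2.2.comp (φ k)
      Qov := hs.ov
      wtd := hwtd
      cP := e_conv he hΦc i
      cQ := by
        have : (fun z => e i (Φ z)) = H := funext fun z => (hHe z).symm
        rw [this]
        exact hHc
      bd := hbound }
  have h1 := rigid hT hG hRD (by
    filter_upwards [hm, hkm] with k h1 h2
    have h3 := h1 _ (qk_dvd h2)
    rw [← norm_Wk] at h3
    rw [hwtn, mul_div_cancel₀ _ (hx0 k).ne']
    linarith) 1
  rw [hΦa, hΦa, mul_one, mul_zero, zero_add, add_eq_right] at h1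
  exact hα h1

end Pool.Agent.N154.GG
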