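import Pool.Agent.N154.GG.Sig

/-! Entire functions whose scale is dominated by one coefficient are affine. -/

set_option autoImplicit false

open Filter Topology Metric Set

namespace Pool.Agent.N154.GG

/-- entire functions of polynomial growth -/
theorem poly_of_growth {F : ℂ → ℂ} (hF : Differentiable ℂ F) {A : ℝ} {M : ℕ}
    (h : ∀ t, ‖F t‖ ≤ A * (1 + ‖t‖) ^ M) : ∃ p : Polynomial ℂ, ∀ t, F t = p.eval t := by
  have hA : 0 ≤ A := by
    have := (norm_nonneg _).trans (h 0)
    rw [norm_zero, add_zero, one_pow, mul_one] at this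
    exact this
  have hz : ∀ m : ℕ, M ≤ m → iteratedDeriv (m + 1) F 0 = 0 := by
    intro m hm
    have h1 : ∀ R : ℝ, 1 ≤ R → cf F (m + 1) 0 ≤ A * 2 ^ M / R := by
      intro R hR
      have hR0 : 0 < R := by linarith
      have h2 := cf_le hF hR0 (z := 0) (c := 0) (C := A * (2 * R) ^ M) (by
        intro w hw
        rw [mem_sphere_zero_iff_norm] at hw
        rw [sub_zero]
        refine (h w).trans ?_
        rw [hw]
        gcongr
        linarith) m
      refine h2.trans ?_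
      rw [div_le_div_iff₀ (by positivity) hR0, mul_pow]
      have h3 : R ^ M * R ≤ R ^ (m + 1) := by
        rw [← pow_succ]
        exact pow_le_pow_right₀ hR (by omega)
      calc A * (2 ^ M * R ^ M) * R = A * 2 ^ M * (R ^ M * R) := by ring
        _ ≤ A * 2 ^ M * R ^ (m + 1) := mul_le_mul_of_nonneg_left h3 (by positivity)
    have h3 : cf F (m + 1) 0 ≤ 0 := by
      have h4 : Tendsto (fun R : ℝ => A * 2 ^ M / R) atTop (𝓝 0) :=
        tendsto_const_nhds.div_atTop tendsto_id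
      exact ge_of_tendsto h4 (by
        filter_upwards [eventually_ge_atTop (1 : ℝ)] with R hR
        exact h1 R hR)
    have h4 := le_antisymm h3 (cf_nonneg _ _)
    unfold cf at h4
    rw [div_eq_zero_iff] at h4
    rcases h4 with h4 | h4
    · exact norm_eq_zero.1 h4
    · exact absurd h4 (by positivity)
  refine ⟨∑ n ∈ Finset.range (M + 1), Polynomial.C ((n.factorial : ℂ)⁻¹ * iteratedDeriv n F 0) *
    Polynomial.X ^ n, fun t => ?_⟩
  have h1 := Complex.hasSum_taylorSeries_of_entire hF 0 t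
  have h2 : ∀ n ∉ Finset.range (M + 1),
      ((n.factorial : ℂ)⁻¹ • (t - 0) ^ n • iteratedDeriv n F 0) = 0 := by
    intro n hn
    rw [Finset.mem_range, not_lt] at hn
    obtain ⟨m, rfl⟩ : ∃ m, n = m + 1 := ⟨n - 1, by omega⟩
    rw [hz m (by omega), smul_zero, smul_zero]
  have h3 := h1.unique (hasSum_sum_of_ne_finset_zero h2)
  rw [h3, Polynomial.eval_finsetSum]
  refine Finset.sum_congr rfl fun n _ => ?_
  rw [Polynomial.eval_mul, Polynomial.eval_C, Polynomial.eval_pow, Polynomial.eval_X, sub_zero,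
    smul_eq_mul, smul_eq_mul]
  ring

theorem zero_free_const {F : ℂ → ℂ} (hF : Differentiable ℂ F) {A : ℝ} {M : ℕ}
    (h : ∀ t, ‖F t‖ ≤ A * (1 + ‖t‖) ^ M) (h0 : ∀ t, F t ≠ 0) (t : ℂ) : F t = F 0 := by
  obtain ⟨p, hp⟩ := poly_of_growth hF h
  have hdeg : p.degree ≤ 0 := by
    by_contra hcon
    push Not at hcon
    obtain ⟨z, hz⟩ := Complex.exists_root hcon
    apply h0 z
    rw [hp z]
    exact hz
  rw [hp, hp, Polynomial.eq_C_of_degree_le_zero hdeg, Polynomial.eval_C, Polynomial.eval_C]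

theorem affine_of {Φ : ℂ → ℂ} (hΦ : Differentiable ℂ Φ) {m : ℕ}
    (h1 : ∀ t, ‖deriv Φ t‖ ^ (m + 1) ≤ 2 * cf Φ (m + 1) t)
    (h2 : ∀ t : ℂ, (1 / (4 * (1 + ‖t‖))) ^ (m + 1) ≤ 2 * cf Φ (m + 1) t) :
    ∃ α β : ℂ, α ≠ 0 ∧ ∀ t, Φ t = α * t + β := by
  have hpos : ∀ t, 0 < cf Φ (m + 1) t := by
    intro t
    have h3 : 0 < (1 / (4 * (1 + ‖t‖))) ^ (m + 1) := by positivity
    linarith [h2 t]
  have hne : ∀ t, iteratedDeriv (m + 1) Φ t ≠ 0 := by
    intro t h0
    have := hpos t
    unfold cf at this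
    rw [h0, norm_zero, zero_div] at this
    exact lt_irrefl _ this
  have hdiff : Differentiable ℂ (iteratedDeriv (m + 1) Φ) := by
    have : ContDiff ℂ ⊤ Φ := hΦ.contDiff
    exact this.differentiable_iteratedDeriv (m + 1) (by exact_mod_cast WithTop.coe_lt_top _)
  have hconst := zero_free_const (F := fun t => (iteratedDeriv (m + 1) Φ t)⁻¹)
    (fun t => (hdiff t).inv (hne t)) (A := 2 * 4 ^ (m + 1)) (M := m + 1) (by
      intro t
      rw [norm_inv]
      have h3 := h2 t
      unfold cf at h3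
      have h4 : 0 < ‖iteratedDeriv (m + 1) Φ t‖ := norm_pos_iff.2 (hne t)
      have h5 : ‖iteratedDeriv (m + 1) Φ t‖ / ((m + 1).factorial : ℝ) ≤
          ‖iteratedDeriv (m + 1) Φ t‖ := by
        apply div_le_self h4.le
        exact_mod_cast Nat.one_le_iff_ne_zero.2 (Nat.factorial_ne_zero _)
      have h6 : (1 / (4 * (1 + ‖t‖))) ^ (m + 1) ≤ 2 * ‖iteratedDeriv (m + 1) Φ t‖ := by
        linarith
      rw [one_div, inv_pow, inv_le_iff_one_le_mul₀ (by positivity), mul_pow] at h6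
      rw [inv_le_iff_one_le_mul₀ h4]
      linarith) (fun t => inv_ne_zero (hne t))
  have hcf : ∀ t, cf Φ (m + 1) t = cf Φ (m + 1) 0 := by
    intro t
    unfold cf
    rw [inv_injective (hconst t)]
  have hbd : ∀ t, ‖deriv Φ t‖ ≤ max 1 (2 * cf Φ (m + 1) 0) := by
    intro t
    by_contra hcon
    push Not at hcon
    have h3 : 1 < ‖deriv Φ t‖ := (le_max_left _ _).trans_lt hcon
    have h4 : 2 * cf Φ (m + 1) 0 < ‖deriv Φ t‖ := (le_max_right _ _).trans_lt hcon
    have h5 := h1 t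
    rw [hcf t] at h5
    have h6 : ‖deriv Φ t‖ ≤ ‖deriv Φ t‖ ^ (m + 1) := le_self_pow₀ h3.le (Nat.succ_ne_zero m)
    linarith
  have hd : Differentiable ℂ (deriv Φ) := fun z => (hΦ.analyticAt z).deriv.differentiableAt
  have hdc : ∀ t, deriv Φ t = deriv Φ 0 := by
    intro t
    apply hd.apply_eq_apply_of_bounded
    rw [isBounded_iff_forall_norm_le]
    refine ⟨max 1 (2 * cf Φ (m + 1) 0), ?_⟩
    rintro _ ⟨z, rfl⟩
    exact hbd z
  have haff : ∀ t, Φ t = deriv Φ 0 * t + Φ 0 := by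
    intro t
    have h3 : ∀ z, HasDerivAt (fun t => Φ t - deriv Φ 0 * t) 0 z := by
      intro z
      have h4 := (hΦ z).hasDerivAt.sub ((hasDerivAt_id z).const_mul (deriv Φ 0))
      rw [hdc z, mul_one, sub_self] at h4
      exact h4
    have h4 := is_const_of_deriv_eq_zero (fun z => (h3 z).differentiableAt)
      (fun z => (h3 z).deriv) t 0
    rw [mul_zero, sub_zero] at h4
    linear_combination h4
  refine ⟨deriv Φ 0, Φ 0, fun h0 => ?_, haff⟩
  have h3 : ∀ w z : ℂ, Φ w = Φ z := by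
    intro w z
    rw [haff w, haff z, h0]
    ring
  have h4 := cf_le_sg hΦ 0 m
  rw [sg_of_const h3, zero_pow (Nat.succ_ne_zero m)] at h4
  linarith [hpos 0]

end Pool.Agent.N154.GG
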