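import Pool.Agent.N155.Cur

/-! Holomorphic maps of compact sets of projection matrices to a complex torus, and the lifts of
holomorphic curves to the universal covering of the torus. -/

set_option autoImplicit false

open Filter Topology Metric Set

namespace Pool.Agent.N154.GG

open Pool.Agent.Y190.OP Pool.Agent.N155

variable {N : ℕ}

/-- the curve `P` lies over the function `φ` -/
def Over (Λ : AddSubgroup ℂ) (a : Mat N → ℂ) (P : ℂ → Mat N) (φ : ℂ → ℂ) : Prop :=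
  ∀ z, φ z - a (P z) ∈ Λ

/-- a compact set of projection matrices with a holomorphic map to a complex torus -/
structure TD (T : Set (Mat N)) (Λ : AddSubgroup ℂ) (a : Mat N → ℂ) : Prop where
  comp : IsCompact T
  sub : T ⊆ PM
  disc : ∃ δ > 0, ∀ l ∈ Λ, ‖l‖ < δ → l = 0
  coc : ∃ D : ℝ, ∀ z : ℂ, ∃ l ∈ Λ, ‖z - l‖ ≤ D
  loc : ∀ M0 ∈ T, ∃ (O : Set (Mat N)) (w : Mat N → ℂ), IsOpen O ∧ M0 ∈ O ∧
    (∀ M ∈ O, ContDiffAt ℝ 1 w M) ∧ (∀ M ∈ O ∩ T, a M - w M ∈ Λ) ∧
    ∀ (U : Set ℂ) (P : ℂ → Mat N) (z : ℂ), IsOpen U → z ∈ U → HolP U P → P z ∈ O →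
      DifferentiableAt ℂ (fun t => w (P t)) z

variable {T : Set (Mat N)} {Λ : AddSubgroup ℂ} {a : Mat N → ℂ}

/-- a function with values in the lattice is locally constant -/
theorem TD.ev_const (h : TD T Λ a) {X : Type*} [TopologicalSpace X] {f : X → ℂ} {z0 : X}
    (hc : ContinuousAt f z0) (hf : ∀ᶠ z in 𝓝 z0, f z ∈ Λ) : ∀ᶠ z in 𝓝 z0, f z = f z0 := by
  obtain ⟨δ, hδ, hd⟩ := h.disc
  have h1 : ∀ᶠ z in 𝓝 z0, ‖f z - f z0‖ < δ := by
    have := (Metric.tendsto_nhds.1 hc δ hδ)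
    filter_upwards [this] with z hz
    rwa [dist_eq_norm] at hz
  filter_upwards [h1, hf] with z h2 h3
  exact sub_eq_zero.1 (hd _ (Λ.sub_mem h3 hf.self_of_nhds) h2)

/-- the lattice is closed -/
theorem TD.mem_lim (h : TD T Λ a) {ι : Type*} {l : Filter ι} [l.NeBot] {s : ι → ℂ} {s0 : ℂ}
    (hs : ∀ᶠ i in l, s i ∈ Λ) (ht : Tendsto s l (𝓝 s0)) :
    (∀ᶠ i in l, s i = s0) ∧ s0 ∈ Λ := by
  obtain ⟨δ, hδ, hd⟩ := h.disc
  have h1 : ∀ᶠ i in l, ‖s i - s0‖ < δ / 2 := by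
    filter_upwards [Metric.tendsto_nhds.1 ht (δ / 2) (by positivity)] with i hi
    rwa [dist_eq_norm] at hi
  obtain ⟨i0, hi0, hi0'⟩ := (hs.and h1).exists
  have h2 : ∀ᶠ i in l, s i = s i0 := by
    filter_upwards [hs, h1] with i h3 h4
    refine sub_eq_zero.1 (hd _ (Λ.sub_mem h3 hi0) ?_)
    calc ‖s i - s i0‖ = ‖(s i - s0) - (s i0 - s0)‖ := by congr 1; ring
      _ ≤ ‖s i - s0‖ + ‖s i0 - s0‖ := norm_sub_le _ _
      _ < δ := by linarith
  have h3 : s0 = s i0 := tendsto_nhds_unique ht (tendsto_const_nhds.congr' (by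
    filter_upwards [h2] with i hi
    exact hi.symm))
  rw [h3]
  exact ⟨h2, hi0⟩

theorem ev_const_of_deriv {f : ℂ → ℂ} {z0 : ℂ} (h : ∀ᶠ z in 𝓝 z0, HasDerivAt f 0 z) :
    ∀ᶠ z in 𝓝 z0, f z = f z0 := by
  obtain ⟨r, hr, hsub⟩ := Metric.mem_nhds_iff.1 h
  filter_upwards [ball_mem_nhds z0 hr] with z hz
  have h1 := (convex_ball z0 r).norm_image_sub_le_of_norm_hasDerivWithin_le (f := f)
    (f' := fun _ => 0) (C := 0) (fun x hx => (hsub hx).hasDerivWithinAt) (by simp)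
    (mem_ball_self hr) hz
  rw [zero_mul] at h1
  exact sub_eq_zero.1 (norm_eq_zero.1 (le_antisymm h1 (norm_nonneg _)))

/-- a better local form -/
theorem TD.loc' (h : TD T Λ a) {M0 : Mat N} (hM0 : M0 ∈ T) {δ : ℝ} (hδ : 0 < δ) :
    ∃ (O : Set (Mat N)) (w : Mat N → ℂ), IsOpen O ∧ M0 ∈ O ∧
    (∀ M ∈ O, ContDiffAt ℝ 1 w M) ∧ (∀ M ∈ O ∩ T, a M - w M ∈ Λ) ∧
    (∀ (U : Set ℂ) (P : ℂ → Mat N) (z : ℂ), IsOpen U → z ∈ U → HolP U P → P z ∈ O →
      DifferentiableAt ℂ (fun t => w (P t)) z) ∧ ∀ M ∈ O, ∀ M' ∈ O, ‖w M - w M'‖ < δ := by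
  obtain ⟨O, w, hO, hM, hc, ha, hd⟩ := h.loc M0 hM0
  have h1 : ∀ᶠ M in 𝓝 M0, ‖w M - w M0‖ < δ / 2 := by
    filter_upwards [Metric.tendsto_nhds.1 (hc M0 hM).continuousAt (δ / 2) (by positivity)] with M hM
    rwa [dist_eq_norm] at hM
  obtain ⟨O', hO'sub, hO', hM'⟩ := _root_.mem_nhds_iff.1 h1
  refine ⟨O ∩ O', w, hO.inter hO', ⟨hM, hM'⟩, fun M hM => hc M hM.1,
    fun M hM => ha M ⟨hM.1.1, hM.2⟩, fun U P z hU hz hP hPz => hd U P z hU hz hP hPz.1, ?_⟩
  intro M h2 M' h3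
  have e1 : ‖w M - w M0‖ < δ / 2 := hO'sub h2.2
  have e2 : ‖w M' - w M0‖ < δ / 2 := hO'sub h3.2
  calc ‖w M - w M'‖ = ‖(w M - w M0) - (w M' - w M0)‖ := by congr 1; ring
    _ ≤ ‖w M - w M0‖ + ‖w M' - w M0‖ := norm_sub_le _ _
    _ < δ := by linarith

variable {P Q : ℂ → Mat N} {φ ψ : ℂ → ℂ}

theorem hp_cont (hP : HolP univ P) : Continuous P :=
  continuous_iff_continuousAt.2 fun _ => hP.continuousAt (mem_univ _)

/-- **Lifting** of curves -/
theorem TD.exists_lift (h : TD T Λ a) (hP : HolP univ P) (hT : ∀ z, P z ∈ T) :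
    ∃ φ : ℂ → ℂ, Differentiable ℂ φ ∧ Over Λ a P φ := by
  have hcP := hp_cont hP
  choose O w hO hM hc ha hd using fun z => h.loc (P z) (hT z)
  set u : ℂ → ℂ := fun z => deriv (fun t => w z (P t)) z with hu
  have hdiff : ∀ z0, ∀ᶠ z in 𝓝 z0, DifferentiableAt ℂ (fun t => w z0 (P t)) z := by
    intro z0
    filter_upwards [hcP.continuousAt.eventually ((hO z0).mem_nhds (hM z0))] with z hz
    exact hd z0 univ P z isOpen_univ (mem_univ _) hP hz
  have hloc : ∀ z0, ∀ᶠ z in 𝓝 z0, u z = deriv (fun t => w z0 (P t)) z := by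
    intro z0
    filter_upwards [hcP.continuousAt.eventually ((hO z0).mem_nhds (hM z0))] with z hz
    have e1 : DifferentiableAt ℂ (fun t => w z0 (P t)) z :=
      hd z0 univ P z isOpen_univ (mem_univ _) hP hz
    have e2 : DifferentiableAt ℂ (fun t => w z (P t)) z :=
      hd z univ P z isOpen_univ (mem_univ _) hP (hM z)
    have e3 : ∀ᶠ t in 𝓝 z, w z (P t) - w z0 (P t) ∈ Λ := by
      filter_upwards [hcP.continuousAt.eventually ((hO z0).mem_nhds hz),
        hcP.continuousAt.eventually ((hO z).mem_nhds (hM z))] with t h1 h2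
      have := Λ.sub_mem (ha z0 (P t) ⟨h1, hT t⟩) (ha z (P t) ⟨h2, hT t⟩)
      have e : w z (P t) - w z0 (P t) = a (P t) - w z0 (P t) - (a (P t) - w z (P t)) := by ring
      rw [e]
      exact this
    have e4 := h.ev_const (e2.continuousAt.sub e1.continuousAt) e3
    have e5 : (fun t => w z (P t)) =ᶠ[𝓝 z]
        fun t => w z0 (P t) + (w z (P z) - w z0 (P z)) := by
      filter_upwards [e4] with t ht
      have ht' : w z (P t) - w z0 (P t) = w z (P z) - w z0 (P z) := ht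
      linear_combination ht'
    change deriv (fun t => w z (P t)) z = _
    rw [e5.deriv_eq, deriv_add_const]
  have hud : Differentiable ℂ u := by
    intro z0
    have h1 : DifferentiableAt ℂ (deriv (fun t => w z0 (P t))) z0 := by
      have h2 : AnalyticAt ℂ (fun t => w z0 (P t)) z0 := by
        rw [Complex.analyticAt_iff_eventually_differentiableAt]
        exact hdiff z0
      exact h2.deriv.differentiableAt
    exact h1.congr_of_eventuallyEq (hloc z0)
  obtain ⟨φ0, hφ0⟩ := hud.isExactOn_univ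
  have hφ0' : ∀ z, HasDerivAt φ0 (u z) z := fun z => hφ0 z (mem_univ z)
  set D : ℂ → ℂ := fun z => φ0 z - a (P z) with hD
  have key : ∀ z0, ∀ᶠ z in 𝓝 z0, D z - D z0 ∈ Λ := by
    intro z0
    have h1 : ∀ᶠ z in 𝓝 z0, φ0 z - w z0 (P z) = φ0 z0 - w z0 (P z0) := by
      apply ev_const_of_deriv (f := fun z => φ0 z - w z0 (P z))
      filter_upwards [hdiff z0, hloc z0] with z h2 h3
      have := (hφ0' z).sub h2.hasDerivAt
      rwa [h3, sub_self] at this
    filter_upwards [h1, hcP.continuousAt.eventually ((hO z0).mem_nhds (hM z0))] with z h2 h3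
    have e1 := Λ.sub_mem (ha z0 (P z0) ⟨hM z0, hT z0⟩) (ha z0 (P z) ⟨h3, hT z⟩)
    have e2 : D z - D z0 = a (P z0) - w z0 (P z0) - (a (P z) - w z0 (P z)) := by
      rw [hD]
      linear_combination h2
    rw [e2]
    exact e1
  have hall : ∀ z, D z - D 0 ∈ Λ := by
    set A : Set ℂ := {z | D z - D 0 ∈ Λ} with hA
    have hAo : IsOpen A := by
      rw [isOpen_iff_mem_nhds]
      intro z0 hz0
      filter_upwards [key z0] with z hz
      have := Λ.add_mem hz hz0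
      have e : D z - D 0 = D z - D z0 + (D z0 - D 0) := by ring
      change D z - D 0 ∈ Λ
      rw [e]
      exact this
    have hAc : IsOpen Aᶜ := by
      rw [isOpen_iff_mem_nhds]
      intro z0 hz0
      filter_upwards [key z0] with z hz hz1
      apply hz0
      have hz1' : D z - D 0 ∈ Λ := hz1
      have := Λ.sub_mem hz1' hz
      have e : D z0 - D 0 = D z - D 0 - (D z - D z0) := by ring
      change D z0 - D 0 ∈ Λ
      rw [e]
      exact this
    have hcl : IsClopen A := ⟨⟨hAc⟩, hAo⟩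
    rcases isClopen_iff.1 hcl with h1 | h1
    · exfalso
      have : (0 : ℂ) ∈ A := by
        change D 0 - D 0 ∈ Λ
        rw [sub_self]
        exact Λ.zero_mem
      rw [h1] at this
      exact this
    · intro z
      have : z ∈ A := by rw [h1]; exact mem_univ z
      exact this
  refine ⟨fun z => φ0 z - D 0, fun z => (hφ0' z).differentiableAt.sub_const _, fun z => ?_⟩
  have e : φ0 z - D 0 - a (P z) = D z - D 0 := by rw [hD]; ring
  rw [e]
  exact hall z

/-- two lifts differ by an element of the lattice -/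
theorem TD.over_unique (h : TD T Λ a) (hφ : Differentiable ℂ φ) (hψ : Differentiable ℂ ψ)
    (h1 : Over Λ a P φ) (h2 : Over Λ a P ψ) : ∃ l ∈ Λ, ∀ z, ψ z = φ z + l := by
  have hmem : ∀ z, ψ z - φ z ∈ Λ := by
    intro z
    have := Λ.sub_mem (h2 z) (h1 z)
    have e : ψ z - φ z = ψ z - a (P z) - (φ z - a (P z)) := by ring
    rw [e]
    exact this
  have hc : ∀ z, HasDerivAt (fun z => ψ z - φ z) 0 z := by
    intro z
    have h3 := h.ev_const (f := fun z => ψ z - φ z) (z0 := z)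
      ((hψ.sub hφ).continuous.continuousAt) (Eventually.of_forall hmem)
    exact (hasDerivAt_const z (ψ z - φ z)).congr_of_eventuallyEq h3
  have h4 : ∀ z, ψ z - φ z = ψ 0 - φ 0 := fun z =>
    is_const_of_deriv_eq_zero (hψ.sub hφ) (fun w => (hc w).deriv) z 0
  exact ⟨ψ 0 - φ 0, hmem 0, fun z => by linear_combination h4 z⟩

/-- limits of curves over functions -/
theorem TD.lim (h : TD T Λ a) {ι : Type*} {l : Filter ι} [l.NeBot] {M : ι → Mat N} {M0 : Mat N}
    {s : ι → ℂ} {s0 : ℂ} (hM : ∀ᶠ i in l, M i ∈ T) (ht : Tendsto M l (𝓝 M0)) (hM0 : M0 ∈ T)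
    (hs : ∀ᶠ i in l, s i - a (M i) ∈ Λ) (hst : Tendsto s l (𝓝 s0)) : s0 - a M0 ∈ Λ := by
  obtain ⟨O, w, hO, hMO, hc, ha, -⟩ := h.loc M0 hM0
  have h1 : Tendsto (fun i => s i - w (M i)) l (𝓝 (s0 - w M0)) :=
    hst.sub ((hc M0 hMO).continuousAt.tendsto.comp ht)
  have h2 : ∀ᶠ i in l, s i - w (M i) ∈ Λ := by
    filter_upwards [hM, hs, ht.eventually (hO.mem_nhds hMO)] with i e1 e2 e3
    have := Λ.add_mem e2 (ha _ ⟨e3, e1⟩)
    have e : s i - w (M i) = s i - a (M i) + (a (M i) - w (M i)) := by ring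
    rw [e]
    exact this
  have h3 := (h.mem_lim h2 h1).2
  have := Λ.sub_mem h3 (ha _ ⟨hMO, hM0⟩)
  have e : s0 - a M0 = s0 - w M0 - (a M0 - w M0) := by ring
  rw [e]
  exact this

theorem Over.comp (h : Over Λ a P φ) (f : ℂ → ℂ) : Over Λ a (fun z => P (f z)) (fun z => φ (f z)) :=
  fun z => h (f z)

theorem Over.add (h : Over Λ a P φ) {l : ℂ} (hl : l ∈ Λ) : Over Λ a P (fun z => φ z + l) :=
  fun z => by
    have := Λ.add_mem (h z) hl
    have e : φ z + l - a (P z) = φ z - a (P z) + l := by ring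
    rw [e]
    exact this

end Pool.Agent.N154.GG
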