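import Pool.Agent.N154.GG.Fi

/-! Circles which avoid the crossing points. -/

set_option autoImplicit false

open Filter Topology Metric Set

namespace Pool.Agent.N154.GG

open Pool.Agent.Y190.OP Pool.Agent.N155

variable {N : ℕ} {T : Set (Mat N)} {Λ : AddSubgroup ℂ} {a : Mat N → ℂ}

/-- the product of the distances to the other curves -/
noncomputable def Er {r : ℕ} (e : Fin r → ℂ → Mat N) (i : Fin r) (s : ℂ) : ℝ :=
  ∏ j ∈ Finset.univ.erase i, ‖e i s - e j s‖

theorem Er_cont {r : ℕ} {e : Fin r → ℂ → Mat N} (he : ∀ j, HolP univ (e j)) (i : Fin r) :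
    Continuous (Er e i) := by
  unfold Er
  refine continuous_finsetProd _ fun j _ => ?_
  exact ((hp_cont (he i)).sub (hp_cont (he j))).norm

theorem Er_ev {r : ℕ} {e : Fin r → ℂ → Mat N} (he : ∀ j, HolP univ (e j))
    (hinj : Function.Injective e) (i : Fin r) (s : ℂ) : ∀ᶠ z in 𝓝[≠] s, Er e i z ≠ 0 := by
  have h1 : ∀ j ∈ Finset.univ.erase i, ∀ᶠ z in 𝓝[≠] s, e i z ≠ e j z := by
    intro j hj
    apply codis_ev
    refine (holP_dich (he i) (he j)).resolve_left fun h => ?_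
    exact (Finset.ne_of_mem_erase hj) (hinj (funext h)).symm
  have h2 : ∀ᶠ z in 𝓝[≠] s, ∀ j ∈ Finset.univ.erase i, e i z ≠ e j z :=
    (Finset.eventually_all _).2 h1
  filter_upwards [h2] with z hz
  unfold Er
  exact Finset.prod_ne_zero_iff.2 fun j hj => norm_ne_zero_iff.2 (sub_ne_zero.2 (hz j hj))

/-- **Circles which avoid the crossing points** -/
theorem circles (hT : TD T Λ a) {r : ℕ} {e : Fin r → ℂ → Mat N} (he : ∀ j, HolP univ (e j))
    (hinj : Function.Injective e) {κ : ℕ} (hκ : 0 < κ)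
    (hper : ∀ j, ∀ l ∈ Λ, ∀ z, e j (z + κ * l) = e j z) (i : Fin r) {ρ0 : ℝ} (hρ0 : 0 < ρ0) :
    ∃ ε > 0, ∀ s : ℂ, ∃ ρ > 0, ρ ≤ ρ0 ∧ ∀ s' ∈ sphere s ρ, ε ≤ Er e i s' := by
  obtain ⟨D, hD⟩ := hT.coc
  have hloc : ∃ ε > 0, ∀ s ∈ closedBall (0 : ℂ) (κ * D), ∃ ρ > 0, ρ ≤ ρ0 ∧
      ∀ s' ∈ sphere s ρ, ε ≤ Er e i s' := by
    refine (isCompact_closedBall (0 : ℂ) (κ * D)).induction_on
      (p := fun A => ∃ ε > 0, ∀ s ∈ A, ∃ ρ > 0, ρ ≤ ρ0 ∧ ∀ s' ∈ sphere s ρ, ε ≤ Er e i s')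
      ⟨1, one_pos, fun s hs => absurd hs (notMem_empty _)⟩ ?_ ?_ ?_
    · rintro A A' hAA ⟨ε, hε, h⟩
      exact ⟨ε, hε, fun s hs => h s (hAA hs)⟩
    · rintro A A' ⟨ε, hε, h⟩ ⟨ε', hε', h'⟩
      refine ⟨min ε ε', lt_min hε hε', fun s hs => ?_⟩
      rcases hs with hs | hs
      · obtain ⟨ρ, h1, h2, h3⟩ := h s hs
        exact ⟨ρ, h1, h2, fun s' hs' => (min_le_left _ _).trans (h3 s' hs')⟩
      · obtain ⟨ρ, h1, h2, h3⟩ := h' s hs
        exact ⟨ρ, h1, h2, fun s' hs' => (min_le_right _ _).trans (h3 s' hs')⟩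
    · intro s _
      have h1 := Er_ev he hinj i s
      rw [eventually_nhdsWithin_iff] at h1
      obtain ⟨R, hR, hRs⟩ := Metric.mem_nhds_iff.1 h1
      set ρ : ℝ := min ρ0 (R / 2) with hρ
      have hρpos : 0 < ρ := lt_min hρ0 (by positivity)
      have hρR : ρ < R := lt_of_le_of_lt (min_le_right _ _) (by linarith)
      set A : Set ℂ := closedBall s ρ \ ball s (ρ / 2) with hA
      have hAc : IsCompact A := (isCompact_closedBall s ρ).diff isOpen_ball
      have hApos : ∀ z ∈ A, 0 < Er e i z := by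
        intro z hz
        have h2 : z ≠ s := by
          rintro rfl
          exact hz.2 (mem_ball_self (by positivity))
        have h3 : z ∈ ball s R := closedBall_subset_ball hρR hz.1
        have h4 := hRs h3 h2
        refine lt_of_le_of_ne ?_ (Ne.symm h4)
        unfold Er
        exact Finset.prod_nonneg fun _ _ => norm_nonneg _
      obtain ⟨ε, hε, hεA⟩ : ∃ ε > 0, ∀ z ∈ A, ε ≤ Er e i z := by
        rcases A.eq_empty_or_nonempty with h0 | h0
        · exact ⟨1, one_pos, fun z hz => by rw [h0] at hz; exact absurd hz (notMem_empty _)⟩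
        · obtain ⟨z0, hz0, hmin⟩ := hAc.exists_isMinOn h0 (Er_cont he i).continuousOn
          exact ⟨Er e i z0, hApos z0 hz0, fun z hz => hmin hz⟩
      refine ⟨ball s (ρ / 8), mem_nhdsWithin_of_mem_nhds (ball_mem_nhds s (by positivity)), ε, hε,
        fun s1 hs1 => ⟨3 * ρ / 4, by positivity, ?_, fun s' hs' => hεA s' ?_⟩⟩
      · have := min_le_left ρ0 (R / 2)
        rw [← hρ] at this
        linarith
      · rw [mem_ball, dist_eq_norm] at hs1
        rw [mem_sphere, dist_eq_norm] at hs'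
        have h2 : ‖s' - s‖ ≤ ‖s' - s1‖ + ‖s1 - s‖ := by
          have := norm_add_le (s' - s1) (s1 - s)
          rwa [sub_add_sub_cancel] at this
        have h3 : ‖s' - s1‖ ≤ ‖s' - s‖ + ‖s1 - s‖ := by
          have := norm_sub_le (s' - s) (s1 - s)
          rwa [sub_sub_sub_cancel_right] at this
        constructor
        · rw [mem_closedBall, dist_eq_norm]
          linarith
        · rw [mem_ball, dist_eq_norm, not_lt]
          linarith
  obtain ⟨ε, hε, h⟩ := hloc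
  refine ⟨ε, hε, fun s => ?_⟩
  have hκ0 : (0 : ℝ) < κ := by exact_mod_cast hκ
  have hκc : (κ : ℂ) ≠ 0 := by exact_mod_cast hκ.ne'
  obtain ⟨l, hl, hls⟩ := hD (s / κ)
  have h1 : s - κ * l ∈ closedBall (0 : ℂ) (κ * D) := by
    rw [mem_closedBall_zero_iff]
    have e1 : s - κ * l = κ * (s / κ - l) := by
      field_simp
    rw [e1, norm_mul, Complex.norm_natCast]
    exact mul_le_mul_of_nonneg_left hls hκ0.le
  obtain ⟨ρ, hρ, hρρ, h2⟩ := h _ h1
  refine ⟨ρ, hρ, hρρ, fun s' hs' => ?_⟩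
  have h3 := h2 (s' - κ * l) (by
    rw [mem_sphere, dist_eq_norm] at hs' ⊢
    rwa [sub_sub_sub_cancel_right])
  have h4 : Er e i (s' - κ * l) = Er e i s' := by
    unfold Er
    refine Finset.prod_congr rfl fun j _ => ?_
    have h5 : ∀ j, e j s' = e j (s' - κ * l) := by
      intro j
      have := hper j l hl (s' - κ * l)
      rwa [sub_add_cancel] at this
    rw [h5 i, h5 j]
  rwa [h4] at h3

end Pool.Agent.N154.GG
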