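import Pool.Agent.N154.GG.Grad

/-! Rigidity of entire curves in a surface with a nowhere vanishing section of a twisted power of
the canonical bundle. -/

set_option autoImplicit false

open Filter Topology Metric Set

namespace Pool.Agent.N154.GG

open Pool.Agent.Y190.OP Pool.Agent.N155

variable {N : ℕ}

/-- strict limits -/
theorem strict_lim {ι E F : Type*} [NormedAddCommGroup E] [NormedSpace ℂ E] [NormedAddCommGroup F]
    [NormedSpace ℂ F] {f : E → F} {f' : E →L[ℂ] F} {x v : E} (hf : HasStrictFDerivAt f f' x)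
    {l : Filter ι} {p q : ι → E} {c : ι → ℂ} (hp : Tendsto p l (𝓝 x)) (hq : Tendsto q l (𝓝 x))
    (hv : Tendsto (fun n => c n • (q n - p n)) l (𝓝 v)) :
    Tendsto (fun n => c n • (f (q n) - f (p n))) l (𝓝 (f' v)) := by
  have h2 : (fun n => f (q n) - f (p n) - f' (q n - p n)) =o[l] fun n => q n - p n :=
    hf.isLittleO.comp_tendsto (hq.prodMk_nhds hp)
  have h3 : (fun n => c n • (f (q n) - f (p n) - f' (q n - p n))) =o[l]
      fun n => c n • (q n - p n) := (Asymptotics.isBigO_refl c l).smul_isLittleO h2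
  have h4 : Tendsto (fun n => c n • (f (q n) - f (p n) - f' (q n - p n))) l (𝓝 0) :=
    (Asymptotics.isLittleO_one_iff ℂ).1 (h3.trans_isBigO (hv.isBigO_one ℂ))
  have h5 : Tendsto (fun n => f' (c n • (q n - p n))) l (𝓝 (f' v)) :=
    (f'.continuous.tendsto v).comp hv
  have h6 := h4.add h5
  rw [zero_add] at h6
  refine h6.congr fun n => ?_
  rw [map_smul, ← smul_add]
  congr 1
  abel

/-- the change of charts -/
noncomputable def tr (i' : Fin N) (u : Fin N → ℂ) : Fin N → ℂ := (u i')⁻¹ • u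

theorem tr_strict {i' : Fin N} {x : Fin N → ℂ} (hx : x i' ≠ 0) :
    ∃ f' : (Fin N → ℂ) →L[ℂ] (Fin N → ℂ), HasStrictFDerivAt (tr i') f' x ∧
      ∀ v, f' v = (x i')⁻¹ • (v + (-(v i' / x i')) • x) := by
  have h1 : HasStrictFDerivAt (fun u : Fin N → ℂ => u i')
      (ContinuousLinearMap.proj (R := ℂ) (φ := fun _ : Fin N => ℂ) i') x :=
    (ContinuousLinearMap.proj (R := ℂ) (φ := fun _ : Fin N => ℂ) i').hasStrictFDerivAt
  have h2 := (hasStrictDerivAt_inv hx).comp_hasStrictFDerivAt x h1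
  have h3 := h2.smul (hasStrictFDerivAt_id x)
  refine ⟨_, h3, fun v => ?_⟩
  funext l
  simp only [_root_.add_apply, _root_.smul_apply,
    ContinuousLinearMap.smulRight_apply, ContinuousLinearMap.proj_apply, Pi.add_apply,
    Pi.smul_apply, smul_eq_mul, ContinuousLinearMap.id_apply, Function.comp_apply, id_eq]
  field_simp

theorem chart_tr {M : Mat N} (hM : M ∈ PM) {i i' : Fin N} (hi : M i i ≠ 0) (hi' : M i' i' ≠ 0) :
    chart i' M = tr i' (chart i M) := by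
  obtain ⟨u, hu, rfl⟩ := hM
  have h1 := (Phi_diag_ne hu).1 hi
  have h2 := (Phi_diag_ne hu).1 hi'
  rw [chart_Phi hu h1, chart_Phi hu h2]
  unfold tr
  funext l
  simp only [Pi.smul_apply, smul_eq_mul]
  field_simp

theorem chart_i'_ne {M : Mat N} (hM : M ∈ PM) {i i' : Fin N} (hi : M i i ≠ 0) (hi' : M i' i' ≠ 0) :
    chart i M i' ≠ 0 := by
  obtain ⟨u, hu, rfl⟩ := hM
  have h1 := (Phi_diag_ne hu).1 hi
  have h2 := (Phi_diag_ne hu).1 hi'
  rw [chart_Phi hu h1, Pi.smul_apply, smul_eq_mul]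
  exact mul_ne_zero (inv_ne_zero h1) h2

theorem contDiffAt_chart {M : Mat N} {i : Fin N} (hi : M i i ≠ 0) :
    ContDiffAt ℝ 1 (chart i) M := by
  rw [contDiffAt_pi]
  intro j
  unfold chart
  have h : ∀ j k, ContDiffAt ℝ 1 (fun M : Mat N => M j k) M := fun j k =>
    ((ContinuousLinearMap.proj (R := ℝ) (φ := fun _ : Fin N => ℂ) k).comp
      (ContinuousLinearMap.proj (R := ℝ) (φ := fun _ : Fin N => Fin N → ℂ) j)).contDiff.contDiffAt
  simp only [div_eq_mul_inv]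
  exact (h j i).mul ((h i i).inv hi)

/-- the geometric data: sections of the `ν`-th power, twisted by `-1`, of the determinant of the dual
of the tautological bundle on the Grassmannian of planes in the tangent spaces, without common
zeros -/
structure GD (T : Set (Mat N)) (Λ : AddSubgroup ℂ) (a : Mat N → ℂ) {κ : Type}
    (η : κ → (Fin N → ℂ) → (Fin N → ℂ) → (Fin N → ℂ) → ℂ) : Prop where
  homog : ∀ M ∈ T, ∀ i, M i i ≠ 0 → ∀ (q : κ) (v w : Fin N → ℂ) (c e f : ℂ), c ≠ 0 →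
    η q (c • chart i M) (c • (v + e • chart i M)) (c • (w + f • chart i M)) =
      c⁻¹ * η q (chart i M) v w
  loc : ∀ M0 ∈ T, ∃ (i : Fin N) (d : ℕ) (J : Fin d → Fin N) (O : Set (Mat N))
    (U : Set (Fin d → ℂ)) (Ψ : (Fin d → ℂ) → Fin N → ℂ) (W : (Fin d → ℂ) → ℂ), IsOpen O ∧
    M0 ∈ O ∧ IsOpen U ∧ AnalyticOnNhd ℂ Ψ U ∧ AnalyticOnNhd ℂ W U ∧
    (∀ q, AnalyticOnNhd ℂ (fun p : (Fin d → ℂ) × (Fin d → ℂ) × (Fin d → ℂ) =>
      η q (Ψ p.1) (fderiv ℂ Ψ p.1 p.2.1) (fderiv ℂ Ψ p.1 p.2.2)) (U ×ˢ univ)) ∧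
    (∀ z ∈ U, ∀ v w : Fin d → ℂ, LinearIndependent ℂ ![v, w] →
      ∃ q, η q (Ψ z) (fderiv ℂ Ψ z v) (fderiv ℂ Ψ z w) ≠ 0) ∧
    ∀ M ∈ O, M i i ≠ 0 ∧ (fun k => chart i M (J k)) ∈ U ∧ (M ∈ T →
      chart i M = Ψ (fun k => chart i M (J k)) ∧ a M - W (fun k => chart i M (J k)) ∈ Λ)

variable {T : Set (Mat N)} {Λ : AddSubgroup ℂ} {a : Mat N → ℂ} {κ : Type}
    {η : κ → (Fin N → ℂ) → (Fin N → ℂ) → (Fin N → ℂ) → ℂ}

/-- the hypotheses of the rigidity theorem -/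
structure RD (T : Set (Mat N)) (Λ : AddSubgroup ℂ) (a : Mat N → ℂ) (𝓤 : Ultrafilter ℕ)
    (g : ℂ → Mat N) (Φ : ℂ → ℂ) (B B' : ℝ) (P Q : ℕ → ℂ → Mat N) (φ wt : ℕ → ℂ → ℂ) : Prop where
  hg : HolP univ g
  gT : ∀ z, g z ∈ T
  gov : Over Λ a g (fun z => z)
  gB : ∀ z, ‖fderiv ℝ g z‖ ≤ B
  Φd : Differentiable ℂ Φ
  hP : ∀ m, HolP univ (P m)
  PT : ∀ m z, P m z ∈ T
  hQ : ∀ m, HolP univ (Q m)
  QT : ∀ m z, Q m z ∈ T
  Pov : ∀ m, Over Λ a (P m) (φ m)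
  Qov : ∀ m, Over Λ a (Q m) (φ m)
  wtd : ∀ m, Differentiable ℂ (wt m)
  cP : CConv (𝓤 : Filter ℕ) univ P (fun z => g (Φ z))
  cQ : CConv (𝓤 : Filter ℕ) univ Q (fun z => g (Φ z))
  bd : ∀ L : ℝ, ∀ᶠ m in (𝓤 : Filter ℕ), ∀ z ∈ closedBall (0 : ℂ) L,
    ‖Q m z - P m z‖ * ‖wt m z‖ ≤ B'

variable {𝓤 : Ultrafilter ℕ} {g : ℂ → Mat N} {Φ : ℂ → ℂ} {B B' : ℝ} {P Q : ℕ → ℂ → Mat N}
  {φ wt : ℕ → ℂ → ℂ}

/-- the limit vector -/
noncomputable def Vl (𝓤 : Ultrafilter ℕ) (P Q : ℕ → ℂ → Mat N) (wt : ℕ → ℂ → ℂ) (i : Fin N)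
    (t : ℂ) : Fin N → ℂ :=
  limUnder (𝓤 : Filter ℕ) (fun m => wt m t • (chart i (Q m t) - chart i (P m t)))

theorem RD.bdp (h : RD T Λ a 𝓤 g Φ B B' P Q φ wt) (t : ℂ) :
    ∀ᶠ m in (𝓤 : Filter ℕ), ‖Q m t - P m t‖ * ‖wt m t‖ ≤ B' := by
  filter_upwards [h.bd ‖t‖] with m hm
  exact hm t (mem_closedBall_zero_iff.2 le_rfl)

theorem RD.B'0 (h : RD T Λ a 𝓤 g Φ B B' P Q φ wt) : 0 ≤ B' := by
  obtain ⟨m, hm⟩ := (h.bdp 0).exists
  exact le_trans (by positivity) hm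

theorem lip_chart {M0 : Mat N} {i : Fin N} (hi : M0 i i ≠ 0) : ∃ (L : ℝ) (O : Set (Mat N)),
    0 ≤ L ∧ IsOpen O ∧ M0 ∈ O ∧ (∀ M ∈ O, M i i ≠ 0) ∧
    (∀ M ∈ O, ∀ M' ∈ O, ‖chart i M - chart i M'‖ ≤ L * ‖M - M'‖) ∧
    ∀ M ∈ O, ‖fderiv ℝ (chart i) M‖ ≤ L := by
  obtain ⟨K, s, hs, hK⟩ := (contDiffAt_chart hi).exists_lipschitzOnWith
  have h1 : ∀ᶠ M : Mat N in 𝓝 M0, M i i ≠ 0 :=
    (continuous_apply_apply i i).continuousAt.eventually_ne hi
  have h2 : ContinuousAt (fderiv ℝ (chart i)) M0 :=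
    ((contDiffAt_chart hi).fderiv_right (m := 0) (by norm_num)).continuousAt
  have h3 : ∀ᶠ M in 𝓝 M0, ‖fderiv ℝ (chart i) M‖ < ‖fderiv ℝ (chart i) M0‖ + 1 :=
    h2.norm.eventually_lt_const (lt_add_one _)
  obtain ⟨O, hOs, hO, hMO⟩ := _root_.mem_nhds_iff.1 ((h1.and h3).and hs)
  refine ⟨max (K : ℝ) (‖fderiv ℝ (chart i) M0‖ + 1), O, by positivity, hO, hMO,
    fun M hM => (hOs hM).1.1, fun M hM M' hM' => ?_, fun M hM =>
      (hOs hM).1.2.le.trans (le_max_right _ _)⟩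
  have := hK.dist_le_mul M (hOs hM).2 M' (hOs hM').2
  rw [dist_eq_norm, dist_eq_norm] at this
  exact this.trans (mul_le_mul_of_nonneg_right (le_max_left _ _) (norm_nonneg _))

theorem RD.Vl_lim (h : RD T Λ a 𝓤 g Φ B B' P Q φ wt) (i : Fin N) {t0 : ℂ}
    (hi : g (Φ t0) i i ≠ 0) : AnalyticAt ℂ (Vl 𝓤 P Q wt i) t0 ∧
      ∀ᶠ t in 𝓝 t0, Tendsto (fun m => wt m t • (chart i (Q m t) - chart i (P m t))) 𝓤
        (𝓝 (Vl 𝓤 P Q wt i t)) := by
  obtain ⟨L, O, hL, hO, hMO, hOi, hlip, -⟩ := lip_chart hi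
  have hOn : O ∈ 𝓝 (g (Φ t0)) := hO.mem_nhds hMO
  have h1 : ∀ᶠ p : ℕ × ℂ in (𝓤 : Filter ℕ) ×ˢ 𝓝 t0, P p.1 p.2 ∈ O ∧ Q p.1 p.2 ∈ O :=
    ((h.cP t0 (mem_univ _)).eventually hOn).and ((h.cQ t0 (mem_univ _)).eventually hOn)
  rw [eventually_prod_iff] at h1
  obtain ⟨pa, hpa, pb, hpb, hab⟩ := h1
  obtain ⟨V, hVs, hV, htV⟩ := _root_.mem_nhds_iff.1 (hpb.and (ball_mem_nhds t0 one_pos))
  have hbdV : ∀ᶠ m in (𝓤 : Filter ℕ), ∀ t ∈ V, ∀ l : Fin N,
      ‖wt m t * (chart i (Q m t) l - chart i (P m t) l)‖ ≤ L * B' := by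
    filter_upwards [hpa, h.bd (‖t0‖ + 1)] with m hm1 hm2 t ht l
    obtain ⟨e1, e2⟩ := hab hm1 (hVs ht).1
    have e3 : t ∈ closedBall (0 : ℂ) (‖t0‖ + 1) := by
      have e4 : ‖t - t0‖ < 1 := by
        have := (hVs ht).2
        rwa [dist_eq_norm] at this
      rw [mem_closedBall_zero_iff]
      have := norm_add_le (t - t0) t0
      rw [sub_add_cancel] at this
      linarith
    have e4 : ‖chart i (Q m t) l - chart i (P m t) l‖ ≤ L * ‖Q m t - P m t‖ :=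
      (norm_le_pi_norm (chart i (Q m t) - chart i (P m t)) l).trans (hlip _ e2 _ e1)
    rw [norm_mul]
    calc ‖wt m t‖ * ‖chart i (Q m t) l - chart i (P m t) l‖ ≤
          ‖wt m t‖ * (L * ‖Q m t - P m t‖) := mul_le_mul_of_nonneg_left e4 (norm_nonneg _)
      _ = L * (‖Q m t - P m t‖ * ‖wt m t‖) := by ring
      _ ≤ L * B' := mul_le_mul_of_nonneg_left (hm2 t e3) hL
  have hdV : ∀ᶠ m in (𝓤 : Filter ℕ), ∀ l : Fin N,
      DifferentiableOn ℂ (fun t => wt m t * (chart i (Q m t) l - chart i (P m t) l)) V := by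
    filter_upwards [hpa] with m hm1 l t ht
    obtain ⟨e1, e2⟩ := hab hm1 (hVs ht).1
    have e3 := differentiableAt_pi.1 ((h.hP m).diff_chart (mem_univ t) (hOi _ e1)) l
    have e4 := differentiableAt_pi.1 ((h.hQ m).diff_chart (mem_univ t) (hOi _ e2)) l
    exact ((h.wtd m t).mul (e4.sub e3)).differentiableWithinAt
  have hmon : ∀ l : Fin N, ∃ H : ℂ → ℂ, CConv (𝓤 : Filter ℕ) V
      (fun m t => wt m t * (chart i (Q m t) l - chart i (P m t) l)) H := by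
    intro l
    apply ultra_montel
    intro z hz
    refine ⟨V, hV.mem_nhds hz, L * B', ?_⟩
    filter_upwards [hbdV, hdV] with m e1 e2
    exact ⟨e2 l, fun w hw => e1 w hw l⟩
  choose H hH using hmon
  have hHan : ∀ l, AnalyticAt ℂ (H l) t0 := fun l =>
    (CConv.an (hH l) hV htV ⟨V, hV.mem_nhds htV, by
      filter_upwards [hdV] with m e1
      exact e1 l⟩).1
  have hten : ∀ t ∈ V, Tendsto (fun m => wt m t • (chart i (Q m t) - chart i (P m t))) 𝓤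
      (𝓝 (fun l => H l t)) := by
    intro t ht
    rw [tendsto_pi_nhds]
    intro l
    exact (hH l).pointwise ht
  have hVe : ∀ t ∈ V, Vl 𝓤 P Q wt i t = fun l => H l t := fun t ht => (hten t ht).limUnder_eq
  constructor
  · have h2 : AnalyticAt ℂ (fun t l => H l t) t0 := by
      rw [analyticAt_pi_iff]
      exact hHan
    refine h2.congr ?_
    filter_upwards [hV.mem_nhds htV] with t ht
    exact (hVe t ht).symm
  · filter_upwards [hV.mem_nhds htV] with t ht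
    rw [hVe t ht]
    exact hten t ht

theorem RD.Vl_ten (h : RD T Λ a 𝓤 g Φ B B' P Q φ wt) (i : Fin N) {t0 : ℂ}
    (hi : g (Φ t0) i i ≠ 0) :
    Tendsto (fun m => wt m t0 • (chart i (Q m t0) - chart i (P m t0))) 𝓤
        (𝓝 (Vl 𝓤 P Q wt i t0)) := (h.Vl_lim i hi).2.self_of_nhds

theorem RD.tau (h : RD T Λ a 𝓤 g Φ B B' P Q φ wt) (i : Fin N) {s : ℂ} (hi : g s i i ≠ 0) :
    AnalyticAt ℂ (fun s => chart i (g s)) s := by
  rw [Complex.analyticAt_iff_eventually_differentiableAt]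
  have h1 : ∀ᶠ s' in 𝓝 s, g s' i i ≠ 0 := by
    have : ContinuousAt (fun s' => g s' i i) s :=
      (continuous_apply_apply i i).continuousAt.comp (h.hg.continuousAt (mem_univ s))
    exact this.eventually_ne hi
  filter_upwards [h1] with s' hs'
  exact h.hg.diff_chart (mem_univ s') hs'

theorem RD.tau_le (h : RD T Λ a 𝓤 g Φ B B' P Q φ wt) (i : Fin N) {s : ℂ} (hi : g s i i ≠ 0)
    {L : ℝ} (hL : ‖fderiv ℝ (chart i) (g s)‖ ≤ L) : ‖deriv (fun s => chart i (g s)) s‖ ≤ L * B := by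
  have h1 : HasFDerivAt (fun s => chart i (g s))
      ((fderiv ℂ (fun s => chart i (g s)) s).restrictScalars ℝ) s :=
    (h.hg.diff_chart (mem_univ s) hi).hasFDerivAt.restrictScalars ℝ
  have h2 : HasFDerivAt (fun s => chart i (g s)) ((fderiv ℝ (chart i) (g s)).comp (fderiv ℝ g s)) s :=
    (((contDiffAt_chart hi).differentiableAt (by norm_num)).hasFDerivAt).comp s
      (h.hg.differentiableAt (mem_univ s)).hasFDerivAt
  have h3 := h1.unique h2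
  rw [norm_deriv_eq_norm_fderiv, ← ContinuousLinearMap.norm_restrictScalars (𝕜' := ℝ), h3]
  refine (ContinuousLinearMap.opNorm_comp_le _ _).trans ?_
  exact mul_le_mul hL (h.gB s) (norm_nonneg _) ((norm_nonneg _).trans hL)

/-- the basic functions -/
noncomputable def Tf (η : κ → (Fin N → ℂ) → (Fin N → ℂ) → (Fin N → ℂ) → ℂ) (𝓤 : Ultrafilter ℕ)
    (g : ℂ → Mat N) (Φ : ℂ → ℂ) (P Q : ℕ → ℂ → Mat N) (wt : ℕ → ℂ → ℂ) (q : κ) (i l : Fin N)
    (t : ℂ) : ℂ :=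
  η q (chart i (g (Φ t))) (deriv (fun s => chart i (g s)) (Φ t)) (Vl 𝓤 P Q wt i t) *
    chart i (g (Φ t)) l

theorem RD.ev_diag (h : RD T Λ a 𝓤 g Φ B B' P Q φ wt) (i : Fin N) {t : ℂ}
    (hi : g (Φ t) i i ≠ 0) : (∀ᶠ m in (𝓤 : Filter ℕ), P m t i i ≠ 0 ∧ Q m t i i ≠ 0) ∧
      ∀ᶠ s in 𝓝 (Φ t), g s i i ≠ 0 := by
  have hc := (continuous_apply_apply (ρ := fun (_ : Fin N) (_ : Fin N) => ℂ) i i).continuousAt
    (x := g (Φ t))
  refine ⟨?_, ?_⟩
  · have h1 := (hc.tendsto.comp (h.cP.pointwise (mem_univ t))).eventually_ne hi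
    have h2 := (hc.tendsto.comp (h.cQ.pointwise (mem_univ t))).eventually_ne hi
    exact h1.and h2
  · exact (hc.comp (h.hg.continuousAt (mem_univ (Φ t)))).eventually_ne hi

theorem RD.Tf_indep (hG : GD T Λ a η) (h : RD T Λ a 𝓤 g Φ B B' P Q φ wt) (hTP : T ⊆ PM)
    (q : κ) {i i' : Fin N} (l : Fin N) {t : ℂ} (hi : g (Φ t) i i ≠ 0) (hi' : g (Φ t) i' i' ≠ 0) :
    Tf η 𝓤 g Φ P Q wt q i' l t = Tf η 𝓤 g Φ P Q wt q i l t := by
  have hM := hTP (h.gT (Φ t))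
  have hx := chart_i'_ne hM hi hi'
  obtain ⟨f', hf', hfv⟩ := tr_strict hx
  -- the limit vector
  have e1 : Vl 𝓤 P Q wt i' t = f' (Vl 𝓤 P Q wt i t) := by
    apply tendsto_nhds_unique (h.Vl_ten i' hi')
    have hp : Tendsto (fun m => chart i (P m t)) 𝓤 (𝓝 (chart i (g (Φ t)))) :=
      (continuousAt_chart hi).tendsto.comp (h.cP.pointwise (mem_univ t))
    have hq : Tendsto (fun m => chart i (Q m t)) 𝓤 (𝓝 (chart i (g (Φ t)))) :=
      (continuousAt_chart hi).tendsto.comp (h.cQ.pointwise (mem_univ t))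
    refine (strict_lim hf' hp hq (h.Vl_ten i hi)).congr' ?_
    filter_upwards [(h.ev_diag i hi).1, (h.ev_diag i' hi').1] with m hm hm'
    rw [chart_tr (hTP (h.PT m t)) hm.1 hm'.1, chart_tr (hTP (h.QT m t)) hm.2 hm'.2]
  have e2 : deriv (fun s => chart i' (g s)) (Φ t) = f' (deriv (fun s => chart i (g s)) (Φ t)) := by
    have h1 := (h.tau i hi).differentiableAt.hasDerivAt
    have h2 := hf'.hasFDerivAt.comp_hasDerivAt (Φ t) h1
    have h3 : (fun s => chart i' (g s)) =ᶠ[𝓝 (Φ t)] tr i' ∘ fun s => chart i (g s) := by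
      filter_upwards [(h.ev_diag i hi).2, (h.ev_diag i' hi').2] with s hs hs'
      exact chart_tr (hTP (h.gT s)) hs hs'
    rw [h3.deriv_eq, h2.deriv]
  unfold Tf
  rw [e1, e2, hfv, hfv, chart_tr hM hi hi']
  unfold tr
  rw [hG.homog _ (h.gT _) i hi q _ _ _ _ _ (inv_ne_zero hx), Pi.smul_apply, smul_eq_mul]
  field_simp

end Pool.Agent.N154.GG
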