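import Pool.Agent.N154.GG.Defs
import Pool.Agent.N154.GG.Rig
import Pool.Agent.N155.IR
import Pool.Agent.N155.Clo

/-! From projective manifolds to compact sets of projection matrices. -/

set_option autoImplicit false

open Filter Topology Metric Set LinearAlgebra.Projectivization

namespace Pool.Agent.N154.GG

open FF Pool.Agent.Y190.OP Pool.Agent.W602.GT
open Pool.Agent.N155 (TX isCompact_TX TX_PM exists_shift)

variable {n : ℕ} {ι : Type} {F : ι → MvPolynomial (Fin (n + 1)) ℂ} {d : ℕ} {K : Type} [Field K]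
  [Algebra ℂ K] {y : Fin (n + 1) → K} {L : PeriodPair} {α : (Fin (n + 1) → ℂ) → ℂ ⧸ L.lattice}
  {κ : Type} {η : κ → (Fin (n + 1) → ℂ) → (Fin (n + 1) → ℂ) → (Fin (n + 1) → ℂ) → ℂ}

theorem pts_cone (hX : SmoothVariety F d y) : VarPts ℂ y ⊆ Cone F := fun _ hx =>
  ⟨hx.1, fun i => hx.2 (F i) (hX.form i) (hX.sub.mem i)⟩

theorem TX_cone (hX : SmoothVariety F d y) : TX y = {M | ∃ u ∈ Cone F, M = Phi u} := by
  ext M
  constructor
  · rintro ⟨u, hu, h⟩
    exact ⟨u, pts_cone hX hu, h⟩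
  · rintro ⟨u, hu, h⟩
    exact ⟨u, hX.irred hu, h⟩

theorem cone_smul (hX : SmoothVariety F d y) {u : Fin (n + 1) → ℂ} (hu : u ∈ Cone F) {c : ℂ}
    (hc : c ≠ 0) : c • u ∈ Cone F := by
  refine ⟨smul_ne_zero hc hu.1, fun i => ?_⟩
  obtain ⟨e, he⟩ := hX.form i
  rw [N155.val_eval, N155.eval_smul he, ← N155.val_eval, hu.2 i, mul_zero]

theorem chart_cone (hX : SmoothVariety F d y) {M : Mat (n + 1)} (hM : M ∈ TX y) {i : Fin (n + 1)}
    (hi : M i i ≠ 0) : chart i M ∈ Cone F := by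
  rw [TX_cone hX] at hM
  obtain ⟨u, hu, rfl⟩ := hM
  have h1 := (Phi_diag_ne hu.1).1 hi
  rw [chart_Phi hu.1 h1]
  exact cone_smul hX hu (inv_ne_zero h1)

/-- the function on the matrices -/
noncomputable def aM (L : PeriodPair) (α : (Fin (n + 1) → ℂ) → ℂ ⧸ L.lattice) (F : ι →
    MvPolynomial (Fin (n + 1)) ℂ) (M : Mat (n + 1)) : ℂ := by
  classical
  exact if h : ∃ u ∈ Cone F, M = Phi u then (α h.choose).out else 0

/-- the lattice -/
noncomputable def La (L : PeriodPair) : AddSubgroup ℂ := L.lattice.toAddSubgroup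

theorem mem_La {L : PeriodPair} {z : ℂ} : z ∈ La L ↔ z ∈ L.lattice := Iff.rfl

theorem aM_Phi (hα : HolToTorus (Cone F) L α) {u : Fin (n + 1) → ℂ} (hu : u ∈ Cone F) :
    (Submodule.Quotient.mk (aM L α F (Phi u)) : ℂ ⧸ L.lattice) = α u := by
  classical
  have h : ∃ v ∈ Cone F, Phi u = Phi v := ⟨u, hu, rfl⟩
  unfold aM
  rw [dif_pos h]
  have h1 := h.choose_spec
  obtain ⟨c, hc, hc'⟩ := Phi_inj hu.1 h1.1.1 h1.2
  have h2 : α h.choose = α u := by
    rw [hc']
    exact hα.homog u hu c hc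
  rw [← h2]
  exact Quotient.out_eq _

theorem aM_chart (hX : SmoothVariety F d y) (hα : HolToTorus (Cone F) L α) {M : Mat (n + 1)}
    (hM : M ∈ TX y) {i : Fin (n + 1)} (hi : M i i ≠ 0) :
    (Submodule.Quotient.mk (aM L α F M) : ℂ ⧸ L.lattice) = α (chart i M) := by
  have h1 := chart_cone hX hM hi
  have h2 := aM_Phi hα h1
  rwa [PM.Phi_chart (TX_PM hM) hi] at h2

theorem mem_La_iff {z w : ℂ} : z - w ∈ La L ↔
    (Submodule.Quotient.mk z : ℂ ⧸ L.lattice) = Submodule.Quotient.mk w :=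
  (Submodule.Quotient.eq L.lattice).symm

/-- the torus data -/
theorem td_of (hX : SmoothVariety F d y) (hα : HolToTorus (Cone F) L α) :
    TD (TX y) (La L) (aM L α F) where
  comp := isCompact_TX
  sub := TX_PM
  disc := by
    have h1 : IsOpen ({0} : Set L.lattice) := isOpen_discrete _
    obtain ⟨δ, hδ, h2⟩ := Metric.isOpen_iff.1 h1 0 rfl
    refine ⟨δ, hδ, fun l hl hlδ => ?_⟩
    have h3 : (⟨l, hl⟩ : L.lattice) ∈ ball (0 : L.lattice) δ := by
      rw [mem_ball_zero_iff]
      exact hlδ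
    have h4 := h2 h3
    rw [mem_singleton_iff] at h4
    exact congrArg Subtype.val h4
  coc := by
    refine ⟨‖L.ω₁‖ + ‖L.ω₂‖, fun z => ?_⟩
    obtain ⟨m, k, h⟩ := exists_shift L.indep z
    refine ⟨-(m * L.ω₁ + k * L.ω₂), ?_, by rwa [sub_neg_eq_add]⟩
    exact (La L).neg_mem (PeriodPair.mem_lattice.2 ⟨m, k, rfl⟩)
  loc := by
    intro M0 hM0
    obtain ⟨i, hi⟩ := PM.exists_diag (TX_PM hM0)
    obtain ⟨w, hw, hwe⟩ := hα.hol _ (chart_cone hX hM0 hi)
    have h1 : ∀ᶠ u in 𝓝 (chart i M0), AnalyticAt ℂ w u ∧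
        (u ∈ Cone F → α u = Submodule.Quotient.mk (w u)) := hw.eventually_analyticAt.and hwe
    obtain ⟨V, hVs, hV, hV0⟩ := _root_.mem_nhds_iff.1 h1
    have h2 : ∀ᶠ M : Mat (n + 1) in 𝓝 M0, M i i ≠ 0 ∧ chart i M ∈ V :=
      ((continuous_apply_apply i i).continuousAt.eventually_ne hi).and
        ((continuousAt_chart hi).eventually (hV.mem_nhds hV0))
    obtain ⟨O, hOs, hO, hMO⟩ := _root_.mem_nhds_iff.1 h2
    refine ⟨O, fun M => w (chart i M), hO, hMO, fun M hM => ?_, fun M hM => ?_, ?_⟩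
    · have h3 : ContDiffAt ℝ 1 w (chart i M) :=
        ((hVs (hOs hM).2).1.contDiffAt (n := 1)).restrict_scalars ℝ
      exact h3.comp M (contDiffAt_chart (hOs hM).1)
    · rw [mem_La_iff, aM_chart hX hα hM.2 (hOs hM.1).1]
      exact (hVs (hOs hM.1).2).2 (chart_cone hX hM.2 (hOs hM.1).1)
    · intro U P z _ hz hP hPO
      have h3 := hP.diff_chart hz (hOs hPO).1
      exact ((hVs (hOs hPO).2).1.differentiableAt).comp z h3

/-- the data of the forms -/
theorem gd_of (hX : SmoothVariety F d y) (hα : HolToTorus (Cone F) L α)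
    (hη : PositiveTwoForms (Cone F) d η) : GD (TX y) (La L) (aM L α F) η where
  homog := fun M hM i hi q v w c e f hc => hη.twist q _ (chart_cone hX hM hi) v w c e f hc
  loc := by
    intro M0 hM0
    have hM0' := hM0
    rw [TX_cone hX] at hM0'
    obtain ⟨x0, hx0, rfl⟩ := hM0'
    obtain ⟨i, J, U, Ψ, hxi, hU, hxU, hΨ, hΨX, hev⟩ := hX.smooth x0 hx0
    have hi : Phi x0 i i ≠ 0 := (Phi_diag_ne hx0.1).2 hxi
    have hch : chart i (Phi x0) = (x0 i)⁻¹ • x0 := chart_Phi hx0.1 hxi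
    have hξ0 : (fun k => chart i (Phi x0) (J k)) = fun k => x0 (J k) / x0 i := by
      funext k
      rw [hch, Pi.smul_apply, smul_eq_mul]
      ring
    have hΨ0 : Ψ (fun k => x0 (J k) / x0 i) = chart i (Phi x0) := by
      have h1 := hev.self_of_nhds hx0
      rw [hch]
      conv_rhs => rw [h1]
      rw [smul_smul, Pi.smul_apply, smul_eq_mul, (hΨX _ hxU).2.1, mul_one,
        inv_mul_cancel₀ hxi, one_smul]
    obtain ⟨w, hw, hwe⟩ := hα.hol _ (chart_cone hX hM0 hi)
    have h1 : ∀ᶠ u in 𝓝 (chart i (Phi x0)), AnalyticAt ℂ w u ∧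
        (u ∈ Cone F → α u = Submodule.Quotient.mk (w u)) := hw.eventually_analyticAt.and hwe
    obtain ⟨V, hVs, hV, hV0⟩ := _root_.mem_nhds_iff.1 h1
    have hUo : IsOpen (U ∩ Ψ ⁻¹' V) := hΨ.continuousOn.isOpen_inter_preimage hU hV
    have hU0 : (fun k => chart i (Phi x0) (J k)) ∈ U ∩ Ψ ⁻¹' V := by
      rw [hξ0]
      refine ⟨hxU, ?_⟩
      rw [mem_preimage, hΨ0]
      exact hV0
    have hcξ : ContinuousAt (fun (M : Mat (n + 1)) k => chart i M (J k)) (Phi x0) := by
      rw [continuousAt_pi]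
      intro k
      exact (continuous_apply (J k)).continuousAt.comp (continuousAt_chart hi)
    have h2 : ∀ᶠ M : Mat (n + 1) in 𝓝 (Phi x0), (M i i ≠ 0 ∧ chart i M ∈ V) ∧
        (fun k => chart i M (J k)) ∈ U ∩ Ψ ⁻¹' V ∧
        (x0 i • chart i M ∈ Cone F → x0 i • chart i M =
          (x0 i • chart i M) i • Ψ (fun k => (x0 i • chart i M) (J k) / (x0 i • chart i M) i)) := by
      refine (((continuous_apply_apply i i).continuousAt.eventually_ne hi).and
        ((continuousAt_chart hi).eventually (hV.mem_nhds hV0))).and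
        ((hcξ.eventually (hUo.mem_nhds hU0)).and ?_)
      have h3 : Tendsto (fun M : Mat (n + 1) => x0 i • chart i M) (𝓝 (Phi x0)) (𝓝 x0) := by
        have h4 := (continuousAt_chart hi).tendsto.const_smul (x0 i)
        rwa [hch, smul_smul, mul_inv_cancel₀ hxi, one_smul] at h4
      exact h3.eventually hev
    obtain ⟨O, hOs, hO, hMO⟩ := _root_.mem_nhds_iff.1 h2
    have hΨ' : AnalyticOnNhd ℂ Ψ (U ∩ Ψ ⁻¹' V) := hΨ.mono inter_subset_left
    refine ⟨i, d, J, O, U ∩ Ψ ⁻¹' V, Ψ, fun z => w (Ψ z), hO, hMO, hUo, hΨ', fun z hz => ?_,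
      fun q => hη.hol q _ Ψ hUo hΨ' fun z hz => (hΨX z hz.1).1, fun z hz v u hli => ?_,
      fun M hM => ?_⟩
    · exact AnalyticAt.fun_comp (g := w) (hVs hz.2).1 (hΨ z hz.1)
    · apply hη.pos _ Ψ hUo hΨ' (fun z hz => (hΨX z hz.1).1) z hz v u
      have hd1 := (hΨ z hz.1).differentiableAt.hasFDerivAt
      have hdi : ∀ v, fderiv ℂ Ψ z v i = 0 := by
        intro v
        have h3 : HasFDerivAt (fun z => Ψ z i) ((ContinuousLinearMap.proj (R := ℂ)
          (φ := fun _ : Fin (n + 1) => ℂ) i).comp (fderiv ℂ Ψ z)) z :=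
          (ContinuousLinearMap.proj (R := ℂ) (φ := fun _ : Fin (n + 1) => ℂ) i).hasFDerivAt.comp z
            hd1
        have h4 : HasFDerivAt (fun z => Ψ z i) (0 : (Fin d → ℂ) →L[ℂ] ℂ) z :=
          (hasFDerivAt_const (1 : ℂ) z).congr_of_eventuallyEq (by
            filter_upwards [hU.mem_nhds hz.1] with z' hz'
            exact (hΨX z' hz').2.1)
        have h5 := DFunLike.congr_fun (h3.unique h4) v
        exact h5
      have hdJ : ∀ v k, fderiv ℂ Ψ z v (J k) = v k := by
        intro v k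
        have h3 : HasFDerivAt (fun z => Ψ z (J k)) ((ContinuousLinearMap.proj (R := ℂ)
          (φ := fun _ : Fin (n + 1) => ℂ) (J k)).comp (fderiv ℂ Ψ z)) z :=
          (ContinuousLinearMap.proj (R := ℂ) (φ := fun _ : Fin (n + 1) => ℂ)
            (J k)).hasFDerivAt.comp z hd1
        have h4 : HasFDerivAt (fun z => Ψ z (J k)) (ContinuousLinearMap.proj (R := ℂ)
          (φ := fun _ : Fin d => ℂ) k) z :=
          ((ContinuousLinearMap.proj (R := ℂ)
            (φ := fun _ : Fin d => ℂ) k).hasFDerivAt).congr_of_eventuallyEq (by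
            filter_upwards [hU.mem_nhds hz.1] with z' hz'
            exact (hΨX z' hz').2.2 k)
        have h5 := DFunLike.congr_fun (h3.unique h4) v
        exact h5
      rw [LinearIndependent.pair_iff] at hli
      rw [Fintype.linearIndependent_iff]
      intro g hg
      rw [Fin.sum_univ_three] at hg
      change g 0 • Ψ z + g 1 • fderiv ℂ Ψ z v + g 2 • fderiv ℂ Ψ z u = 0 at hg
      have e0 : g 0 = 0 := by
        have h3 := congrFun hg i
        simp only [Pi.add_apply, Pi.smul_apply, smul_eq_mul, hdi, (hΨX z hz.1).2.1, mul_zero,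
          add_zero, mul_one, Pi.zero_apply] at h3
        exact h3
      have e1 : g 1 • v + g 2 • u = 0 := by
        funext k
        have h3 := congrFun hg (J k)
        simp only [Pi.add_apply, Pi.smul_apply, smul_eq_mul, hdJ, e0, zero_mul, zero_add,
          Pi.zero_apply] at h3 ⊢
        exact h3
      obtain ⟨e2, e3⟩ := hli _ _ e1
      intro k
      fin_cases k
      · exact e0
      · exact e2
      · exact e3
    · obtain ⟨⟨e1, e2⟩, e3, e4⟩ := hOs hM
      refine ⟨e1, e3, fun hMT => ?_⟩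
      have hcone := chart_cone hX hMT e1
      have h5 := e4 (cone_smul hX hcone hxi)
      have h6 : chart i M = Ψ (fun k => chart i M (J k)) := by
        have h7 : (fun k => (x0 i • chart i M) (J k) / (x0 i • chart i M) i) =
            fun k => chart i M (J k) := by
          funext k
          rw [Pi.smul_apply, Pi.smul_apply, smul_eq_mul, smul_eq_mul, PM.chart_self e1, mul_one,
            mul_div_cancel_left₀ _ hxi]
        rw [h7, Pi.smul_apply, smul_eq_mul, PM.chart_self e1, mul_one] at h5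
        exact smul_right_injective _ hxi h5
      refine ⟨h6, ?_⟩
      rw [mem_La_iff, aM_chart hX hα hMT e1]
      change α (chart i M) = Submodule.Quotient.mk (w (Ψ fun k => chart i M (J k)))
      rw [← h6]
      exact (hVs e2).2 hcone

end Pool.Agent.N154.GG
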