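import Pool.Agent.N154.GG.LM
import Pool.Agent.N155.Bar

/-! The local bound of the scale. -/

set_option autoImplicit false

open Filter Topology Metric Set

namespace Pool.Agent.N154.GG

open Pool.Agent.Y190.OP Pool.Agent.N155

variable {N : ℕ}

theorem prod_dist_le {r : ℕ} {M : Mat N} {Q : Fin r → Mat N} (hM : M ∈ PM) (hQ : ∀ j, Q j ∈ PM) :
    ∏ j, ‖M - Q j‖ ≤ 2 ^ r := by
  calc ∏ j, ‖M - Q j‖ ≤ ∏ _j : Fin r, (2 : ℝ) := by
        refine Finset.prod_le_prod (fun _ _ => norm_nonneg _) fun j _ => ?_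
        have := (norm_sub_le M (Q j)).trans (add_le_add (norm_phi_le hM) (norm_phi_le (hQ j)))
        linarith
    _ = 2 ^ r := by rw [Finset.prod_const, Finset.card_univ, Fintype.card_fin]

theorem calc1 {m0 y d0 E : ℝ} (hm0 : 0 < m0) (hy : 0 < y) (n : ℕ) :
    (2 * d0 * (4 * (m0 + 3) * y) ^ (4 * n)) / (y ^ (3 * n) * y ^ (3 * n)) * E =
      d0 / (m0 ^ (3 * n) * m0 ^ (3 * n)) * (2 * E * ((4 * (m0 + 3) * y) ^ 4 * m0 ^ 6 / y ^ 6) ^ n) := by
  rw [div_pow, mul_pow _ (m0 ^ 6), ← pow_mul, ← pow_mul, ← pow_mul]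
  rw [show 6 * n = 3 * n + 3 * n by ring, pow_add, pow_add]
  field_simp

theorem calc2 {m0 Tt d0 E : ℝ} (hm0 : 0 < m0) (hT : 0 < Tt) (n : ℕ) :
    (2 * d0 / Tt ^ (4 * n)) / (1 / (8 * Tt)) ^ (3 * n) * E =
      d0 / (m0 ^ (3 * n) * m0 ^ (3 * n)) * (2 * E * ((8 * Tt) ^ 3 * m0 ^ 6 / Tt ^ 4) ^ n) := by
  rw [div_pow ((8 * Tt) ^ 3 * m0 ^ 6) (Tt ^ 4), div_pow 1 (8 * Tt), mul_pow _ (m0 ^ 6),
    ← pow_mul, ← pow_mul, ← pow_mul]
  rw [show 6 * n = 3 * n + 3 * n by ring, pow_add, one_pow]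
  field_simp

theorem calc3 {m0 y : ℝ} (hm0 : 0 < m0) (hy : y = 32 * (m0 + 3) ^ 2 * m0 ^ 3) :
    (4 * (m0 + 3) * y) ^ 4 * m0 ^ 6 / y ^ 6 ≤ 1 / 2 := by
  have hy0 : 0 < y := by rw [hy]; positivity
  have h1 : (4 * (m0 + 3) * y) ^ 4 * m0 ^ 6 / y ^ 6 = 256 * ((m0 + 3) ^ 4 * m0 ^ 6) / y ^ 2 := by
    field_simp
    ring
  have h3 : y ^ 2 = 1024 * ((m0 + 3) ^ 4 * m0 ^ 6) := by rw [hy]; ring
  have h2 : 0 < (m0 + 3) ^ 4 * m0 ^ 6 := by positivity
  rw [h1, h3, div_le_div_iff₀ (by positivity) (by norm_num)]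
  linarith

theorem calc4 {m0 Tt : ℝ} (hm0 : 0 < m0) (hT : Tt = 1024 * m0 ^ 6) :
    (8 * Tt) ^ 3 * m0 ^ 6 / Tt ^ 4 ≤ 1 / 2 := by
  have hT0 : 0 < Tt := by rw [hT]; positivity
  have h1 : (8 * Tt) ^ 3 * m0 ^ 6 / Tt ^ 4 = 512 * m0 ^ 6 / Tt := by
    field_simp
    ring
  rw [h1, div_le_div_iff₀ (by positivity) (by norm_num), hT]
  linarith

theorem LB_core {r : ℕ} {C m0 : ℝ} (hC : 0 < C) (hm : 3 ≤ m0) :
    ∃ (S R : ℝ) (n0 : ℕ), 0 < S ∧ 0 < R ∧ ∀ n : ℕ, n0 ≤ n → ∀ (P : ℂ → Mat N)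
      (Q : Fin r → ℂ → Mat N) (σ : ℂ → ℝ) (t1 t2 : ℂ), HolP univ P → (∀ j, HolP univ (Q j)) →
      (∀ z, 0 ≤ σ z) → (∀ z w, 4 * ‖w - z‖ * σ z ≤ 1 → σ w ≤ 4 * σ z) →
      (∀ z, ‖fderiv ℝ P z‖ ≤ C * σ z) → (∀ j z, ‖fderiv ℝ (Q j) z‖ ≤ C * σ z) → σ 0 = 1 →
      0 < ∏ j, ‖P 0 - Q j 0‖ →
      (∀ t, ‖t‖ ≤ R → σ t ^ (4 * n) * ∏ j, ‖P t - Q j t‖ ≤ 2 * ∏ j, ‖P 0 - Q j 0‖) →
      ‖t1‖ = m0 - 2 → ‖t2‖ = m0 → S < σ t1 → S < σ t2 → False := by
  have hm0 : 0 < m0 := by linarith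
  set Tt : ℝ := 1024 * m0 ^ 6 with hTt
  have hm1 : 1 ≤ m0 ^ 6 := one_le_pow₀ (by linarith)
  have hT1 : 1 ≤ Tt := by rw [hTt]; linarith
  have hT0 : 0 < Tt := by linarith
  set y : ℝ := 32 * (m0 + 3) ^ 2 * m0 ^ 3 with hy
  have hy1 : 1 ≤ y := by
    have h1 : 1 ≤ (m0 + 3) ^ 2 := one_le_pow₀ (by linarith)
    have h2 : 1 ≤ m0 ^ 3 := one_le_pow₀ (by linarith)
    have h3 : 1 ≤ (m0 + 3) ^ 2 * m0 ^ 3 := one_le_mul_of_one_le_of_one_le h1 h2
    rw [hy]
    linarith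
  set R' : ℝ := m0 + y with hR'
  have hR'0 : 0 < R' := by linarith
  set ρ : ℝ := 1 / (8 * (N * C + 1) * Tt) with hρ
  have hNC : 0 ≤ N * C := by positivity
  have hρ0 : 0 < ρ := by positivity
  have hρ1 : ρ ≤ 1 / (8 * Tt) := by
    rw [hρ]
    apply one_div_le_one_div_of_le (by positivity)
    nlinarith
  have hρ2 : 2 * N * (C * (4 * Tt) * ρ) ≤ 1 := by
    rw [hρ]
    rw [show 2 * N * (C * (4 * Tt) * (1 / (8 * (N * C + 1) * Tt))) = N * C / (N * C + 1) by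
      field_simp
      ring, div_le_one (by positivity)]
    linarith
  have hρ3 : ρ ≤ 1 := hρ1.trans (by
    rw [div_le_one (by positivity)]
    linarith)
  set K2 : ℝ := KN N ^ r * KN N ^ r with hK2
  have hK20 : 0 ≤ K2 := mul_nonneg (pow_nonneg KN_nonneg r) (pow_nonneg KN_nonneg r)
  set γ : ℝ := Real.log (2 * K2 + 1) / ρ ^ 2 with hγ
  have hγ0 : 0 ≤ γ := div_nonneg (Real.log_nonneg (by linarith)) (by positivity)
  have hγ1 : K2 * Real.exp (-(γ * ρ ^ 2)) ≤ 1 / 2 := by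
    rw [hγ, div_mul_cancel₀ _ (by positivity), Real.exp_neg, Real.exp_log (by linarith),
      ← div_eq_mul_inv, div_le_div_iff₀ (by linarith) (by norm_num)]
    linarith
  obtain ⟨n0, hn0⟩ := exists_pow_lt_of_lt_one
    (show 0 < 1 / (2 * Real.exp (γ * (R' + 1) ^ 2)) by positivity)
    (show (1 / 2 : ℝ) < 1 by norm_num)
  refine ⟨4 * Tt, R' + 1, n0, by positivity, by positivity, ?_⟩
  intro n hn P Q σ t1 t2 hP hQ hσ hH hPg hQg hσ0 hd0 hbd ht1 ht2 hs1 hs2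
  set d : ℂ → ℝ := fun t => ∏ j, ‖P t - Q j t‖ with hd
  have hdnn : ∀ t, 0 ≤ d t := fun t => Finset.prod_nonneg fun _ _ => norm_nonneg _
  have hexpn : 2 * Real.exp (γ * (R' + 1) ^ 2) * (1 / 2) ^ n ≤ 1 := by
    have h1 : (1 / 2 : ℝ) ^ n ≤ (1 / 2) ^ n0 := pow_le_pow_of_le_one (by norm_num) (by norm_num) hn
    have h2 := h1.trans hn0.le
    have h3 : 0 < 2 * Real.exp (γ * (R' + 1) ^ 2) := by positivity
    rw [le_div_iff₀ h3] at h2
    linarith
  set w : ℂ → ℝ := fun t => ‖t - t1‖ ^ (3 * n) * ‖t - t2‖ ^ (3 * n) with hw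
  set Γ : ℂ → ℝ := fun t => d t / w t * Real.exp (γ * ‖t‖ ^ 2) with hΓ
  have hwnn : ∀ t, 0 ≤ w t := fun t => by positivity
  have hfar : ∀ t, σ t ≤ Tt → ∀ τ, 4 * Tt < σ τ → 1 / (4 * Tt) < ‖t - τ‖ := by
    intro t ht τ hτ
    by_contra hcon
    push Not at hcon
    rw [norm_sub_rev] at hcon
    have h1 := hH t τ (by
      calc 4 * ‖τ - t‖ * σ t ≤ 4 * (1 / (4 * Tt)) * Tt := by
            have := hσ t
            gcongr
        _ = 1 := by field_simp)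
    linarith
  set D : Set ℂ := {t | ‖t‖ ≤ R' ∧ σ t ≤ Tt} with hDdef
  have h0D : (0 : ℂ) ∈ D := ⟨by rw [norm_zero]; exact hR'0.le, by rw [hσ0]; exact hT1⟩
  have hΓ0 : d 0 / (m0 ^ (3 * n) * m0 ^ (3 * n)) ≤ Γ 0 := by
    rw [hΓ, hw]
    simp only [zero_sub, norm_neg, norm_zero]
    rw [ht1, ht2]
    norm_num
    have hmm : 0 < m0 - 2 := by linarith
    gcongr
    linarith
  have hΓ0pos : 0 < Γ 0 := lt_of_lt_of_le (by positivity) hΓ0
  -- the bound of Γ far away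
  have hfarΓ : ∀ t, ‖t‖ ≤ R' + 1 → (t ∉ D) → (∀ τ, 4 * Tt < σ τ → 1 / (8 * Tt) ≤ ‖t - τ‖) →
      Γ t ≤ Γ 0 := by
    intro t htR htD hfar'
    refine le_trans ?_ hΓ0
    have he : Real.exp (γ * ‖t‖ ^ 2) ≤ Real.exp (γ * (R' + 1) ^ 2) := by
      apply Real.exp_le_exp.2
      gcongr
    by_cases hσt : σ t ≤ Tt
    · -- far from the origin
      have htR' : R' < ‖t‖ := by
        by_contra hcon
        push Not at hcon
        exact htD ⟨hcon, hσt⟩
      have hlow : 1 / (4 * (m0 + 3) * y) ≤ σ t := by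
        have h1 : 1 / (4 * (R' + 1)) ≤ σ t := by
          rcases lt_or_ge 1 (4 * ‖(0 : ℂ) - t‖ * σ t) with h | h
          · rw [zero_sub, norm_neg] at h
            rw [div_le_iff₀ (by positivity)]
            have h2 : 4 * ‖t‖ * σ t ≤ 4 * (R' + 1) * σ t := by
              have := hσ t
              gcongr
            linarith
          · have h2 := hH t 0 h
            rw [hσ0] at h2
            refine le_trans ?_ (show 1 / 4 ≤ σ t by linarith)
            apply one_div_le_one_div_of_le (by norm_num)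
            linarith
        refine le_trans ?_ h1
        apply one_div_le_one_div_of_le (by positivity)
        rw [hR']
        nlinarith
      have hd1 : d t ≤ 2 * d 0 * (4 * (m0 + 3) * y) ^ (4 * n) := by
        have h1 := hbd t htR
        have h2 : (1 / (4 * (m0 + 3) * y)) ^ (4 * n) * d t ≤ σ t ^ (4 * n) * d t := by
          apply mul_le_mul_of_nonneg_right _ (hdnn t)
          exact pow_le_pow_left₀ (by positivity) hlow _
        have h3 := h2.trans h1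
        rw [one_div, inv_pow, inv_mul_le_iff₀ (by positivity)] at h3
        linarith
      have hw1 : y ^ (3 * n) * y ^ (3 * n) ≤ w t := by
        have h1 : ∀ τ : ℂ, ‖τ‖ ≤ m0 → y ≤ ‖t - τ‖ := by
          intro τ hτ
          have := norm_sub_norm_le t τ
          rw [hR'] at htR'
          linarith
        have h2 := h1 t1 (by rw [ht1]; linarith)
        have h3 := h1 t2 (by rw [ht2])
        rw [hw]
        simp only
        gcongr
      calc Γ t ≤ (2 * d 0 * (4 * (m0 + 3) * y) ^ (4 * n)) / (y ^ (3 * n) * y ^ (3 * n)) *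
            Real.exp (γ * (R' + 1) ^ 2) := by
            rw [hΓ]
            simp only
            gcongr
        _ = d 0 / (m0 ^ (3 * n) * m0 ^ (3 * n)) * (2 * Real.exp (γ * (R' + 1) ^ 2) *
            ((4 * (m0 + 3) * y) ^ 4 * m0 ^ 6 / y ^ 6) ^ n) := by
            exact calc1 hm0 (by linarith) n
        _ ≤ d 0 / (m0 ^ (3 * n) * m0 ^ (3 * n)) * 1 := by
            apply mul_le_mul_of_nonneg_left _ (by positivity)
            refine le_trans ?_ hexpn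
            apply mul_le_mul_of_nonneg_left _ (by positivity)
            exact pow_le_pow_left₀ (by positivity) (calc3 hm0 hy) _
        _ = _ := by rw [mul_one]
    · push Not at hσt
      have hd1 : d t ≤ 2 * d 0 / Tt ^ (4 * n) := by
        have h1 := hbd t htR
        have h2 : Tt ^ (4 * n) * d t ≤ σ t ^ (4 * n) * d t := by
          apply mul_le_mul_of_nonneg_right _ (hdnn t)
          exact pow_le_pow_left₀ hT0.le hσt.le _
        rw [le_div_iff₀ (by positivity)]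
        linarith [h2.trans h1]
      have hw1 : (1 / (8 * Tt)) ^ (3 * n) ≤ w t := by
        have h1 := hfar' t1 hs1
        have h2 := hfar' t2 hs2
        have h3 : 2 ≤ ‖t - t1‖ + ‖t - t2‖ := by
          have e1 : ‖t2‖ - ‖t1‖ ≤ ‖t2 - t1‖ := norm_sub_norm_le _ _
          have e2 : ‖t2 - t1‖ ≤ ‖t - t1‖ + ‖t - t2‖ := by
            have := norm_sub_le (t - t1) (t - t2)
            rwa [sub_sub_sub_cancel_left] at this
          rw [ht1, ht2] at e1
          linarith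
        rw [hw]
        simp only
        rcases le_total 1 ‖t - t1‖ with h4 | h4
        · calc (1 / (8 * Tt)) ^ (3 * n) = 1 * (1 / (8 * Tt)) ^ (3 * n) := by ring
            _ ≤ _ := by
              gcongr
              exact one_le_pow₀ h4
        · have h5 : 1 ≤ ‖t - t2‖ := by linarith
          calc (1 / (8 * Tt)) ^ (3 * n) = (1 / (8 * Tt)) ^ (3 * n) * 1 := by ring
            _ ≤ _ := by
              gcongr
              exact one_le_pow₀ h5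
      calc Γ t ≤ (2 * d 0 / Tt ^ (4 * n)) / (1 / (8 * Tt)) ^ (3 * n) *
            Real.exp (γ * (R' + 1) ^ 2) := by
            rw [hΓ]
            simp only
            gcongr
        _ = d 0 / (m0 ^ (3 * n) * m0 ^ (3 * n)) * (2 * Real.exp (γ * (R' + 1) ^ 2) *
            ((8 * Tt) ^ 3 * m0 ^ 6 / Tt ^ 4) ^ n) := by
            exact calc2 hm0 hT0 n
        _ ≤ d 0 / (m0 ^ (3 * n) * m0 ^ (3 * n)) * 1 := by
            apply mul_le_mul_of_nonneg_left _ (by positivity)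
            refine le_trans ?_ hexpn
            apply mul_le_mul_of_nonneg_left _ (by positivity)
            exact pow_le_pow_left₀ (by positivity) (calc4 hm0 hTt) _
        _ = _ := by rw [mul_one]
  -- the supremum
  have hbdd : BddAbove (Γ '' D) := by
    refine ⟨2 ^ r / ((1 / (4 * Tt)) ^ (3 * n) * (1 / (4 * Tt)) ^ (3 * n)) *
      Real.exp (γ * R' ^ 2), ?_⟩
    rintro _ ⟨t, ⟨ht, ht'⟩, rfl⟩
    have h1 : d t ≤ 2 ^ r := prod_dist_le (hP.mem_PM (mem_univ t)) fun j =>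
      (hQ j).mem_PM (mem_univ t)
    have h2 : (1 / (4 * Tt)) ^ (3 * n) * (1 / (4 * Tt)) ^ (3 * n) ≤ w t := by
      have e1 := hfar t ht' t1 hs1
      have e2 := hfar t ht' t2 hs2
      rw [hw]
      simp only
      gcongr
    rw [hΓ]
    simp only
    gcongr
  set Sp : ℝ := sSup (Γ '' D) with hSp
  have hSp0 : Γ 0 ≤ Sp := le_csSup hbdd ⟨0, h0D, rfl⟩
  have hSppos : 0 < Sp := hΓ0pos.trans_le hSp0
  obtain ⟨_, ⟨s, hsD, rfl⟩, hs⟩ := exists_lt_of_lt_csSup (⟨_, ⟨0, h0D, rfl⟩⟩ : (Γ '' D).Nonempty)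
    (show Sp / 2 < sSup (Γ '' D) by rw [← hSp]; linarith)
  -- near the point s
  have hsball : ∀ t ∈ closedBall s ρ, σ t ≤ 4 * Tt := by
    intro t ht
    rw [mem_closedBall, dist_eq_norm] at ht
    have h1 := hH s t (by
      calc 4 * ‖t - s‖ * σ s ≤ 4 * (1 / (8 * Tt)) * Tt := by
            have := hσ s
            gcongr
            · exact ht.trans hρ1
            · exact hsD.2
        _ ≤ 1 := by
            rw [show 4 * (1 / (8 * Tt)) * Tt = 1 / 2 by field_simp; norm_num]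
            norm_num)
    linarith [hsD.2]
  have hfar' : ∀ t ∈ closedBall s ρ, ∀ τ, 4 * Tt < σ τ → 1 / (8 * Tt) ≤ ‖t - τ‖ := by
    intro t ht τ hτ
    rw [mem_closedBall, dist_eq_norm] at ht
    have h1 := hfar s hsD.2 τ hτ
    have h2 : ‖s - τ‖ ≤ ‖t - s‖ + ‖t - τ‖ := by
      have := norm_sub_le (t - τ) (t - s)
      rw [sub_sub_sub_cancel_left] at this
      linarith
    have h3 : 1 / (4 * Tt) = 1 / (8 * Tt) + 1 / (8 * Tt) := by
      field_simp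
      norm_num
    linarith [ht.trans hρ1]
  have hΓs : ∀ t ∈ closedBall s ρ, Γ t ≤ Sp := by
    intro t ht
    by_cases htD : t ∈ D
    · exact le_csSup hbdd ⟨t, htD, rfl⟩
    · refine (hfarΓ t ?_ htD (hfar' t ht)).trans hSp0
      rw [mem_closedBall, dist_eq_norm] at ht
      have := norm_add_le (t - s) s
      rw [sub_add_cancel] at this
      linarith [hsD.1]
  have hosc : ∀ {X : ℂ → Mat N}, HolP univ X → (∀ z, ‖fderiv ℝ X z‖ ≤ C * σ z) →
      ∀ t ∈ closedBall s ρ, 2 * N * ‖X t - X s‖ ≤ 1 := by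
    intro X hX hXg t ht
    have h1 : ‖X t - X s‖ ≤ C * (4 * Tt) * ‖t - s‖ :=
      (convex_closedBall s ρ).norm_image_sub_le_of_norm_fderiv_le
        (fun x _ => hX.differentiableAt (mem_univ x))
        (fun x hx => (hXg x).trans (mul_le_mul_of_nonneg_left (hsball x hx) hC.le))
        (mem_closedBall_self hρ0.le) ht
    rw [mem_closedBall, dist_eq_norm] at ht
    calc 2 * N * ‖X t - X s‖ ≤ 2 * N * (C * (4 * Tt) * ρ) := by
          apply mul_le_mul_of_nonneg_left _ (by positivity)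
          exact h1.trans (mul_le_mul_of_nonneg_left ht (by positivity))
      _ ≤ 1 := hρ2
  set G : ℂ → ℂ := fun t => ((t - t1) ^ (3 * n) * (t - t2) ^ (3 * n))⁻¹ *
    Complex.exp ((-2 * ((-γ : ℝ) : ℂ) * (starRingEnd ℂ) s) * (t - s)) with hGdef
  have hnz : ∀ t ∈ closedBall s ρ, (t - t1) ^ (3 * n) * (t - t2) ^ (3 * n) ≠ 0 := by
    intro t ht
    have h1 := hfar' t ht t1 hs1
    have h2 := hfar' t ht t2 hs2
    have h3 : 0 < 1 / (8 * Tt) := by positivity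
    exact mul_ne_zero (pow_ne_zero _ (norm_pos_iff.1 (h3.trans_le h1)))
      (pow_ne_zero _ (norm_pos_iff.1 (h3.trans_le h2)))
  have hGn : ∀ t, ‖G t‖ = (w t)⁻¹ * Real.exp (γ * (‖t‖ ^ 2 - ‖s‖ ^ 2 - ‖t - s‖ ^ 2)) := by
    intro t
    rw [hGdef]
    simp only
    rw [norm_mul, norm_inv, norm_mul, norm_pow, norm_pow, Complex.norm_exp, re_id, neg_neg]
  have h1 := locmax hP hQ hρ0 (hosc hP hPg) (fun j => hosc (hQ j) (hQg j)) (G := G) (by
    intro t ht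
    refine DifferentiableAt.mul (DifferentiableAt.inv (by fun_prop) (hnz t ht)) ?_
    fun_prop) (B := Sp * Real.exp (-(γ * ‖s‖ ^ 2)) * Real.exp (-(γ * ρ ^ 2))) (by
    intro t ht
    rw [hGn]
    have h2 := hΓs t (sphere_subset_closedBall ht)
    rw [mem_sphere, dist_eq_norm] at ht
    rw [ht]
    have h3 : (∏ j, ‖P t - Q j t‖) * ((w t)⁻¹ * Real.exp (γ * (‖t‖ ^ 2 - ‖s‖ ^ 2 - ρ ^ 2))) =
        Γ t * Real.exp (-(γ * ‖s‖ ^ 2)) * Real.exp (-(γ * ρ ^ 2)) := by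
      rw [show γ * (‖t‖ ^ 2 - ‖s‖ ^ 2 - ρ ^ 2) = γ * ‖t‖ ^ 2 + -(γ * ‖s‖ ^ 2) + -(γ * ρ ^ 2) by
        ring, Real.exp_add, Real.exp_add, hΓ]
      simp only
      rw [div_eq_mul_inv]
      ring
    rw [h3]
    gcongr)
  rw [hGn, sub_self s, norm_zero] at h1
  have h2 : (∏ j, ‖P s - Q j s‖) * ((w s)⁻¹ * Real.exp (γ * (‖s‖ ^ 2 - ‖s‖ ^ 2 - 0 ^ 2))) =
      Γ s * Real.exp (-(γ * ‖s‖ ^ 2)) := by
    rw [show γ * (‖s‖ ^ 2 - ‖s‖ ^ 2 - 0 ^ 2) = γ * ‖s‖ ^ 2 + -(γ * ‖s‖ ^ 2) by ring,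
      Real.exp_add, hΓ]
    simp only
    rw [div_eq_mul_inv]
    ring
  rw [h2] at h1
  have h3 : KN N ^ r * (KN N ^ r * (Sp * Real.exp (-(γ * ‖s‖ ^ 2)) * Real.exp (-(γ * ρ ^ 2)))) =
      (K2 * Real.exp (-(γ * ρ ^ 2)) * Sp) * Real.exp (-(γ * ‖s‖ ^ 2)) := by
    rw [hK2]
    ring
  rw [h3] at h1
  have h4 := le_of_mul_le_mul_right h1 (Real.exp_pos _)
  have h5 := mul_le_mul_of_nonneg_right hγ1 hSppos.le
  linarith

end Pool.Agent.N154.GG
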