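import Pool.Agent.N154.GG.Basic

/-! The distance of two holomorphic curves and the maximum principle. -/

set_option autoImplicit false

open Filter Topology Metric Set

namespace Pool.Agent.N154.GG

open Pool.Agent.Y190.OP Pool.Agent.N155

variable {N : ℕ}

/-- the wedge product -/
def wd (u v : Fin N → ℂ) : Mat N := fun j l => u j * v l - u l * v j

theorem nsq_conj (u : Fin N → ℂ) : (starRingEnd ℂ) (nsq u) = nsq u := by
  rw [nsq_eq, Complex.conj_ofReal]

theorem phi_sub {u v : Fin N → ℂ} (hu : u ≠ 0) (hv : v ≠ 0) (j k : Fin N) :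
    (Phi u j k - Phi v j k) * (nsq u * nsq v) =
      ∑ l, (u j * v l * (starRingEnd ℂ) (wd u v k l) +
        (starRingEnd ℂ) (u l) * (starRingEnd ℂ) (v k) * wd u v j l) := by
  have h1 := nsq_ne hu
  have h2 := nsq_ne hv
  have e1 : (Phi u j k - Phi v j k) * (nsq u * nsq v) =
      u j * (starRingEnd ℂ) (u k) * nsq v - v j * (starRingEnd ℂ) (v k) * nsq u := by
    unfold Phi
    field_simp
  rw [e1]
  unfold nsq
  rw [Finset.mul_sum, Finset.mul_sum, ← Finset.sum_sub_distrib]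
  refine Finset.sum_congr rfl fun l _ => ?_
  unfold wd
  rw [map_sub, map_mul, map_mul]
  ring

theorem norm_nsq_ge {u : Fin N → ℂ} {i : Fin N} (hi : u i = 1) : 1 ≤ ‖nsq u‖ := by
  rw [nsq_eq, Complex.norm_real, Real.norm_of_nonneg (Finset.sum_nonneg fun _ _ => by positivity)]
  have h1 := Finset.single_le_sum (f := fun l => ‖u l‖ ^ 2) (fun _ _ => by positivity)
    (Finset.mem_univ i)
  simp only [hi, norm_one, one_pow] at h1
  exact h1

theorem phi_le_wd {u v : Fin N → ℂ} {i i' : Fin N} (hi : u i = 1) (hi' : v i' = 1) {c : ℝ}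
    (hu : ‖u‖ ≤ c) (hv : ‖v‖ ≤ c) : ‖Phi u - Phi v‖ ≤ 2 * N * c ^ 2 * ‖wd u v‖ := by
  have hu0 : u ≠ 0 := fun h => by
    rw [h] at hi
    exact zero_ne_one hi
  have hv0 : v ≠ 0 := fun h => by
    rw [h] at hi'
    exact zero_ne_one hi'
  have hc : 0 ≤ c := (norm_nonneg u).trans hu
  have hB : 0 ≤ 2 * N * c ^ 2 * ‖wd u v‖ := by positivity
  rw [pi_norm_le_iff_of_nonneg hB]
  intro j
  rw [pi_norm_le_iff_of_nonneg hB]
  intro k
  have h1 := congrArg norm (phi_sub hu0 hv0 j k)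
  rw [norm_mul, norm_mul] at h1
  have h2 : 1 ≤ ‖nsq u‖ * ‖nsq v‖ := one_le_mul_of_one_le_of_one_le (norm_nsq_ge hi)
    (norm_nsq_ge hi')
  have h3 : ‖Phi u j k - Phi v j k‖ ≤ ‖Phi u j k - Phi v j k‖ * (‖nsq u‖ * ‖nsq v‖) :=
    le_mul_of_one_le_right (norm_nonneg _) h2
  have huj : ∀ l, ‖u l‖ ≤ c := fun l => (norm_le_pi_norm u l).trans hu
  have hvj : ∀ l, ‖v l‖ ≤ c := fun l => (norm_le_pi_norm v l).trans hv
  have hw : ∀ j l, ‖wd u v j l‖ ≤ ‖wd u v‖ := fun j l =>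
    (norm_le_pi_norm (wd u v j) l).trans (norm_le_pi_norm (wd u v) j)
  change ‖Phi u j k - Phi v j k‖ ≤ _
  refine h3.trans ?_
  rw [h1]
  refine (norm_sum_le _ _).trans ?_
  have h4 : ∀ l ∈ (Finset.univ : Finset (Fin N)), ‖u j * v l * (starRingEnd ℂ) (wd u v k l) +
      (starRingEnd ℂ) (u l) * (starRingEnd ℂ) (v k) * wd u v j l‖ ≤ 2 * c ^ 2 * ‖wd u v‖ := by
    intro l _
    refine (norm_add_le _ _).trans ?_
    rw [norm_mul, norm_mul, norm_mul, norm_mul, RCLike.norm_conj, RCLike.norm_conj,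
      RCLike.norm_conj]
    have e1 : ‖u j‖ * ‖v l‖ * ‖wd u v k l‖ ≤ c * c * ‖wd u v‖ := by
      gcongr
      · exact huj j
      · exact hvj l
      · exact hw k l
    have e2 : ‖u l‖ * ‖v k‖ * ‖wd u v j l‖ ≤ c * c * ‖wd u v‖ := by
      gcongr
      · exact huj l
      · exact hvj k
      · exact hw j l
    calc _ ≤ c * c * ‖wd u v‖ + c * c * ‖wd u v‖ := add_le_add e1 e2
      _ = 2 * c ^ 2 * ‖wd u v‖ := by ring
  refine (Finset.sum_le_sum h4).trans (le_of_eq ?_)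
  rw [Finset.sum_const, Finset.card_univ, Fintype.card_fin, nsmul_eq_mul]
  ring

theorem wd_le_phi {u v : Fin N → ℂ} (hu0 : u ≠ 0) (hv0 : v ≠ 0) {c : ℝ}
    (hu : ‖u‖ ≤ c) (hv : ‖v‖ ≤ c) : ‖wd u v‖ ≤ 2 * N * c ^ 2 * ‖Phi u - Phi v‖ := by
  have hc : 0 ≤ c := (norm_nonneg u).trans hu
  set D : Mat N := Phi u - Phi v with hD
  set γ : ℂ := (∑ k, (starRingEnd ℂ) (u k) * v k) / nsq u with hγ
  have h1 := nsq_ne hu0
  have h2 := nsq_ne hv0
  have hDv : ∀ j, ∑ k, D j k * v k = γ * u j - v j := by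
    intro j
    have e1 : ∑ k, Phi u j k * v k = γ * u j := by
      rw [hγ, div_mul_eq_mul_div, eq_div_iff h1, Finset.sum_mul, Finset.sum_mul]
      refine Finset.sum_congr rfl fun k _ => ?_
      unfold Phi
      field_simp
    have e2 : ∑ k, Phi v j k * v k = v j := by
      have : ∑ k, Phi v j k * v k = v j * nsq v / nsq v := by
        rw [eq_div_iff h2, Finset.sum_mul]
        unfold nsq
        rw [Finset.mul_sum]
        refine Finset.sum_congr rfl fun k _ => ?_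
        have h2' : (∑ l, v l * (starRingEnd ℂ) (v l)) ≠ 0 := h2
        unfold Phi nsq
        field_simp
      rw [this, mul_div_cancel_right₀ _ h2]
    rw [← e1, show (∑ k, Phi u j k * v k) - v j = (∑ k, Phi u j k * v k) -
      ∑ k, Phi v j k * v k by rw [e2], ← Finset.sum_sub_distrib]
    refine Finset.sum_congr rfl fun k _ => ?_
    rw [hD]
    change (Phi u j k - Phi v j k) * v k = _
    ring
  have hDb : ∀ j, ‖∑ k, D j k * v k‖ ≤ N * (‖D‖ * c) := by
    intro j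
    refine (norm_sum_le _ _).trans ?_
    have h4 : ∀ k ∈ (Finset.univ : Finset (Fin N)), ‖D j k * v k‖ ≤ ‖D‖ * c := by
      intro k _
      rw [norm_mul]
      exact mul_le_mul ((norm_le_pi_norm (D j) k).trans (norm_le_pi_norm D j))
        ((norm_le_pi_norm v k).trans hv) (norm_nonneg _) (norm_nonneg _)
    refine (Finset.sum_le_sum h4).trans (le_of_eq ?_)
    rw [Finset.sum_const, Finset.card_univ, Fintype.card_fin, nsmul_eq_mul]
  have hB : 0 ≤ 2 * N * c ^ 2 * ‖D‖ := by positivity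
  rw [pi_norm_le_iff_of_nonneg hB]
  intro j
  rw [pi_norm_le_iff_of_nonneg hB]
  intro l
  have e3 : wd u v j l = u l * (∑ k, D j k * v k) - u j * (∑ k, D l k * v k) := by
    rw [hDv, hDv]
    unfold wd
    ring
  rw [e3]
  refine (norm_sub_le _ _).trans ?_
  rw [norm_mul, norm_mul]
  have huj : ∀ l, ‖u l‖ ≤ c := fun l => (norm_le_pi_norm u l).trans hu
  calc _ ≤ c * (N * (‖D‖ * c)) + c * (N * (‖D‖ * c)) :=
        add_le_add (mul_le_mul (huj l) (hDb j) (norm_nonneg _) hc)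
          (mul_le_mul (huj j) (hDb l) (norm_nonneg _) hc)
    _ = 2 * N * c ^ 2 * ‖D‖ := by ring

/-- a large diagonal entry -/
theorem exists_large {M : Mat N} (hM : M ∈ PM) : ∃ i, 1 ≤ N * ‖M i i‖ := by
  obtain ⟨u, hu, rfl⟩ := hM
  have h1 : ∑ i, Phi u i i = 1 := by
    have h2 : ∑ i, Phi u i i = (∑ i, u i * (starRingEnd ℂ) (u i)) / nsq u := by
      rw [Finset.sum_div]
      rfl
    rw [h2]
    exact div_self (nsq_ne hu)
  by_contra hcon
  push Not at hcon
  obtain ⟨i0, -⟩ := Function.ne_iff.1 hu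
  have hN : 0 < (N : ℝ) := by
    have := i0.pos
    exact_mod_cast this
  have h3 : (1 : ℝ) ≤ ∑ i, ‖Phi u i i‖ := by
    calc (1 : ℝ) = ‖∑ i, Phi u i i‖ := by rw [h1, norm_one]
      _ ≤ _ := norm_sum_le _ _
  have h4 : ∑ i : Fin N, ‖Phi u i i‖ < ∑ _i : Fin N, 1 / (N : ℝ) := by
    apply Finset.sum_lt_sum_of_nonempty ⟨i0, Finset.mem_univ _⟩
    intro i _
    rw [lt_div_iff₀ hN]
    linarith [hcon i]
  rw [Finset.sum_const, Finset.card_univ, Fintype.card_fin, nsmul_eq_mul,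
    mul_one_div_cancel hN.ne'] at h4
  linarith

theorem norm_phi_le {M : Mat N} (hM : M ∈ PM) : ‖M‖ ≤ 1 := by
  obtain ⟨u, hu, rfl⟩ := hM
  rw [pi_norm_le_iff_of_nonneg zero_le_one]
  intro j
  rw [pi_norm_le_iff_of_nonneg zero_le_one]
  intro k
  unfold Phi
  have h1 : ‖nsq u‖ = ∑ l, ‖u l‖ ^ 2 := by
    rw [nsq_eq, Complex.norm_real,
      Real.norm_of_nonneg (Finset.sum_nonneg fun _ _ => by positivity)]
  have h2 : 0 < ‖nsq u‖ := norm_pos_iff.2 (nsq_ne hu)
  rw [norm_div, norm_mul, RCLike.norm_conj, div_le_one h2, h1]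
  have h3 : ∀ l, ‖u l‖ ^ 2 ≤ ∑ l, ‖u l‖ ^ 2 := fun l =>
    Finset.single_le_sum (f := fun l => ‖u l‖ ^ 2) (fun _ _ => by positivity) (Finset.mem_univ l)
  nlinarith [h3 j, h3 k, sq_nonneg (‖u j‖ - ‖u k‖)]

theorem chart_bound {M M' : Mat N} {i : Fin N} (hi : 1 ≤ N * ‖M i i‖)
    (hM' : M' ∈ PM) (h : 2 * N * ‖M' - M‖ ≤ 1) : M' i i ≠ 0 ∧ ‖chart i M'‖ ≤ 2 * N := by
  have hN : 0 < (N : ℝ) := by
    have := i.pos
    exact_mod_cast this
  have h1 : ‖M' i i - M i i‖ ≤ ‖M' - M‖ :=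
    (norm_le_pi_norm ((M' - M) i) i).trans (norm_le_pi_norm (M' - M) i)
  have h2 : ‖M i i‖ ≤ ‖M' i i‖ + ‖M' i i - M i i‖ := by
    have := norm_sub_le (M' i i) (M' i i - M i i)
    rwa [sub_sub_cancel] at this
  have h3 : 1 ≤ 2 * N * ‖M' i i‖ := by
    have e1 := mul_le_mul_of_nonneg_left h1 hN.le
    have e2 := mul_le_mul_of_nonneg_left h2 hN.le
    nlinarith
  have h4 : 0 < ‖M' i i‖ := by
    by_contra hcon
    push Not at hcon
    have : ‖M' i i‖ = 0 := le_antisymm hcon (norm_nonneg _)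
    rw [this, mul_zero] at h3
    linarith
  refine ⟨norm_pos_iff.1 h4, ?_⟩
  rw [pi_norm_le_iff_of_nonneg (by positivity)]
  intro j
  unfold chart
  rw [norm_div, div_le_iff₀ h4]
  have h5 : ‖M' j i‖ ≤ 1 := ((norm_le_pi_norm (M' j) i).trans (norm_le_pi_norm M' j)).trans
    (norm_phi_le hM')
  linarith

/-- the constant of the maximum principle -/
noncomputable def KN (N : ℕ) : ℝ := 2 * N * (2 * N) ^ 2

theorem KN_nonneg : 0 ≤ KN N := by
  unfold KN
  positivity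

/-- **Local maximum principle** -/
theorem locmax {r : ℕ} {P : ℂ → Mat N} {Q : Fin r → ℂ → Mat N} (hP : HolP univ P)
    (hQ : ∀ j, HolP univ (Q j)) {s : ℂ} {ρ : ℝ} (hρ : 0 < ρ)
    (hoP : ∀ t ∈ closedBall s ρ, 2 * N * ‖P t - P s‖ ≤ 1)
    (hoQ : ∀ j, ∀ t ∈ closedBall s ρ, 2 * N * ‖Q j t - Q j s‖ ≤ 1) {G : ℂ → ℂ}
    (hG : ∀ t ∈ closedBall s ρ, DifferentiableAt ℂ G t) {B : ℝ}
    (hB : ∀ t ∈ sphere s ρ, (∏ j, ‖P t - Q j t‖) * ‖G t‖ ≤ B) :
    (∏ j, ‖P s - Q j s‖) * ‖G s‖ ≤ KN N ^ r * (KN N ^ r * B) := by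
  classical
  obtain ⟨i, hi⟩ := exists_large (hP.mem_PM (mem_univ s))
  choose i' hi' using fun j => exists_large ((hQ j).mem_PM (mem_univ s))
  set u : ℂ → Fin N → ℂ := fun t => chart i (P t) with hu
  set v : Fin r → ℂ → Fin N → ℂ := fun j t => chart (i' j) (Q j t) with hv
  have hPt : ∀ t ∈ closedBall s ρ, P t i i ≠ 0 ∧ ‖u t‖ ≤ 2 * N := fun t ht =>
    chart_bound hi (hP.mem_PM (mem_univ t)) (hoP t ht)
  have hQt : ∀ j, ∀ t ∈ closedBall s ρ, Q j t (i' j) (i' j) ≠ 0 ∧ ‖v j t‖ ≤ 2 * N :=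
    fun j t ht => chart_bound (hi' j) ((hQ j).mem_PM (mem_univ t)) (hoQ j t ht)
  have hPphi : ∀ t ∈ closedBall s ρ, P t = Phi (u t) := fun t ht =>
    (PM.Phi_chart (hP.mem_PM (mem_univ t)) (hPt t ht).1).symm
  have hQphi : ∀ j, ∀ t ∈ closedBall s ρ, Q j t = Phi (v j t) := fun j t ht =>
    (PM.Phi_chart ((hQ j).mem_PM (mem_univ t)) (hQt j t ht).1).symm
  have hs : s ∈ closedBall s ρ := mem_closedBall_self hρ.le
  -- the indices
  have hind : ∀ j, ∃ p : Fin N × Fin N, ‖P s - Q j s‖ ≤ KN N * ‖wd (u s) (v j s) p.1 p.2‖ := by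
    intro j
    have h1 := phi_le_wd (PM.chart_self (hPt s hs).1) (PM.chart_self (hQt j s hs).1)
      (hPt s hs).2 (hQt j s hs).2
    have : Nonempty (Fin N) := ⟨i⟩
    obtain ⟨a, ha⟩ : ∃ a, ‖wd (u s) (v j s)‖ = ‖wd (u s) (v j s) a‖ := by
      obtain ⟨a, -, ha⟩ := Finset.exists_mem_eq_sup' (s := (Finset.univ : Finset (Fin N)))
        Finset.univ_nonempty (fun a => ‖wd (u s) (v j s) a‖)
      refine ⟨a, ?_⟩
      rw [← ha]
      apply le_antisymm
      · rw [pi_norm_le_iff_of_nonneg ((norm_nonneg _).trans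
          (Finset.le_sup' (fun a => ‖wd (u s) (v j s) a‖) (Finset.mem_univ i)))]
        intro b
        exact Finset.le_sup' (fun a => ‖wd (u s) (v j s) a‖) (Finset.mem_univ b)
      · rw [ha]
        exact norm_le_pi_norm _ a
    obtain ⟨b, hb⟩ : ∃ b, ‖wd (u s) (v j s) a‖ = ‖wd (u s) (v j s) a b‖ := by
      obtain ⟨b, -, hb⟩ := Finset.exists_mem_eq_sup' (s := (Finset.univ : Finset (Fin N)))
        Finset.univ_nonempty (fun b => ‖wd (u s) (v j s) a b‖)
      refine ⟨b, ?_⟩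
      rw [← hb]
      apply le_antisymm
      · rw [pi_norm_le_iff_of_nonneg ((norm_nonneg _).trans
          (Finset.le_sup' (fun b => ‖wd (u s) (v j s) a b‖) (Finset.mem_univ i)))]
        intro c
        exact Finset.le_sup' (fun b => ‖wd (u s) (v j s) a b‖) (Finset.mem_univ c)
      · rw [hb]
        exact norm_le_pi_norm _ b
    refine ⟨(a, b), ?_⟩
    rw [hPphi s hs, hQphi j s hs, ← hb, ← ha]
    exact h1
  choose p hp using hind
  -- the holomorphic function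
  set f : ℂ → ℂ := fun t => (∏ j, wd (u t) (v j t) (p j).1 (p j).2) * G t with hf
  have hud : ∀ t ∈ closedBall s ρ, ∀ k, DifferentiableAt ℂ (fun t => u t k) t := fun t ht k =>
    differentiableAt_pi.1 (hP.diff_chart (mem_univ t) (hPt t ht).1) k
  have hvd : ∀ j, ∀ t ∈ closedBall s ρ, ∀ k, DifferentiableAt ℂ (fun t => v j t k) t :=
    fun j t ht k => differentiableAt_pi.1 ((hQ j).diff_chart (mem_univ t) (hQt j t ht).1) k
  have hfd : ∀ t ∈ closedBall s ρ, DifferentiableAt ℂ f t := by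
    intro t ht
    refine DifferentiableAt.mul ?_ (hG t ht)
    refine DifferentiableAt.fun_finsetProd fun j _ => ?_
    unfold wd
    exact ((hud t ht _).mul (hvd j t ht _)).sub ((hud t ht _).mul (hvd j t ht _))
  have hdc : DiffContOnCl ℂ f (ball s ρ) := by
    have h1 : DifferentiableOn ℂ f (closedBall s ρ) := fun t ht =>
      (hfd t ht).differentiableWithinAt
    exact h1.diffContOnCl_ball (subset_refl _)
  have hfr : ∀ t ∈ frontier (ball s ρ), ‖f t‖ ≤ KN N ^ r * B := by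
    intro t ht
    rw [frontier_ball s hρ.ne'] at ht
    have ht' := sphere_subset_closedBall ht
    rw [hf]
    simp only
    rw [norm_mul, norm_prod]
    have h1 : ∀ j, ‖wd (u t) (v j t) (p j).1 (p j).2‖ ≤ KN N * ‖P t - Q j t‖ := by
      intro j
      have h2 := wd_le_phi (PM.chart_ne (hPt t ht').1) (PM.chart_ne (hQt j t ht').1)
        (hPt t ht').2 (hQt j t ht').2
      rw [hPphi t ht', hQphi j t ht']
      exact ((norm_le_pi_norm (wd (u t) (v j t) (p j).1) (p j).2).trans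
        (norm_le_pi_norm (wd (u t) (v j t)) (p j).1)).trans h2
    calc (∏ j, ‖wd (u t) (v j t) (p j).1 (p j).2‖) * ‖G t‖ ≤
          (∏ j, (KN N * ‖P t - Q j t‖)) * ‖G t‖ :=
          mul_le_mul_of_nonneg_right (Finset.prod_le_prod (fun _ _ => norm_nonneg _)
            fun j _ => h1 j) (norm_nonneg _)
      _ = KN N ^ r * ((∏ j, ‖P t - Q j t‖) * ‖G t‖) := by
          rw [Finset.prod_mul_distrib, Finset.prod_const, Finset.card_univ, Fintype.card_fin]
          ring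
      _ ≤ KN N ^ r * B := mul_le_mul_of_nonneg_left (hB t ht) (pow_nonneg KN_nonneg r)
  have h1 := Complex.norm_le_of_forall_mem_frontier_norm_le isBounded_ball hdc hfr
    (subset_closure (mem_ball_self hρ))
  rw [hf] at h1
  simp only at h1
  rw [norm_mul, norm_prod] at h1
  calc (∏ j, ‖P s - Q j s‖) * ‖G s‖ ≤
        (∏ j, (KN N * ‖wd (u s) (v j s) (p j).1 (p j).2‖)) * ‖G s‖ :=
        mul_le_mul_of_nonneg_right (Finset.prod_le_prod (fun _ _ => norm_nonneg _)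
          fun j _ => hp j) (norm_nonneg _)
    _ = KN N ^ r * ((∏ j, ‖wd (u s) (v j s) (p j).1 (p j).2‖) * ‖G s‖) := by
        rw [Finset.prod_mul_distrib, Finset.prod_const, Finset.card_univ, Fintype.card_fin]
        ring
    _ ≤ KN N ^ r * (KN N ^ r * B) := mul_le_mul_of_nonneg_left h1 (pow_nonneg KN_nonneg r)

end Pool.Agent.N154.GG
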