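import Pool.Agent.N154.GG.LM

/-! The identity theorem for limits of products of distances and holomorphic functions. -/

set_option autoImplicit false

open Filter Topology Metric Set

namespace Pool.Agent.N154.GG

open Pool.Agent.Y190.OP Pool.Agent.N155

variable {N : ℕ}

theorem norm_attained {ι E : Type*} [Fintype ι] [Nonempty ι] [SeminormedAddGroup E] (f : ι → E) :
    ∃ i, ‖f‖ = ‖f i‖ := by
  obtain ⟨i, hi⟩ := Finite.exists_max (fun i => ‖f i‖)
  exact ⟨i, le_antisymm ((pi_norm_le_iff_of_nonempty f).2 hi) (norm_le_pi_norm f i)⟩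

theorem wd_attained [Nonempty (Fin N)] (u v : Fin N → ℂ) :
    ∃ p : Fin N × Fin N, ‖wd u v‖ = ‖wd u v p.1 p.2‖ := by
  obtain ⟨i, hi⟩ := norm_attained (wd u v)
  obtain ⟨j, hj⟩ := norm_attained (wd u v i)
  exact ⟨(i, j), by rw [hi, hj]⟩

theorem nz_dich {r : ℕ} {𝓤 : Ultrafilter ℕ} {P : ℕ → ℂ → Mat N} {Q : Fin r → ℕ → ℂ → Mat N}
    {Pi : ℂ → Mat N} {Qi : Fin r → ℂ → Mat N} {G : ℕ → ℂ → ℂ} (hP : ∀ k, HolP univ (P k))
    (hQ : ∀ j k, HolP univ (Q j k)) (hPi : ∀ z, Pi z ∈ PM) (hQi : ∀ j z, Qi j z ∈ PM)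
    (cP : CConv (𝓤 : Filter ℕ) univ P Pi) (cQ : ∀ j, CConv (𝓤 : Filter ℕ) univ (Q j) (Qi j))
    (hG : ∀ k, Differentiable ℂ (G k)) {B : ℝ}
    (hB : ∀ L : ℝ, ∀ᶠ k in (𝓤 : Filter ℕ), ∀ z ∈ closedBall (0 : ℂ) L,
      (∏ j, ‖P k z - Q j k z‖) * ‖G k z‖ ≤ B) :
    (∀ z, Tendsto (fun k => (∏ j, ‖P k z - Q j k z‖) * ‖G k z‖) 𝓤 (𝓝 0)) ∨
      ∀ᶠ z in codiscrete ℂ,
        ¬ Tendsto (fun k => (∏ j, ‖P k z - Q j k z‖) * ‖G k z‖) 𝓤 (𝓝 0) := by
  classical
  apply dich
  intro z0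
  obtain ⟨i, hi⟩ := PM.exists_diag (hPi z0)
  choose i' hi' using fun j => PM.exists_diag (hQi j z0)
  have : Nonempty (Fin N) := ⟨i⟩
  set c : ℝ := 1 + ‖chart i (Pi z0)‖ + ∑ j, ‖chart (i' j) (Qi j z0)‖ with hc
  have hc0 : 0 ≤ c := by positivity
  have hsum0 : 0 ≤ ∑ j, ‖chart (i' j) (Qi j z0)‖ := by positivity
  have hevP : ∀ᶠ x : ℕ × ℂ in (𝓤 : Filter ℕ) ×ˢ 𝓝 z0, P x.1 x.2 i i ≠ 0 ∧
      ‖chart i (P x.1 x.2)‖ ≤ c := by
    have h1 : ∀ᶠ M : Mat N in 𝓝 (Pi z0), M i i ≠ 0 :=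
      (continuous_apply_apply i i).continuousAt.eventually_ne hi
    have h2 : ∀ᶠ M in 𝓝 (Pi z0), ‖chart i M‖ < 1 + ‖chart i (Pi z0)‖ :=
      (continuousAt_chart hi).norm.eventually_lt_const (by linarith)
    filter_upwards [(cP z0 (mem_univ _)).eventually (h1.and h2)] with x hx
    exact ⟨hx.1, by linarith [hx.2]⟩
  have hevQ : ∀ᶠ x : ℕ × ℂ in (𝓤 : Filter ℕ) ×ˢ 𝓝 z0, ∀ j, Q j x.1 x.2 (i' j) (i' j) ≠ 0 ∧
      ‖chart (i' j) (Q j x.1 x.2)‖ ≤ c := by
    rw [eventually_all]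
    intro j
    have h1 : ∀ᶠ M : Mat N in 𝓝 (Qi j z0), M (i' j) (i' j) ≠ 0 :=
      (continuous_apply_apply (i' j) (i' j)).continuousAt.eventually_ne (hi' j)
    have h2 : ∀ᶠ M in 𝓝 (Qi j z0), ‖chart (i' j) M‖ < 1 + ‖chart (i' j) (Qi j z0)‖ :=
      (continuousAt_chart (hi' j)).norm.eventually_lt_const (by linarith)
    filter_upwards [(cQ j z0 (mem_univ _)).eventually (h1.and h2)] with x hx
    refine ⟨hx.1, ?_⟩
    have h3 := Finset.single_le_sum (f := fun j => ‖chart (i' j) (Qi j z0)‖)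
      (fun _ _ => norm_nonneg _) (Finset.mem_univ j)
    have h4 := norm_nonneg (chart i (Pi z0))
    linarith [hx.2]
  have hev := hevP.and hevQ
  rw [eventually_prod_iff] at hev
  obtain ⟨pa, hpa, pb, hpb, hab⟩ := hev
  obtain ⟨V, hVs, hV, hzV⟩ := _root_.mem_nhds_iff.1 (hpb.and (ball_mem_nhds z0 one_pos))
  set u : ℕ → ℂ → Fin N → ℂ := fun k z => chart i (P k z) with hu
  set v : Fin r → ℕ → ℂ → Fin N → ℂ := fun j k z => chart (i' j) (Q j k z) with hv
  set Nf : ℕ → ℂ → ℝ := fun k z => (∏ j, ‖P k z - Q j k z‖) * ‖G k z‖ with hNf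
  set F : (Fin r → Fin N × Fin N) → ℕ → ℂ → ℂ := fun p k z =>
    (∏ j, wd (u k z) (v j k z) (p j).1 (p j).2) * G k z with hF
  set K0 : ℝ := 2 * N * c ^ 2 with hK0
  have hK00 : 0 ≤ K0 := by positivity
  have hupper : ∀ k, pa k → ∀ z ∈ V, ∀ p, ‖F p k z‖ ≤ K0 ^ r * Nf k z := by
    intro k hk z hz p
    obtain ⟨⟨e1, e2⟩, e3⟩ := hab hk (hVs hz).1
    rw [hF]
    simp only
    rw [norm_mul, norm_prod]
    calc (∏ j, ‖wd (u k z) (v j k z) (p j).1 (p j).2‖) * ‖G k z‖ ≤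
          (∏ j, (K0 * ‖P k z - Q j k z‖)) * ‖G k z‖ := by
          refine mul_le_mul_of_nonneg_right (Finset.prod_le_prod (fun _ _ => norm_nonneg _)
            fun j _ => ?_) (norm_nonneg _)
          have h2 := wd_le_phi (PM.chart_ne e1) (PM.chart_ne (e3 j).1) e2 (e3 j).2
          rw [PM.Phi_chart ((hP k).mem_PM (mem_univ z)) e1,
            PM.Phi_chart ((hQ j k).mem_PM (mem_univ z)) (e3 j).1] at h2
          exact ((norm_le_pi_norm (wd (u k z) (v j k z) (p j).1) (p j).2).trans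
            (norm_le_pi_norm (wd (u k z) (v j k z)) (p j).1)).trans h2
      _ = K0 ^ r * Nf k z := by
          rw [Finset.prod_mul_distrib, Finset.prod_const, Finset.card_univ, Fintype.card_fin]
          ring
  have hlower : ∀ k, pa k → ∀ z ∈ V, Nf k z ≤ K0 ^ r * ∑ p, ‖F p k z‖ := by
    intro k hk z hz
    obtain ⟨⟨e1, e2⟩, e3⟩ := hab hk (hVs hz).1
    choose p hp using fun j => wd_attained (u k z) (v j k z)
    have h1 : Nf k z ≤ K0 ^ r * ‖F p k z‖ := by
      rw [hF, hNf]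
      simp only
      rw [norm_mul, norm_prod]
      calc (∏ j, ‖P k z - Q j k z‖) * ‖G k z‖ ≤
            (∏ j, (K0 * ‖wd (u k z) (v j k z) (p j).1 (p j).2‖)) * ‖G k z‖ := by
            refine mul_le_mul_of_nonneg_right (Finset.prod_le_prod (fun _ _ => norm_nonneg _)
              fun j _ => ?_) (norm_nonneg _)
            have h2 := phi_le_wd (PM.chart_self e1) (PM.chart_self (e3 j).1) e2 (e3 j).2
            rw [PM.Phi_chart ((hP k).mem_PM (mem_univ z)) e1,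
              PM.Phi_chart ((hQ j k).mem_PM (mem_univ z)) (e3 j).1] at h2
            rw [← hp j]
            exact h2
        _ = _ := by
            rw [Finset.prod_mul_distrib, Finset.prod_const, Finset.card_univ, Fintype.card_fin]
            ring
    refine h1.trans (mul_le_mul_of_nonneg_left ?_ (pow_nonneg hK00 r))
    exact Finset.single_le_sum (f := fun p => ‖F p k z‖) (fun _ _ => norm_nonneg _)
      (Finset.mem_univ p)
  have hdV : ∀ k, pa k → ∀ p, DifferentiableOn ℂ (F p k) V := by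
    intro k hk p z hz
    obtain ⟨⟨e1, e2⟩, e3⟩ := hab hk (hVs hz).1
    apply DifferentiableAt.differentiableWithinAt
    have h1 : ∀ l, DifferentiableAt ℂ (fun t => u k t l) z := fun l =>
      differentiableAt_pi.1 ((hP k).diff_chart (mem_univ z) e1) l
    have h2 : ∀ j l, DifferentiableAt ℂ (fun t => v j k t l) z := fun j l =>
      differentiableAt_pi.1 ((hQ j k).diff_chart (mem_univ z) (e3 j).1) l
    refine DifferentiableAt.mul ?_ (hG k z)
    refine DifferentiableAt.fun_finsetProd fun j _ => ?_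
    unfold wd
    exact ((h1 _).mul (h2 j _)).sub ((h1 _).mul (h2 j _))
  have hbV : ∀ᶠ k in (𝓤 : Filter ℕ), ∀ z ∈ V, ∀ p, ‖F p k z‖ ≤ K0 ^ r * B := by
    filter_upwards [hpa, hB (‖z0‖ + 1)] with k hk hk' z hz p
    refine (hupper k hk z hz p).trans (mul_le_mul_of_nonneg_left (hk' z ?_) (pow_nonneg hK00 r))
    have e4 : ‖z - z0‖ < 1 := by
      have := (hVs hz).2
      rwa [dist_eq_norm] at this
    rw [mem_closedBall_zero_iff]
    have := norm_add_le (z - z0) z0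
    rw [sub_add_cancel] at this
    linarith
  have hmon : ∀ p, ∃ H : ℂ → ℂ, CConv (𝓤 : Filter ℕ) V (F p) H := by
    intro p
    apply ultra_montel
    intro z hz
    refine ⟨V, hV.mem_nhds hz, K0 ^ r * B, ?_⟩
    filter_upwards [hpa, hbV] with k e1 e2
    exact ⟨hdV k e1 p, fun w hw => e2 w hw p⟩
  choose H hH using hmon
  have hHan : ∀ p, AnalyticAt ℂ (H p) z0 := fun p =>
    (CConv.an (hH p) hV hzV ⟨V, hV.mem_nhds hzV, by
      filter_upwards [hpa] with k e1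
      exact hdV k e1 p⟩).1
  by_cases hall : ∀ p, ∀ᶠ z in 𝓝 z0, H p z = 0
  · left
    have h1 : ∀ᶠ z in 𝓝 z0, ∀ p, H p z = 0 := eventually_all.2 hall
    filter_upwards [h1, hV.mem_nhds hzV] with z hz hzV
    have h2 : Tendsto (fun k => K0 ^ r * ∑ p, ‖F p k z‖) 𝓤 (𝓝 (K0 ^ r * ∑ p, ‖H p z‖)) := by
      apply Tendsto.const_mul
      apply tendsto_finsetSum
      intro p _
      exact ((hH p).pointwise hzV).norm
    have h3 : K0 ^ r * ∑ p, ‖H p z‖ = 0 := by
      simp only [hz, norm_zero, Finset.sum_const_zero, mul_zero]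
    rw [h3] at h2
    refine squeeze_zero' (Eventually.of_forall fun k => ?_) ?_ h2
    · exact mul_nonneg (Finset.prod_nonneg fun _ _ => norm_nonneg _) (norm_nonneg _)
    · filter_upwards [hpa] with k hk
      exact hlower k hk z hzV
  · right
    push Not at hall
    obtain ⟨p, hp⟩ := hall
    have h1 := ((hHan p).eventually_eq_zero_or_eventually_ne_zero).resolve_left (by
      intro h
      exact (Filter.not_eventually.2 (by simpa using hp)) h)
    filter_upwards [h1, mem_nhdsWithin_of_mem_nhds (hV.mem_nhds hzV)] with z hz hzV hten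
    apply hz
    have h2 : Tendsto (fun k => ‖F p k z‖) 𝓤 (𝓝 0) := by
      have h3 : Tendsto (fun k => K0 ^ r * Nf k z) 𝓤 (𝓝 (K0 ^ r * 0)) := hten.const_mul _
      rw [mul_zero] at h3
      refine squeeze_zero' (Eventually.of_forall fun k => norm_nonneg _) ?_ h3
      filter_upwards [hpa] with k hk
      exact hupper k hk z hzV p
    have h3 := tendsto_nhds_unique h2 ((hH p).pointwise hzV).norm
    exact norm_eq_zero.1 h3.symm

end Pool.Agent.N154.GG
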