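import Pool.Agent.N154.GG.Seq
import Pool.Agent.N154.GG.NZ
import Pool.Agent.N154.GG.Aff
import Pool.Agent.N154.GG.Cross

/-! There are no rescaled sequences. -/

set_option autoImplicit false

open Filter Topology Metric Set

namespace Pool.Agent.N154.GG

open Pool.Agent.Y190.OP Pool.Agent.N155

variable {N : ℕ} {T : Set (Mat N)} {Λ : AddSubgroup ℂ} {a : Mat N → ℂ} {κ : Type}
    {η : κ → (Fin N → ℂ) → (Fin N → ℂ) → (Fin N → ℂ) → ℂ}
    {r : ℕ} {e : Fin r → ℂ → Mat N} {D C : ℝ} {h : ℕ → ℂ → Mat N} {φ : ℕ → ℂ → ℂ}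

theorem SQ.bW (hs : SQ T Λ a e D h φ) {k m p : ℕ} (hp : p * (m + 1) = qk k) {t : ℂ}
    (ht : ‖t‖ ≤ k) : cf (φ k) (m + 1) t ^ p * ∏ j, ‖h k t - e j (φ k t)‖ ≤
      2 * ∏ j, ‖h k 0 - e j (φ k 0)‖ := by
  refine le_trans ?_ (hs.bd k t ht)
  apply mul_le_mul_of_nonneg_right _ (Finset.prod_nonneg fun _ _ => norm_nonneg _)
  rw [← hp, mul_comm p, pow_mul]
  exact pow_le_pow_left₀ (cf_nonneg _ _) (cf_le_sg (hs.dif k) t m) p

theorem qk_dvd {k m : ℕ} (hm : m ≤ k) : qk k / (m + 1) * (m + 1) = qk k := by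
  apply Nat.div_mul_cancel
  unfold qk
  exact Dvd.dvd.mul_left (Nat.dvd_factorial (Nat.succ_pos m) (by omega)) 4

theorem qk_ge (k : ℕ) : k ≤ qk k := by
  unfold qk
  have := Nat.self_le_factorial (k + 1)
  omega

theorem e_conv (he : ∀ j, e j ∈ S0 T Λ a) {Φ : ℂ → ℂ} (hΦc : CConv (UU : Filter ℕ) univ φ Φ)
    (j : Fin r) : CConv (UU : Filter ℕ) univ (fun k t => e j (φ k t)) (fun t => e j (Φ t)) :=
  hΦc.comp (g := e j) fun z _ => (he j).1.continuousAt (mem_univ _)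

/-- the weight -/
noncomputable def Wk (φ : ℕ → ℂ → ℂ) (m k : ℕ) (t : ℂ) : ℂ :=
  (iteratedDeriv (m + 1) (φ k) t / ((m + 1).factorial : ℂ)) ^ (qk k / (m + 1))

theorem norm_Wk (m k : ℕ) (t : ℂ) : ‖Wk φ m k t‖ = cf (φ k) (m + 1) t ^ (qk k / (m + 1)) := by
  unfold Wk cf
  rw [norm_pow, norm_div, Complex.norm_natCast]

theorem diff_it {f : ℂ → ℂ} (hf : Differentiable ℂ f) (m : ℕ) :
    Differentiable ℂ (iteratedDeriv m f) := by
  have : ContDiff ℂ ⊤ f := hf.contDiff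
  exact this.differentiable_iteratedDeriv m (by exact_mod_cast WithTop.coe_lt_top _)

theorem diff_Wk (hd : ∀ k, Differentiable ℂ (φ k)) (m k : ℕ) : Differentiable ℂ (Wk φ m k) := by
  have h1 := diff_it (hd k) (m + 1)
  unfold Wk
  fun_prop

/-- the limit function is affine -/
theorem SQ.aff (hT : TD T Λ a) (hs : SQ T Λ a e D h φ) (he : ∀ j, e j ∈ S0 T Λ a) {m : ℕ}
    (hm : ∀ᶠ k in (UU : Filter ℕ), ∀ p : ℕ, p * (m + 1) = qk k → 1 / 2 ≤ cf (φ k) (m + 1) 0 ^ p)
    {Φ : ℂ → ℂ} {H : ℂ → Mat N} (hΦ : Differentiable ℂ Φ)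
    (hΦc : CConv (UU : Filter ℕ) univ φ Φ) (hHT : ∀ z, H z ∈ T)
    (hHc : CConv (UU : Filter ℕ) univ h H) : ∃ α β : ℂ, α ≠ 0 ∧ ∀ t, Φ t = α * t + β := by
  have hkm : ∀ᶠ k : ℕ in (UU : Filter ℕ), m ≤ k := by
    filter_upwards [uu_ge (m : ℝ)] with k hk
    exact_mod_cast hk
  set d : ℕ → ℂ → ℝ := fun k t => ∏ j, ‖h k t - e j (φ k t)‖ with hd
  have hdnn : ∀ k t, 0 ≤ d k t := fun k t => Finset.prod_nonneg fun _ _ => norm_nonneg _
  have hd0 : ∀ k, 0 < d k 0 := hs.d0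
  set G : ℕ → ℂ → ℂ := fun k t => Wk φ m k t / (d k 0 : ℝ) with hG
  have hGn : ∀ k t, ‖G k t‖ = cf (φ k) (m + 1) t ^ (qk k / (m + 1)) / d k 0 := by
    intro k t
    rw [hG]
    simp only
    rw [norm_div, norm_Wk, Complex.norm_real, Real.norm_of_nonneg (hd0 k).le]
  have hbd : ∀ L : ℝ, ∀ᶠ k in (UU : Filter ℕ), ∀ z ∈ closedBall (0 : ℂ) L,
      (∏ j, ‖h k z - e j (φ k z)‖) * ‖G k z‖ ≤ 2 := by
    intro L
    filter_upwards [hkm, uu_ge L] with k hk hkL z hz
    have h1 := hs.bW (qk_dvd hk) ((mem_closedBall_zero_iff.1 hz).trans hkL)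
    rw [hGn, mul_div_assoc', div_le_iff₀ (hd0 k)]
    change d k z * _ ≤ _
    change _ * d k z ≤ 2 * d k 0 at h1
    linarith
  have hN0 : ∀ᶠ k in (UU : Filter ℕ), 1 / 2 ≤ d k 0 * ‖G k 0‖ := by
    filter_upwards [hm, hkm] with k h1 h2
    rw [hGn, mul_div_cancel₀ _ (hd0 k).ne']
    exact h1 _ (qk_dvd h2)
  have hnz := (nz_dich (𝓤 := UU) (P := h) (Q := fun j k t => e j (φ k t)) (Pi := H)
    (Qi := fun j t => e j (Φ t)) (G := G) hs.hol (fun j k => holP_comp (he j).1 (hs.dif k))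
    (fun z => hT.sub (hHT z)) (fun j z => hT.sub ((he j).2.1 _)) hHc (e_conv he hΦc)
    (fun k => by
      have := diff_Wk hs.dif m k
      rw [hG]
      fun_prop) hbd).resolve_left (by
    intro h0
    have h1 := (h0 0).eventually_lt_const (u := 1 / 2) (by norm_num)
    obtain ⟨k, e1, e2⟩ := (h1.and hN0).exists
    change d k 0 * ‖G k 0‖ < 1 / 2 at e1
    linarith)
  have hkey : ∀ᶠ t in codiscrete ℂ, ∀ᶠ k in (UU : Filter ℕ),
      sg (φ k) t ^ (m + 1) ≤ 2 * cf (φ k) (m + 1) t := by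
    filter_upwards [hnz] with t ht
    obtain ⟨ε, hε, hεt⟩ : ∃ ε > 0, ∀ᶠ k in (UU : Filter ℕ), ε ≤ d k t * ‖G k t‖ := by
      by_contra hcon
      push Not at hcon
      apply ht
      rw [Metric.tendsto_nhds]
      intro ε hε
      filter_upwards [hcon ε hε] with k hk
      rw [dist_zero_right, Real.norm_of_nonneg (mul_nonneg (hdnn k t) (norm_nonneg _))]
      exact hk
    filter_upwards [hεt, hkm, uu_ge ‖t‖, uu_ge (2 / ε * (m + 1))] with k e1 e2 e3 e4
    set p := qk k / (m + 1) with hp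
    have hpm : p * (m + 1) = qk k := qk_dvd e2
    rw [hGn, ← hp, mul_div_assoc', le_div_iff₀ (hd0 k)] at e1
    have e5 := hs.bd k t e3
    change sg (φ k) t ^ qk k * d k t ≤ 2 * d k 0 at e5
    have hdt : 0 < d k t := by
      rcases (hdnn k t).eq_or_lt with h0 | h0
      · rw [← h0, zero_mul] at e1
        exact absurd e1 (not_le.2 (mul_pos hε (hd0 k)))
      · exact h0
    have e6 : ε * (sg (φ k) t ^ qk k) ≤ 2 * cf (φ k) (m + 1) t ^ p := by
      have h1 : ε * (sg (φ k) t ^ qk k) * d k t ≤ 2 * cf (φ k) (m + 1) t ^ p * d k t := by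
        calc ε * (sg (φ k) t ^ qk k) * d k t = ε * (sg (φ k) t ^ qk k * d k t) := by ring
          _ ≤ ε * (2 * d k 0) := mul_le_mul_of_nonneg_left e5 hε.le
          _ = 2 * (ε * d k 0) := by ring
          _ ≤ 2 * (d k t * cf (φ k) (m + 1) t ^ p) := by linarith
          _ = _ := by ring
      exact le_of_mul_le_mul_right h1 hdt
    have e7 : 2 / ε ≤ 2 ^ p := by
      have h1 : (k : ℝ) ≤ (p : ℝ) * ((m : ℝ) + 1) := by
        have : k ≤ p * (m + 1) := by
          rw [hpm]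
          exact qk_ge k
        exact_mod_cast this
      have h2 : (2 / ε) ≤ (p : ℝ) := by
        have h3 : (0 : ℝ) < (m : ℝ) + 1 := by positivity
        exact le_of_mul_le_mul_right (e4.trans h1) h3
      have h4 : (p : ℝ) ≤ 2 ^ p := by
        have := (Nat.lt_two_pow_self (n := p)).le
        exact_mod_cast this
      exact h2.trans h4
    have e8 : (sg (φ k) t ^ (m + 1)) ^ p ≤ (2 * cf (φ k) (m + 1) t) ^ p := by
      rw [← pow_mul, mul_comm (m + 1), hpm, mul_pow]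
      have h1 : sg (φ k) t ^ qk k ≤ 2 / ε * cf (φ k) (m + 1) t ^ p := by
        rw [div_mul_eq_mul_div, le_div_iff₀ hε]
        linarith
      exact h1.trans (mul_le_mul_of_nonneg_right e7 (pow_nonneg (cf_nonneg _ _) _))
    have hp0 : p ≠ 0 := by
      intro h0
      rw [h0, zero_mul] at hpm
      unfold qk at hpm
      have := Nat.factorial_pos (k + 1)
      omega
    exact le_of_pow_le_pow_left₀ hp0 (mul_nonneg (by norm_num) (cf_nonneg _ _)) e8
  have hlimcf : ∀ t, Tendsto (fun k => 2 * cf (φ k) (m + 1) t) UU (𝓝 (2 * cf Φ (m + 1) t)) :=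
    fun t => ((it_lim hs.dif hΦc (m + 1) t).norm.div_const _).const_mul 2
  have hlimd : ∀ t, Tendsto (fun k => ‖deriv (φ k) t‖ ^ (m + 1)) UU (𝓝 (‖deriv Φ t‖ ^ (m + 1))) := by
    intro t
    have := it_lim hs.dif hΦc 1 t
    simp only [iteratedDeriv_one] at this
    exact this.norm.pow _
  have hlow : ∀ k t, (1 / (4 * (1 + ‖t‖))) ≤ sg (φ k) t := by
    intro k t
    have hsn := sg_nonneg (hs.dif k) t
    rcases sg_lower (hs.dif k) t 0 with h1 | h1
    · rw [zero_sub, norm_neg] at h1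
      rw [div_le_iff₀ (by positivity)]
      nlinarith [norm_nonneg t]
    · rw [hs.s0 k] at h1
      refine le_trans ?_ (show 1 / 4 ≤ sg (φ k) t by linarith)
      apply one_div_le_one_div_of_le (by norm_num)
      linarith [norm_nonneg t]
  have hgen : ∀ᶠ t in codiscrete ℂ, ‖deriv Φ t‖ ^ (m + 1) ≤ 2 * cf Φ (m + 1) t ∧
      (1 / (4 * (1 + ‖t‖))) ^ (m + 1) ≤ 2 * cf Φ (m + 1) t := by
    filter_upwards [hkey] with t ht
    constructor
    · refine le_of_tendsto_of_tendsto (hlimd t) (hlimcf t) ?_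
      filter_upwards [ht] with k hk
      exact (pow_le_pow_left₀ (norm_nonneg _) (deriv_le_sg (hs.dif k) t) _).trans hk
    · refine ge_of_tendsto (hlimcf t) ?_
      filter_upwards [ht] with k hk
      exact (pow_le_pow_left₀ (by positivity) (hlow k t) _).trans hk
  have hccf : Continuous fun t => 2 * cf Φ (m + 1) t :=
    (((diff_it hΦ (m + 1)).continuous.norm).div_const _).const_mul 2
  have hcd : Continuous fun t => ‖deriv Φ t‖ ^ (m + 1) := by
    have : Differentiable ℂ (deriv Φ) := fun z => (hΦ.analyticAt z).deriv.differentiableAt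
    exact this.continuous.norm.pow _
  have hcl : Continuous fun t : ℂ => (1 / (4 * (1 + ‖t‖))) ^ (m + 1) := by
    apply Continuous.pow
    apply Continuous.div (by fun_prop) (by fun_prop)
    intro t
    positivity
  apply affine_of hΦ (m := m)
  · intro t
    refine le_of_tendsto_of_tendsto (hcd.continuousAt.mono_left nhdsWithin_le_nhds)
      (hccf.continuousAt.mono_left nhdsWithin_le_nhds) (f := fun t => ‖deriv Φ t‖ ^ (m + 1))
      (g := fun t => 2 * cf Φ (m + 1) t) (b := 𝓝[≠] t) ?_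
    filter_upwards [codis_ev hgen t] with z hz
    exact hz.1
  · intro t
    refine le_of_tendsto_of_tendsto (hcl.continuousAt.mono_left nhdsWithin_le_nhds)
      (hccf.continuousAt.mono_left nhdsWithin_le_nhds)
      (f := fun t : ℂ => (1 / (4 * (1 + ‖t‖))) ^ (m + 1))
      (g := fun t => 2 * cf Φ (m + 1) t) (b := 𝓝[≠] t) ?_
    filter_upwards [codis_ev hgen t] with z hz
    exact hz.2

end Pool.Agent.N154.GG
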