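import Pool.Agent.N154.GG.LB
import Pool.Agent.N154.GG.Fi

/-! Rescaled sequences of entire curves. -/

set_option autoImplicit false

open Filter Topology Metric Set

namespace Pool.Agent.N154.GG

open Pool.Agent.Y190.OP Pool.Agent.N155

variable {N : ℕ} {T : Set (Mat N)} {Λ : AddSubgroup ℂ} {a : Mat N → ℂ}

/-- the ultrafilter -/
noncomputable def UU : Ultrafilter ℕ := hyperfilter ℕ

/-- the exponents -/
def qk (k : ℕ) : ℕ := 4 * (k + 1).factorial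

theorem uu_ge (R : ℝ) : ∀ᶠ n : ℕ in (UU : Filter ℕ), R ≤ n := hyper_ge R

/-- a rescaled sequence -/
structure SQ (T : Set (Mat N)) (Λ : AddSubgroup ℂ) (a : Mat N → ℂ) {r : ℕ}
    (e : Fin r → ℂ → Mat N) (D : ℝ) (h : ℕ → ℂ → Mat N) (φ : ℕ → ℂ → ℂ) : Prop where
  hol : ∀ k, HolP univ (h k)
  mem : ∀ k z, h k z ∈ T
  dif : ∀ k, Differentiable ℂ (φ k)
  ov : ∀ k, Over Λ a (h k) (φ k)
  b0 : ∀ k, ‖φ k 0‖ ≤ D
  s0 : ∀ k, sg (φ k) 0 = 1
  d0 : ∀ k, 0 < ∏ j, ‖h k 0 - e j (φ k 0)‖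
  bd : ∀ (k : ℕ) (t : ℂ), ‖t‖ ≤ k → sg (φ k) t ^ (qk k) * ∏ j, ‖h k t - e j (φ k t)‖ ≤
    2 * ∏ j, ‖h k 0 - e j (φ k 0)‖

/-- the gradient estimate -/
def GE (T : Set (Mat N)) (Λ : AddSubgroup ℂ) (a : Mat N → ℂ) (C : ℝ) : Prop :=
  ∀ (P : ℂ → Mat N) (φ : ℂ → ℂ), HolP univ P → (∀ z, P z ∈ T) → Differentiable ℂ φ →
      Over Λ a P φ → ∀ z, ‖fderiv ℝ P z‖ ≤ C * sg φ z

variable {r : ℕ} {e : Fin r → ℂ → Mat N} {D C : ℝ} {h : ℕ → ℂ → Mat N} {φ : ℕ → ℂ → ℂ}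

theorem SQ.LB (hs : SQ T Λ a e D h φ) (he : ∀ j, e j ∈ S0 T Λ a) (hC0 : 0 < C)
    (hC : GE T Λ a C) (r0 : ℝ) :
    ∃ K : ℝ, ∀ᶠ k in (UU : Filter ℕ), ∀ t : ℂ, ‖t‖ ≤ r0 → sg (φ k) t ≤ K := by
  by_contra hcon
  push Not at hcon
  obtain ⟨S, R, n0, hS, hR, hmain⟩ := LB_core (N := N) (r := r) (m0 := max r0 0 + 3) hC0
    (by linarith [le_max_right r0 0])
  have h1 := hcon S
  obtain ⟨k, ⟨t, ht, hst⟩, hkR, hkn⟩ := (h1.and ((uu_ge R).and (uu_ge (n0 : ℝ)))).exists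
  have hm0 : 0 ≤ max r0 0 := le_max_right _ _
  have hmr : r0 ≤ max r0 0 := le_max_left _ _
  obtain ⟨t1, ht1, hs1⟩ := sg_max (hs.dif k) hS.le hst
    (show ‖t‖ < max r0 0 + 3 - 2 by linarith)
  obtain ⟨t2, ht2, hs2⟩ := sg_max (hs.dif k) hS.le hst (show ‖t‖ < max r0 0 + 3 by linarith)
  refine hmain (k + 1).factorial ?_ (h k) (fun j t => e j (φ k t)) (sg (φ k)) t1 t2 (hs.hol k)
    (fun j => holP_comp (he j).1 (hs.dif k)) (sg_nonneg (hs.dif k))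
    (fun z w => sg_harnack (hs.dif k)) (hC _ _ (hs.hol k) (hs.mem k) (hs.dif k) (hs.ov k))
    (fun j => hC _ _ (holP_comp (he j).1 (hs.dif k)) (fun z => (he j).2.1 _) (hs.dif k)
      ((he j).2.2.comp (φ k))) (hs.s0 k) (hs.d0 k) ?_ ht1 ht2 hs1 hs2
  · have h2 : n0 ≤ k := by exact_mod_cast hkn
    exact h2.trans ((Nat.le_succ k).trans (Nat.self_le_factorial _))
  · intro t ht
    exact hs.bd k t (ht.trans hkR)

theorem SQ.lim (hT : TD T Λ a) (hs : SQ T Λ a e D h φ) (he : ∀ j, e j ∈ S0 T Λ a)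
    (hC0 : 0 < C) (hC : GE T Λ a C) :
    ∃ (Φ : ℂ → ℂ) (H : ℂ → Mat N), Differentiable ℂ Φ ∧ CConv (UU : Filter ℕ) univ φ Φ ∧
      HolP univ H ∧ (∀ z, H z ∈ T) ∧ CConv (UU : Filter ℕ) univ h H ∧ Over Λ a H Φ := by
  obtain ⟨Φ, hΦ, hΦc, -⟩ := exists_limit_fun (𝓤 := UU) hs.dif
    ⟨D, Eventually.of_forall hs.b0⟩ (by
      intro L
      obtain ⟨K, hK⟩ := hs.LB he hC0 hC L
      refine ⟨K, ?_⟩
      filter_upwards [hK] with k hk z hz
      exact (deriv_le_sg (hs.dif k) z).trans (hk z (mem_ball_zero_iff.1 hz).le))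
  obtain ⟨H, hH, hHT, hHc, -⟩ := exists_limit_loc hT.comp hT.sub (𝓤 := UU) hs.hol hs.mem (by
      intro L
      obtain ⟨K, hK⟩ := hs.LB he hC0 hC L
      refine ⟨C * K, ?_⟩
      filter_upwards [hK] with k hk z hz
      exact (hC _ _ (hs.hol k) (hs.mem k) (hs.dif k) (hs.ov k) z).trans
        (mul_le_mul_of_nonneg_left (hk z (mem_ball_zero_iff.1 hz).le) hC0.le))
  refine ⟨Φ, H, hΦ, hΦc, hH, hHT, hHc, fun z => ?_⟩
  exact hT.lim (l := (UU : Filter ℕ)) (Eventually.of_forall fun k => hs.mem k z)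
    (hHc.pointwise (mem_univ z)) (hHT z) (Eventually.of_forall fun k => hs.ov k z)
    (hΦc.pointwise (mem_univ z))

/-- uniform convergence on compact sets -/
theorem CConv.unif {E : Type*} [NormedAddCommGroup E] {l : Filter ℕ} [l.NeBot] {f : ℕ → ℂ → E}
    {g : ℂ → E} (h : CConv l univ f g) {A : Set ℂ} (hA : IsCompact A) {ε : ℝ} (hε : 0 < ε) :
    ∀ᶠ n in l, ∀ z ∈ A, ‖f n z - g z‖ < ε := by
  have h1 := (tendstoLocallyUniformlyOn_iff_forall_isCompact isOpen_univ).1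
    (h.locUnif isOpen_univ) A (subset_univ A) hA
  rw [Metric.tendstoUniformlyOn_iff] at h1
  filter_upwards [h1 ε hε] with n hn z hz
  have := hn z hz
  rwa [dist_comm, dist_eq_norm] at this

/-- the limits of the derivatives -/
theorem it_lim {Φ : ℂ → ℂ} (hd : ∀ k, Differentiable ℂ (φ k))
    (hc : CConv (UU : Filter ℕ) univ φ Φ) (m : ℕ) (z : ℂ) :
    Tendsto (fun k => iteratedDeriv m (φ k) z) UU (𝓝 (iteratedDeriv m Φ z)) := by
  have hdm : ∀ k m, Differentiable ℂ (iteratedDeriv m (φ k)) := by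
    intro k m
    have : ContDiff ℂ ⊤ (φ k) := (hd k).contDiff
    exact this.differentiable_iteratedDeriv m (by exact_mod_cast WithTop.coe_lt_top _)
  have h1 : ∀ m, TendstoLocallyUniformlyOn (fun k => iteratedDeriv m (φ k)) (iteratedDeriv m Φ)
      (UU : Filter ℕ) univ := by
    intro m
    induction m with
    | zero =>
      simp only [iteratedDeriv_zero]
      exact hc.locUnif isOpen_univ
    | succ m ih =>
      simp only [iteratedDeriv_succ]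
      exact ih.deriv (Eventually.of_forall fun k => (hdm k m).differentiableOn) isOpen_univ
  exact (h1 m).tendsto_at (mem_univ z)

theorem pigeon {𝓤 : Ultrafilter ℕ} {p : ℕ → ℕ → Prop} {M : ℕ}
    (h : ∀ᶠ k in (𝓤 : Filter ℕ), ∃ m < M, p k m) : ∃ m, ∀ᶠ k in (𝓤 : Filter ℕ), p k m := by
  have h1 : (⋃ m ∈ Set.Iio M, {k | p k m}) ∈ 𝓤 := by
    filter_upwards [h] with k hk
    obtain ⟨m, hm, hp⟩ := hk
    exact mem_biUnion hm hp
  obtain ⟨m, -, hm⟩ := (Ultrafilter.finite_biUnion_mem_iff (finite_Iio M)).1 h1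
  exact ⟨m, hm⟩

/-- the order of the dominating coefficient -/
theorem SQ.coef (hs : SQ T Λ a e D h φ) (he : ∀ j, e j ∈ S0 T Λ a) (hC0 : 0 < C)
    (hC : GE T Λ a C) :
    ∃ m : ℕ, ∀ᶠ k in (UU : Filter ℕ), ∀ p : ℕ, p * (m + 1) = qk k →
      1 / 2 ≤ cf (φ k) (m + 1) 0 ^ p := by
  set s : ℕ → ℝ := fun k => (1 / 2 : ℝ) ^ (((qk k : ℕ) : ℝ)⁻¹) with hsdef
  have hqpos : ∀ k, qk k ≠ 0 := fun k => by
    unfold qk
    positivity
  have hq1 : ∀ k, (1 : ℝ) ≤ (qk k : ℝ) := fun k => by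
    exact_mod_cast Nat.one_le_iff_ne_zero.2 (hqpos k)
  have hs0 : ∀ k, 0 ≤ s k := fun k => by positivity
  have hspow : ∀ k, s k ^ (qk k) = 1 / 2 := fun k =>
    Real.rpow_inv_natCast_pow (by norm_num) (hqpos k)
  have hs1 : ∀ k, s k < 1 := fun k =>
    Real.rpow_lt_one (by norm_num) (by norm_num) (inv_pos.2 (by linarith [hq1 k]))
  have hs2 : ∀ k, 1 / 2 ≤ s k := by
    intro k
    have h1 := Real.rpow_le_rpow_of_exponent_ge (x := 1 / 2) (y := 1) (z := ((qk k : ℕ) : ℝ)⁻¹)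
      (by norm_num) (by norm_num) (inv_le_one_of_one_le₀ (hq1 k))
    rwa [Real.rpow_one] at h1
  choose m hm using fun k => exists_cf (hs.dif k) (hs0 k) (show s k < sg (φ k) 0 by
    rw [hs.s0 k]
    exact hs1 k)
  obtain ⟨K, hK⟩ := hs.LB he hC0 hC 4
  have hbound : ∀ᶠ k in (UU : Filter ℕ), ∃ m' < ⌈4 * K⌉₊, m k = m' := by
    filter_upwards [hK] with k hk
    refine ⟨m k, ?_, rfl⟩
    have hK0 : 0 ≤ K := (sg_nonneg (hs.dif k) 0).trans (hk 0 (by simp))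
    have h1 : ∀ w ∈ sphere (0 : ℂ) 4, ‖φ k w - φ k 0‖ ≤ 4 * K := by
      intro w hw
      rw [mem_sphere_zero_iff_norm] at hw
      have h6 : ‖φ k w - φ k 0‖ ≤ K * ‖w - 0‖ :=
        (convex_closedBall (0 : ℂ) 4).norm_image_sub_le_of_norm_deriv_le
          (fun x _ => (hs.dif k) x) (fun x hx => (deriv_le_sg (hs.dif k) x).trans
            (hk x (mem_closedBall_zero_iff.1 hx)))
          (mem_closedBall_self (by norm_num)) (mem_closedBall_zero_iff.2 hw.le)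
      rw [sub_zero, hw] at h6
      linarith
    have h2 := cf_le (hs.dif k) (by norm_num) h1 (m k)
    have h3 : (1 / 2 : ℝ) ^ (m k + 1) ≤ s k ^ (m k + 1) :=
      pow_le_pow_left₀ (by norm_num) (hs2 k) _
    have h4 : (1 / 2 : ℝ) ^ (m k + 1) < 4 * K / 4 ^ (m k + 1) := (h3.trans_lt (hm k)).trans_le h2
    rw [lt_div_iff₀ (by positivity), ← mul_pow] at h4
    norm_num at h4
    have h5 : ((m k : ℝ) + 1) < 2 ^ (m k + 1) := by
      have := Nat.lt_two_pow_self (n := m k + 1)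
      exact_mod_cast this
    have h6 : (m k : ℝ) < 4 * K := by linarith
    have h7 := h6.trans_le (Nat.le_ceil (4 * K))
    exact_mod_cast h7
  obtain ⟨m', hm'⟩ := pigeon hbound
  refine ⟨m', ?_⟩
  filter_upwards [hm'] with k hk p hp
  have h1 := hm k
  rw [hk] at h1
  calc (1 / 2 : ℝ) = s k ^ (qk k) := (hspow k).symm
    _ = (s k ^ (m' + 1)) ^ p := by rw [← pow_mul, ← hp, mul_comm]
    _ ≤ cf (φ k) (m' + 1) 0 ^ p := pow_le_pow_left₀ (pow_nonneg (hs0 k) _) h1.le p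

end Pool.Agent.N154.GG
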